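import Pool.Agent.H363D.Opt

/-!
# The number of outputs
-/

set_option autoImplicit false

open Finset

namespace Pool.Agent.H363D

variable {d : ℕ} {ι ω α Γ : Type}

theorem outs_le [Fintype ω] {M : Machine d ι ω α Γ} {x : ι → α} {y : ω → α} {T W : ℕ}
    (h : M.Computes x y T W) :
    Fintype.card ω ≤ W ∧ Fintype.card ω ≤ T * (2 * T + 1) ^ d := by
  obtain ⟨⟨S, hSW, hact⟩, -, hall⟩ := h
  choose t ht c hcw using hall
  have hactive : ∀ o, M.Active x (t o) (c o) := by
    intro o
    unfold Machine.Active
    right; right
    have := hcw o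
    unfold Machine.Writes at this
    rw [this]
    simp
  have hinj : Function.Injective (fun o => (t o, c o)) := by
    intro o o' h
    simp only [Prod.mk.injEq] at h
    have h1 := hcw o
    have h2 := hcw o'
    unfold Machine.Writes at h1 h2
    rw [h.1, h.2, h2] at h1
    simp only [Option.some.injEq, Prod.mk.injEq] at h1
    exact h1.1.symm
  constructor
  · rw [← card_univ]
    refine le_trans (card_le_card_of_injOn (t := S) (fun o => (t o, c o)) ?_ hinj.injOn) hSW
    intro o _
    exact hact _ (ht o) _ (hactive o)
  · rw [← card_box (d := d) T]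
    have h1 : (range T ×ˢ box d T).card = T * (box d T).card := by
      rw [card_product, card_range]
    rw [← h1, ← card_univ]
    apply card_le_card_of_injOn (fun o => (t o, c o)) _ hinj.injOn
    intro o _
    rw [mem_coe, mem_product, mem_range]
    exact ⟨ht o, active_box (ht o) (hactive o)⟩

theorem time_pos {M : Machine d ι ω α Γ} {x : ι → α} {y : ω → α} {T W : ℕ}
    (h : M.Computes x y T W) (o : ω) : 1 ≤ T := by
  obtain ⟨-, -, hall⟩ := h
  obtain ⟨t, ht, -⟩ := hall o
  omega

end Pool.Agent.H363D
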