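import Pool.Agent.H363D.Union2
import Pool.Agent.H363D.Outs
import Pool.Agent.W896.MO.ApspFinal

/-!
# All-pairs shortest paths, on a machine with a memory in space: the counting
-/

set_option autoImplicit false

open Finset

namespace Pool.Agent.H363DA

open Pool.Agent.H363D hiding cnt NumW union_windows
open Pool.Agent.H363D.Xi
open Pool.Agent.W896.MO
open Pool.Agent.H537R2.Apsp (Graph walkWeight dist)
open Pool.Agent.H537R2.Apsq (cnt cnt_mono cnt_nonneg cnt_eq Cons exists_family)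
open Pool.Agent.H537R2.Apsr

/-- The exponent of a window. -/
def kk (e₁ e₂ x : ℕ) (c : Bool) : ℕ := e₁ * (x + 1) + if c = true then e₂ else 0

/-- The threshold for the number of the outputs of a window. -/
def tha (G₀ m e₁ e₂ a x : ℕ) (c : Bool) : ℕ := 1 + G₀ * (8 * a / 2 ^ m + 1 + 2 * kk e₁ e₂ x c)

/-- The bound at the leaves, for windows of different sizes. -/
theorem leafW {l φ κ m c a k : ℕ} (K : ℕ → Fin (2 ^ l) → Finset (Fin (2 ^ l)))
    (hK : ∀ s, ∀ I : Finset (Fin (2 ^ l)), 64 * (I.card * 2 ^ s) ≤ 2 ^ l →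
      I.card * 2 ^ s ≤ 2 ^ φ * (I.biUnion (K s)).card)
    (hl : 6 ≤ l) (hm : m + 13 + κ + 2 * φ = 2 * l) (hc : c + φ + 4 = m) (hκ : 2 ≤ κ)
    (hk : 1 ≤ k) (hk2 : k ≤ 2 ^ (κ - 2)) (ha : 8 * a + 2 ≤ 2 ^ (m + κ - 1)) :
    ∃ β : ℝ, β * 2 ^ k ≤ 1 ∧
      ∀ (Q : Finset (Jx c (2 ^ l))) (ρ : Jx c (2 ^ l) → Fin (2 ^ m))
        (R : Finset (Fin (2 ^ l) × Fin (2 ^ l))), Q.card ≤ 4 * a →
        (l + 1) * 2 ^ (3 * φ + 18) * (8 * a / 2 ^ m + 1 + 2 * k) ≤ R.card →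
        cnt (fun x : Jx c (2 ^ l) → Fin (2 ^ m) => Cons Q ρ x ∧ ∀ p ∈ R, ¬ Conn K x p.1 p.2) ≤
          β * cnt (Cons Q ρ) := by
  obtain ⟨Xx, hX⟩ : ∃ Xx, Xx = 4 * a + k * 2 ^ m + 1 := ⟨_, rfl⟩
  obtain ⟨ν, hν⟩ : ∃ ν, ν = Nat.clog 2 Xx := ⟨_, rfl⟩
  have h2m : 1 ≤ 2 ^ m := Nat.one_le_two_pow
  have hkm : 2 ^ m ≤ k * 2 ^ m := Nat.le_mul_of_pos_left _ hk
  have hν1 : Xx ≤ 2 ^ ν := by rw [hν]; exact Nat.le_pow_clog (by norm_num) _
  have hν2 : 2 ^ ν < 2 * Xx := by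
    have h1 := Nat.pow_pred_clog_lt_self (b := 2) (x := Xx) (by norm_num) (by omega)
    have h2 : 0 < Nat.clog 2 Xx := Nat.clog_pos (by norm_num) (by omega)
    rw [← hν] at h1 h2
    have h3 : 2 ^ ν = 2 * 2 ^ ν.pred := by
      rw [← pow_succ']
      congr 1
      exact (Nat.succ_pred_eq_of_pos h2).symm
    omega
  have hνm : m ≤ ν := by
    have h1 : 2 ^ m ≤ 2 ^ ν := by omega
    exact (Nat.pow_le_pow_iff_right (by norm_num : 1 < 2)).1 h1
  have hνκ : ν ≤ m + κ := by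
    have h1 : 2 * (k * 2 ^ m) ≤ 2 ^ (m + κ - 1) := by
      calc 2 * (k * 2 ^ m) ≤ 2 * (2 ^ (κ - 2) * 2 ^ m) :=
            Nat.mul_le_mul_left _ (Nat.mul_le_mul_right _ hk2)
        _ = 2 ^ (m + κ - 1) := by
            rw [← pow_add, ← pow_succ']
            congr 1
            omega
    have h2 : 2 ^ (m + κ) = 2 * 2 ^ (m + κ - 1) := by
      rw [← pow_succ']
      congr 1
      omega
    have h3 : 2 ^ ν < 2 ^ (m + κ) := by omega
    exact ((Nat.pow_lt_pow_iff_right (by norm_num : 1 < 2)).1 h3).le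
  obtain ⟨r, hr⟩ : ∃ r, r + c = ν + 2 * φ + 1 := ⟨ν + 2 * φ + 1 - c, by omega⟩
  refine ⟨Real.exp (-((2 : ℝ) ^ (r + c) / 2 ^ (2 * φ + 1 + m))), ?_, ?_⟩
  · have h1 : (2 : ℝ) ^ (r + c) / 2 ^ (2 * φ + 1 + m) = 2 ^ (ν - m) := by
      rw [div_eq_iff (by positivity), ← pow_add]
      congr 1
      omega
    have h2 : (k : ℝ) ≤ 2 ^ (ν - m) := by
      have h3 : k * 2 ^ m ≤ 2 ^ (ν - m) * 2 ^ m := by
        rw [← pow_add, Nat.sub_add_cancel hνm]
        omega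
      have h4 := Nat.le_of_mul_le_mul_right h3 (by positivity)
      exact_mod_cast h4
    have h3 : ((2 : ℝ) ^ k) ≤ Real.exp (k : ℝ) := by
      have h4 : (2 : ℝ) ≤ Real.exp 1 := by linarith [Real.exp_one_gt_d9]
      calc ((2 : ℝ) ^ k) ≤ (Real.exp 1) ^ k := pow_le_pow_left₀ (by norm_num) h4 _
        _ = Real.exp (k : ℝ) := by rw [← Real.exp_nat_mul, mul_one]
    rw [h1]
    have h4 : Real.exp (-((2 : ℝ) ^ (ν - m))) ≤ Real.exp (-(k : ℝ)) :=
      Real.exp_le_exp.2 (neg_le_neg h2)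
    calc Real.exp (-((2 : ℝ) ^ (ν - m))) * 2 ^ k ≤ Real.exp (-(k : ℝ)) * Real.exp (k : ℝ) :=
          mul_le_mul h4 h3 (by positivity) (Real.exp_pos _).le
      _ = 1 := by rw [← Real.exp_add, neg_add_cancel, Real.exp_zero]
  · intro Q ρ R hQ hR
    refine leaf (c := c) (r := r) (m := m) K hK hl (by omega) (by omega) Q ρ ?_ R ?_
    · rw [show r + c - 2 * φ - 1 = ν by omega]
      omega
    · refine le_trans ?_ hR
      have h1 : 2 ^ (r + 13) = 2 ^ (3 * φ + 18) * 2 ^ (ν - m) := by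
        rw [← pow_add]
        congr 1
        omega
      have h2 : 2 ^ (ν - m) ≤ 8 * a / 2 ^ m + 1 + 2 * k := by
        have h3 : 2 ^ (ν - m) ≤ (8 * a + 1 + (2 * k) * 2 ^ m) / 2 ^ m := by
          rw [Nat.le_div_iff_mul_le (by positivity), ← pow_add, Nat.sub_add_cancel hνm]
          have : 2 * k * 2 ^ m = 2 * (k * 2 ^ m) := by ring
          omega
        rw [Nat.add_mul_div_right _ _ (by positivity)] at h3
        have h4 : (8 * a + 1) / 2 ^ m ≤ 8 * a / 2 ^ m + 1 := by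
          calc (8 * a + 1) / 2 ^ m ≤ (8 * a + 1 * 2 ^ m) / 2 ^ m :=
                Nat.div_le_div_right (by omega)
            _ = 8 * a / 2 ^ m + 1 := by rw [Nat.add_mul_div_right _ _ (by positivity)]
        omega
      rw [h1]
      calc (l + 1) * (2 ^ (3 * φ + 18) * 2 ^ (ν - m)) =
            (l + 1) * 2 ^ (3 * φ + 18) * 2 ^ (ν - m) := by ring
        _ ≤ _ := Nat.mul_le_mul_left _ h2

/-- The numbers of the windows. -/
theorem numA_of {d b τ ξ W G₀ m e₁ e₂ N₀ : ℕ} (hb : 0 < b) (hτ : 0 < τ) (hξ : 0 < ξ)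
    (he : 1 ≤ e₁)
    (h : (G₀ : ℝ) * (8 * W / 2 ^ m + 3 * e₁ * (2 * (3 ^ d * (2 * d) * W / b) + 3 ^ d) +
      (3 * e₁ + 2 * e₂) * (W / τ + 3 ^ d * (2 * d) * W / b / ξ)) < N₀) :
    NumW d b τ ξ W (tha G₀ m e₁ e₂) N₀ := by
  intro I nn xx B h1 h2 h2' h3 h3' h4 h5
  have hbr : (0 : ℝ) < b := by exact_mod_cast hb
  have hτr : (0 : ℝ) < τ := by exact_mod_cast hτ
  have hξr : (0 : ℝ) < ξ := by exact_mod_cast hξ
  obtain ⟨late, hlate⟩ : ∃ late, late = (I.filter (fun w => w.2 ≠ 0)).card := ⟨_, rfl⟩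
  obtain ⟨early, hearly⟩ : ∃ early, early = (I.filter (fun w => w.2 = 0)).card := ⟨_, rfl⟩
  obtain ⟨X, hX⟩ : ∃ X, X = ∑ w ∈ I, xx w := ⟨_, rfl⟩
  rw [← hlate] at h4
  rw [← hearly, ← hX] at h5
  rw [← hX] at h3
  have hI : I.card = early + late := by
    have := card_filter_add_card_filter_not (s := I) (fun w => w.2 = 0)
    rw [← hearly] at this
    rw [hlate]
    exact this.symm
  have hBr : (B : ℝ) ≤ 3 ^ d * (2 * d) * W / b := by
    rw [le_div_iff₀ hbr, mul_comm]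
    exact_mod_cast h3'
  have hXr : (X : ℝ) ≤ 3 ^ d * (2 * d) * W / b := le_trans (by exact_mod_cast h3) hBr
  have hlr : (late : ℝ) ≤ W / τ + 3 ^ d * (2 * d) * W / b / ξ := by
    have h6 : (late : ℝ) ≤ ((W / τ : ℕ) : ℝ) + ((B / ξ : ℕ) : ℝ) := by exact_mod_cast h4
    have h7 : ((W / τ : ℕ) : ℝ) ≤ W / τ := Nat.cast_div_le
    have h8 : ((B / ξ : ℕ) : ℝ) ≤ B / ξ := Nat.cast_div_le
    have h9 : (B : ℝ) / ξ ≤ 3 ^ d * (2 * d) * W / b / ξ :=
      div_le_div_of_nonneg_right hBr hξr.le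
    linarith
  have her : (early : ℝ) ≤ 3 ^ d + X := by exact_mod_cast h5
  have hsum : ∑ w ∈ I, (tha G₀ m e₁ e₂ (nn w) (xx w) (decide (w.2 ≠ 0)) - 1) =
      G₀ * (∑ w ∈ I, 8 * nn w / 2 ^ m + I.card + 2 * (e₁ * (X + I.card) + e₂ * late)) := by
    have e1 : ∀ w ∈ I, tha G₀ m e₁ e₂ (nn w) (xx w) (decide (w.2 ≠ 0)) - 1 =
        G₀ * ((8 * nn w / 2 ^ m + 1) + 2 * (e₁ * (xx w + 1) + if w.2 ≠ 0 then e₂ else 0)) := by
      intro w _
      unfold tha kk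
      rw [Nat.add_sub_cancel_left]
      by_cases h0 : w.2 = 0
      · simp only [h0, ne_eq, not_true_eq_false, decide_false, if_false, Bool.false_eq_true]
      · simp only [h0, ne_eq, not_false_eq_true, decide_true, if_true]
    rw [sum_congr rfl e1, ← mul_sum, sum_add_distrib, sum_add_distrib, ← mul_sum,
      sum_add_distrib, ← mul_sum, sum_add_distrib, ← hX, sum_const, smul_eq_mul, mul_one,
      ← sum_filter, sum_const, ← hlate, smul_eq_mul]
    ring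
  rw [hsum, hI]
  have hnn : ((∑ w ∈ I, 8 * nn w / 2 ^ m : ℕ) : ℝ) ≤ 8 * W / 2 ^ m := by
    have h6 : ∑ w ∈ I, 8 * nn w / 2 ^ m ≤ (8 * W) / 2 ^ m := by
      refine (sum_div I (fun w => 8 * nn w) (by positivity)).trans (Nat.div_le_div_right ?_)
      rw [← mul_sum]
      exact Nat.mul_le_mul_left _ h1
    calc ((∑ w ∈ I, 8 * nn w / 2 ^ m : ℕ) : ℝ) ≤ (((8 * W) / 2 ^ m : ℕ) : ℝ) := by
          exact_mod_cast h6
      _ ≤ ((8 * W : ℕ) : ℝ) / ((2 ^ m : ℕ) : ℝ) := Nat.cast_div_le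
      _ = _ := by push_cast; ring
  have her1 : (1 : ℝ) ≤ e₁ := by exact_mod_cast he
  have hl0 : (0 : ℝ) ≤ late := Nat.cast_nonneg _
  have hgoal : (G₀ : ℝ) * (((∑ w ∈ I, 8 * nn w / 2 ^ m : ℕ) : ℝ) + (early + late) +
      2 * (e₁ * ((X : ℝ) + (early + late)) + e₂ * late)) < N₀ := by
    refine lt_of_le_of_lt ?_ h
    apply mul_le_mul_of_nonneg_left _ (Nat.cast_nonneg _)
    obtain ⟨Y, hY⟩ : ∃ Y : ℝ, Y = 3 ^ d * (2 * d) * W / b := ⟨_, rfl⟩
    obtain ⟨Z, hZ⟩ : ∃ Z : ℝ, Z = W / τ + 3 ^ d * (2 * d) * W / b / ξ := ⟨_, rfl⟩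
    rw [← hY] at hXr
    rw [← hZ] at hlr
    rw [← hY]
    have hZ' : (W : ℝ) / τ + Y / ξ = Z := by rw [hZ, hY]
    rw [hZ']
    have h6 : (early : ℝ) + late ≤ e₁ * ((3 ^ d + X) + late) := by
      calc (early : ℝ) + late ≤ 1 * ((3 ^ d + X) + late) := by linarith
        _ ≤ _ := by
            apply mul_le_mul_of_nonneg_right her1
            have : (0 : ℝ) ≤ early := Nat.cast_nonneg _
            linarith
    have h7 : (e₁ : ℝ) * ((X : ℝ) + (early + late)) ≤ e₁ * (X + ((3 ^ d + X) + late)) := by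
      apply mul_le_mul_of_nonneg_left _ (by linarith)
      linarith
    have h8 : (e₁ : ℝ) * X ≤ e₁ * Y := mul_le_mul_of_nonneg_left hXr (by linarith)
    have h9 : (e₁ : ℝ) * late ≤ e₁ * Z := mul_le_mul_of_nonneg_left hlr (by linarith)
    have h10 : (e₂ : ℝ) * late ≤ e₂ * Z := mul_le_mul_of_nonneg_left hlr (Nat.cast_nonneg _)
    have h11 : 0 ≤ (e₁ : ℝ) * X := by positivity
    nlinarith
  exact_mod_cast hgoal

variable {d : ℕ} {Γ : Type} {n c N : ℕ}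

open Classical in
/-- The counting theorem. -/
theorem apsp_few [Fintype Γ] {l φ κ m : ℕ} (K : ℕ → Fin (2 ^ l) → Finset (Fin (2 ^ l)))
    (hK1 : ∀ s i, (K s i).card ≤ 2 ^ s)
    (hK : ∀ s, ∀ I : Finset (Fin (2 ^ l)), 64 * (I.card * 2 ^ s) ≤ 2 ^ l →
      I.card * 2 ^ s ≤ 2 ^ φ * (I.biUnion (K s)).card)
    (hl : 6 ≤ l) (hm : m + 13 + κ + 2 * φ = 2 * l) (hc : c + φ + 4 = m) (hκ : 2 ≤ κ)
    (hcM : 8 * ((c + 1) * 2 ^ c) ≤ 2 ^ m) {e : Vx c (2 ^ l) → Fin N}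
    (hinj : Function.Injective e)
    (P : Machine d (Fin N × Fin N) (Fin N × Fin N) ℕ∞ Γ) {T W b τ ξ e₁ e₂ : ℕ}
    (hb : 0 < b) (hτ : 0 < τ) (hξ : 0 < ξ) (hT : 1 ≤ T) (hΓ : 1 ≤ Fintype.card Γ)
    (ha : 8 * (τ + b ^ d) + 2 ≤ 2 ^ (m + κ - 1)) (he₁ : 1 ≤ e₁)
    (hk : e₁ * (ξ + (b + 2) ^ d + 1) + e₂ ≤ 2 ^ (κ - 2))
    (hnum : NumW d b τ ξ W (tha ((l + 1) * 2 ^ (3 * φ + 18)) m e₁ e₂) (2 ^ (2 * l - 1)))
    (hκ2 : Fintype.card Γ ^ ((b + 2) ^ d) ≤ 2 ^ e₂)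
    (hbig : bigX d b τ T (Fintype.card Γ) 0 ≤ 2 ^ e₁) :
    2 * Nat.card {x : Jx c (2 ^ l) → Fin (2 ^ m) //
      P.Computes (graph K e x) (dists (graph K e x)) T W} ≤
      Nat.card (Jx c (2 ^ l) → Fin (2 ^ m)) := by
  obtain ⟨Gd, hGd⟩ : ∃ Gd : (Jx c (2 ^ l) → Fin (2 ^ m)) → Prop, ∀ y, Gd y ↔
    2 * (univ.filter (fun p : Fin (2 ^ l) × Fin (2 ^ l) => Conn K y p.1 p.2)).card ≤
      (2 ^ l) ^ 2 := ⟨_, fun _ => Iff.rfl⟩
  obtain ⟨Wo, hWo⟩ : ∃ Wo, Wo = Fintype.card (Jx c (2 ^ l) → Fin (2 ^ m)) := ⟨_, rfl⟩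
  obtain ⟨Kb, hKb⟩ : ∃ Kb : ℕ → Bool → ℕ, ∀ x c, Kb x c = Wo / 2 ^ (kk e₁ e₂ x c) :=
    ⟨_, fun _ _ => rfl⟩
  have h2l : (2 ^ l) ^ 2 = 2 * 2 ^ (2 * l - 1) := by
    rw [← pow_mul, ← pow_succ']
    congr 1
    omega
  have h1 := union_windows (M := P) (X := graph (M := 2 ^ m) K e) (f := dists (N := N))
    (Cnt := CntD K e) (Gd := Gd) (T := T) hb hτ hξ hnum
    (by
      intro y hy
      have h2 : (univ.filter (fun p : Fin (2 ^ l) × Fin (2 ^ l) => ¬ Conn K y p.1 p.2)).card ≤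
          (univ.filter (fun o => CntD K e y o)).card := by
        apply card_le_card_of_injOn (fun p => (e (.src p.1), e (.snk p.2)))
        · intro p hp
          simp only [coe_filter, mem_univ, true_and, Set.mem_setOf_eq] at hp ⊢
          exact ⟨p.1, p.2, rfl, hp⟩
        · rintro ⟨i, j⟩ - ⟨i', j'⟩ - h
          simp only [Prod.mk.injEq] at h
          have h8 : i = i' := by have := hinj h.1; injection this
          have h9 : j = j' := by have := hinj h.2; injection this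
          rw [h8, h9]
      have h3 := Finset.card_filter_add_card_filter_not
        (s := (univ : Finset (Fin (2 ^ l) × Fin (2 ^ l)))) (fun p => Conn K y p.1 p.2)
      rw [card_univ, Fintype.card_prod, Fintype.card_fin] at h3
      have h4 : 2 ^ l * 2 ^ l = (2 ^ l) ^ 2 := by ring
      have h5 := (hGd y).1 hy
      omega) Kb
    (fun a haa x hx cc Rel hRel => by
      have hkx : kk e₁ e₂ x cc ≤ 2 ^ (κ - 2) := by
        refine le_trans ?_ hk
        unfold kk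
        apply Nat.add_le_add
        · exact Nat.mul_le_mul_left _ (by omega)
        · split_ifs <;> omega
      have hk1 : 1 ≤ kk e₁ e₂ x cc := by
        unfold kk
        have : 1 * 1 ≤ e₁ * (x + 1) := Nat.mul_le_mul he₁ (by omega)
        omega
      obtain ⟨β, hβ, hleaf⟩ := leafW K hK hl hm hc hκ hk1 hkx (a := a) (by omega)
      have h2 := apsp_proc K hinj hβ (a := a)
        (N₁ := tha ((l + 1) * 2 ^ (3 * φ + 18)) m e₁ e₂ a x cc) (by
          intro Q ρ R hQ hR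
          refine hleaf Q ρ R hQ (le_trans ?_ hR)
          unfold tha
          omega) hRel Gd
      rw [hKb, hWo]
      refine le_trans (le_of_eq ?_) h2
      congr!)
  have hsum := sum_bound (Ω := Wo) (B := b * (2 * T + 1) ^ d * (T + 1) ^ 2 * (τ + b ^ d + 1))
    (V := T * ((2 * T + 1) ^ d * Fintype.card Γ)) (Q := 2 ^ e₁)
    (κ' := Fintype.card Γ ^ ((b + 2) ^ d)) (m := ξ + (b + 2) ^ d + 1) (π := 0) (e₁ := e₁)
    (e₂ := e₂) (q := 2) Kb (by norm_num)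
    (by
      intro x
      rw [hKb]
      unfold kk
      simp only [Bool.false_eq_true, if_false, add_zero]
      exact (Nat.div_mul_le_self _ _).trans (by omega))
    (by
      intro x
      rw [hKb]
      unfold kk
      simp only [if_true]
      exact (Nat.div_mul_le_self _ _).trans (by omega))
    rfl hκ2 (Nat.one_le_iff_ne_zero.2 (by positivity)) (Nat.one_le_iff_ne_zero.2 (by positivity))
    hbig
  obtain ⟨G, hG⟩ : ∃ G, G = (univ.filter (fun y => Gd y ∧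
      P.Computes (graph K e y) (dists (graph K e y)) T W)).card := ⟨_, rfl⟩
  have h2 : 4 * G ≤ Wo := by
    refine le_trans (Nat.mul_le_mul_left _ ?_) hsum
    rw [hG]
    exact h1
  have h3 : 4 * (univ.filter (fun y => ¬ Gd y)).card ≤ Wo := by
    have h4 := cnt_many (c := c) (n := 2 ^ l) (by positivity) (M := 2 ^ m) (by positivity) K hK1
      hcM
    have h5 : cnt (fun _ : Jx c (2 ^ l) → Fin (2 ^ m) => True) = Wo := by
      rw [cnt_eq, hWo]
      norm_cast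
      rw [filter_true, card_univ]
    rw [h5, cnt_eq] at h4
    have h6 : 4 * (univ.filter (fun x : Jx c (2 ^ l) → Fin (2 ^ m) =>
      (2 ^ l) ^ 2 < 2 * (univ.filter (fun p : Fin (2 ^ l) × Fin (2 ^ l) =>
        Conn K x p.1 p.2)).card)).card ≤ Wo := by
      exact_mod_cast h4
    refine le_trans (Nat.mul_le_mul_left _ (card_le_card ?_)) h6
    intro y hy
    simp only [mem_filter, mem_univ, true_and] at hy ⊢
    rw [hGd] at hy
    omega
  have h4 : Nat.card {x : Jx c (2 ^ l) → Fin (2 ^ m) //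
      P.Computes (graph K e x) (dists (graph K e x)) T W} ≤
      G + (univ.filter (fun y => ¬ Gd y)).card := by
    rw [Nat.card_eq_fintype_card, Fintype.card_subtype, hG]
    refine le_trans (card_le_card ?_) (card_union_le _ _)
    intro y hy
    simp only [mem_filter, mem_univ, true_and, mem_union] at hy ⊢
    by_cases h : Gd y
    · exact Or.inl ⟨h, hy⟩
    · exact Or.inr h
  rw [Nat.card_eq_fintype_card (α := Jx c (2 ^ l) → Fin (2 ^ m)), ← hWo]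
  omega

end Pool.Agent.H363DA
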