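import Pool.Agent.H363D.ApspD

/-!
# All-pairs shortest paths, on a machine with a memory in space: the final form
-/

set_option autoImplicit false

open Finset

namespace Pool.Agent.H363DA

open Pool.Agent.H363D hiding cnt NumW union_windows
open Pool.Agent.H363D.Xi
open Pool.Agent.W896.MO
open Pool.Agent.H537R2.Apsp (Graph walkWeight dist)
open Pool.Agent.H537R2.Apsq (cnt cnt_mono cnt_nonneg cnt_eq Cons exists_family)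
open Pool.Agent.H537R2.Apsr

theorem log_small {L : ℕ} (hL : 64 ≤ L) : Nat.log 2 L + 10 ≤ L := by
  have h4 : L < 2 ^ (L - 9) := by
    have h5 : ∀ j, 64 + j < 2 ^ (55 + j) := by
      intro j
      induction j with
      | zero => norm_num
      | succ j ih =>
        rw [show 55 + (j + 1) = (55 + j) + 1 by ring, pow_succ]
        omega
    obtain ⟨j, hj⟩ := Nat.exists_eq_add_of_le hL
    rw [hj, show 64 + j - 9 = 55 + j by omega]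
    exact h5 j
  have h5 := Nat.log_lt_of_lt_pow (by omega) h4
  omega

/-- The main inequality. -/
theorem final_ineq {d : ℕ} {G P A E E₂ E₃ D K₁ C₂ Z W V b B e₁ e₂ Lam M κ τ : ℝ}
    (hG0 : 0 ≤ G) (hG₀ : G ≤ 2 ^ 18 * P ^ 4) (hP1 : 1 ≤ P) (hA0 : 0 < A) (hE0 : 0 ≤ E)
    (hE₂0 : 0 ≤ E₂) (hE₃0 : 0 ≤ E₃) (hD0 : 0 ≤ D) (hK₁1 : 1 ≤ K₁)
    (hK₁ : K₁ = 2 ^ 21 * D * (9 * E + 2 * E₂) + 1)
    (hC₂ : C₂ = 8 * (2 ^ 37 * E₃ + 2 ^ 18 * 3 * E * 3 ^ d + 2 ^ 37 * (3 * E + 2 * E₂)))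
    (hZ : Z = P ^ 6 * V * B / A) (hV : V = W * Lam) (hW0 : 0 < W) (hLam0 : 0 ≤ Lam)
    (hZ1 : P ^ 6 * Lam * B ≤ Z) (hZA : C₂ * Z ≤ A) (hB : 1 ≤ B) (hb : 1 ≤ b)
    (he₁0 : 0 ≤ e₁) (he₂0 : 0 ≤ e₂) (he₁ : e₁ ≤ E * Lam) (he₂ : e₂ ≤ E₂ * B * Lam)
    (h2m : M * (2 ^ 13 * κ * P ^ 2) = A) (hM : 0 < M) (hκ0 : 0 < κ) (hκr : κ ≤ 8 * E₃ * B * Lam)
    (hτ0 : 0 < τ) (hτA : τ * (2 ^ 19 * P ^ 2) = A) (hVb : V * P ^ 4 / b ≤ A / K₁) :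
    G * (8 * W / M + 3 * e₁ * (2 * (D * W / b) + 3 ^ d) +
        (3 * e₁ + 2 * e₂) * (W / τ + D * W / b / B)) < A / 2 := by
  have hP0 : 0 < P := by linarith
  have hB0 : 0 < B := by linarith
  have hb0 : 0 < b := by linarith
  have hK₁0 : 0 < K₁ := by linarith
  have hZ0 : 0 ≤ Z := le_trans (by positivity) hZ1
  have h12 : (3 * e₁ + 2 * e₂) ≤ (3 * E + 2 * E₂) * (B * Lam) := by
    have h1 : E * Lam * 1 ≤ E * Lam * B := mul_le_mul_of_nonneg_left hB (by positivity)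
    calc (3 * e₁ + 2 * e₂) ≤ 3 * (E * Lam * B) + 2 * (E₂ * B * Lam) := by linarith
      _ = _ := by ring
  obtain ⟨R₁, hR₁⟩ : ∃ R₁ : ℝ, R₁ = 2 ^ 18 := ⟨_, rfl⟩
  obtain ⟨R₂, hR₂⟩ : ∃ R₂ : ℝ, R₂ = 2 ^ 13 := ⟨_, rfl⟩
  obtain ⟨R₃, hR₃⟩ : ∃ R₃ : ℝ, R₃ = 2 ^ 19 := ⟨_, rfl⟩
  have hR1 : 0 < R₁ := by rw [hR₁]; norm_num
  have hR2 : 0 < R₂ := by rw [hR₂]; norm_num
  have hR3 : 0 < R₃ := by rw [hR₃]; norm_num
  have hr1 : (2 : ℝ) ^ 37 = R₁ * R₂ * 64 := by rw [hR₁, hR₂]; norm_num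
  have hr2 : (2 : ℝ) ^ 37 = R₁ * R₃ := by rw [hR₁, hR₃]; norm_num
  rw [← hR₁] at hG₀
  rw [← hR₂] at h2m
  rw [← hR₃] at hτA
  have p1 : G * (8 * W / M) ≤ 2 ^ 37 * E₃ * Z := by
    have h1 : W / M = W * (R₂ * κ * P ^ 2) / A := by
      rw [← h2m]
      field_simp
    rw [hr1]
    calc G * (8 * W / M) = 8 * G * (W / M) := by ring
      _ = 8 * G * (W * (R₂ * κ * P ^ 2) / A) := by rw [h1]
      _ ≤ 8 * (R₁ * P ^ 4) * (W * (R₂ * (8 * E₃ * B * Lam) * P ^ 2) / A) := by gcongr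
      _ = R₁ * R₂ * 64 * E₃ * Z := by rw [hZ, hV]; ring
  have p2 : G * (3 * e₁ * (2 * (D * W / b))) ≤ R₁ * 6 * E * D * (A / K₁) := by
    calc G * (3 * e₁ * (2 * (D * W / b))) = 6 * G * e₁ * D * (W / b) := by ring
      _ ≤ 6 * (R₁ * P ^ 4) * (E * Lam) * D * (W / b) := by gcongr
      _ = R₁ * 6 * E * D * (V * P ^ 4 / b) := by rw [hV]; ring
      _ ≤ _ := by gcongr
  have p3 : G * (3 * e₁ * 3 ^ d) ≤ R₁ * 3 * E * 3 ^ d * Z := by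
    have h1 : P ^ 4 * Lam ≤ Z := by
      refine le_trans ?_ hZ1
      have h2 : P ^ 4 ≤ P ^ 6 := pow_le_pow_right₀ hP1 (by norm_num)
      calc P ^ 4 * Lam = P ^ 4 * Lam * 1 := by ring
        _ ≤ P ^ 6 * Lam * B := by gcongr
    calc G * (3 * e₁ * 3 ^ d) ≤ (R₁ * P ^ 4) * (3 * (E * Lam) * 3 ^ d) := by gcongr
      _ = R₁ * 3 * E * 3 ^ d * (P ^ 4 * Lam) := by ring
      _ ≤ _ := by gcongr
  have p4 : G * ((3 * e₁ + 2 * e₂) * (W / τ)) ≤ 2 ^ 37 * (3 * E + 2 * E₂) * Z := by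
    have h1 : W / τ = W * (R₃ * P ^ 2) / A := by
      rw [← hτA]
      field_simp
    rw [h1, hr2]
    calc G * ((3 * e₁ + 2 * e₂) * (W * (R₃ * P ^ 2) / A)) ≤
          (R₁ * P ^ 4) * (((3 * E + 2 * E₂) * (B * Lam)) * (W * (R₃ * P ^ 2) / A)) := by gcongr
      _ = _ := by rw [hZ, hV]; ring
  have p5 : G * ((3 * e₁ + 2 * e₂) * (D * W / b / B)) ≤
      R₁ * (3 * E + 2 * E₂) * D * (A / K₁) := by
    calc G * ((3 * e₁ + 2 * e₂) * (D * W / b / B)) ≤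
          (R₁ * P ^ 4) * (((3 * E + 2 * E₂) * (B * Lam)) * (D * W / b / B)) := by gcongr
      _ = R₁ * (3 * E + 2 * E₂) * D * (V * P ^ 4 / b) := by
          rw [hV]
          field_simp
      _ ≤ _ := by gcongr
  have hK₁A : R₁ * 6 * E * D * (A / K₁) + R₁ * (3 * E + 2 * E₂) * D * (A / K₁) ≤ A / 8 := by
    have h21 : (2 : ℝ) ^ 21 = 8 * R₁ := by rw [hR₁]; norm_num
    rw [h21] at hK₁
    calc R₁ * 6 * E * D * (A / K₁) + R₁ * (3 * E + 2 * E₂) * D * (A / K₁) =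
          (8 * R₁ * D * (9 * E + 2 * E₂)) * (A / (8 * K₁)) := by field_simp; ring
      _ ≤ K₁ * (A / (8 * K₁)) := by
          gcongr
          rw [hK₁]
          linarith
      _ = A / 8 := by field_simp
  have hC₂Z : 2 ^ 37 * E₃ * Z + R₁ * 3 * E * 3 ^ d * Z + 2 ^ 37 * (3 * E + 2 * E₂) * Z ≤
      A / 8 := by
    have h1 : 8 * (2 ^ 37 * E₃ * Z + R₁ * 3 * E * 3 ^ d * Z +
        2 ^ 37 * (3 * E + 2 * E₂) * Z) = C₂ * Z := by rw [hC₂, hR₁]; ring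
    linarith
  calc G * (8 * W / M + 3 * e₁ * (2 * (D * W / b) + 3 ^ d) +
        (3 * e₁ + 2 * e₂) * (W / τ + D * W / b / B)) =
        G * (8 * W / M) + G * (3 * e₁ * (2 * (D * W / b))) +
          G * (3 * e₁ * 3 ^ d) + G * ((3 * e₁ + 2 * e₂) * (W / τ)) +
          G * ((3 * e₁ + 2 * e₂) * (D * W / b / B)) := by ring
    _ ≤ 2 ^ 37 * E₃ * Z + R₁ * 6 * E * D * (A / K₁) + R₁ * 3 * E * 3 ^ d * Z +
          2 ^ 37 * (3 * E + 2 * E₂) * Z + R₁ * (3 * E + 2 * E₂) * D * (A / K₁) := by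
        linarith
    _ ≤ A / 8 + A / 8 := by linarith
    _ < A / 2 := by linarith

/-- The lower bound for one machine, on average over the graphs. -/
theorem apsp_avg (d : ℕ) : ∃ C : ℝ, 0 < C ∧ ∀ (N : ℕ), 64 ≤ Nat.log 2 N →
    ∀ (Γ : Type) [Fintype Γ] (T W : ℕ), 1 ≤ T → 1 ≤ Fintype.card Γ → N ^ 2 ≤ W →
    N ^ 2 ≤ T * (2 * T + 1) ^ d →
    C * ((W : ℝ) * (Real.logb 2 (Fintype.card Γ) + Real.logb 2 T + 1)) ^ (d + 1) *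
      (Nat.log 2 N : ℝ) ^ (6 * d + 10) ≤ (N : ℝ) ^ (2 * d + 4) →
    ∃ (c m l : ℕ) (K : ℕ → Fin (2 ^ l) → Finset (Fin (2 ^ l))) (e : Vx c (2 ^ l) → Fin N),
      Function.Injective e ∧
      ∀ P : Machine d (Fin N × Fin N) (Fin N × Fin N) ℕ∞ Γ,
      2 * Nat.card {x : Jx c (2 ^ l) → Fin (2 ^ m) //
        P.Computes (graph K e x) (dists (graph K e x)) T W} ≤
        Nat.card (Jx c (2 ^ l) → Fin (2 ^ m)) := by
  obtain ⟨E, hE⟩ : ∃ E : ℝ, E = 18 + 12 * d := ⟨_, rfl⟩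
  obtain ⟨E₂, hE₂⟩ : ∃ E₂ : ℝ, E₂ = 3 ^ d + 1 := ⟨_, rfl⟩
  obtain ⟨E₃, hE₃⟩ : ∃ E₃ : ℝ, E₃ = E * (2 + 3 ^ d) + E₂ := ⟨_, rfl⟩
  obtain ⟨D, hD⟩ : ∃ D : ℝ, D = 3 ^ d * (2 * d) := ⟨_, rfl⟩
  obtain ⟨K₁, hK₁⟩ : ∃ K₁ : ℝ, K₁ = 2 ^ 21 * D * (9 * E + 2 * E₂) + 1 := ⟨_, rfl⟩
  obtain ⟨C₂, hC₂⟩ : ∃ C₂ : ℝ, C₂ = 8 * (2 ^ 37 * E₃ + 2 ^ 18 * 3 * E * 3 ^ d +
    2 ^ 37 * (3 * E + 2 * E₂)) := ⟨_, rfl⟩
  have hE0 : 18 ≤ E := by
    rw [hE]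
    have : (0 : ℝ) ≤ d := Nat.cast_nonneg d
    linarith
  have h3d : (1 : ℝ) ≤ 3 ^ d := one_le_pow₀ (by norm_num)
  have hE₂0 : 2 ≤ E₂ := by rw [hE₂]; linarith
  have hE₃0 : 1 ≤ E₃ := by
    rw [hE₃]
    have : 0 ≤ E * (2 + 3 ^ d) := by positivity
    linarith
  have hD0 : 0 ≤ D := by rw [hD]; positivity
  have hK₁1 : 1 ≤ K₁ := by
    rw [hK₁]
    have : 0 ≤ 2 ^ 21 * D * (9 * E + 2 * E₂) := by positivity
    linarith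
  have hC₂0 : 2 ^ 40 * E₃ ≤ C₂ := by
    rw [hC₂]
    have : 0 ≤ 2 ^ 18 * 3 * E * 3 ^ d := by positivity
    have : 0 ≤ 2 ^ 37 * (3 * E + 2 * E₂) := by positivity
    linarith
  have hC₂1 : 2 ^ 40 ≤ C₂ := by linarith
  refine ⟨C₂ * (2 * K₁) ^ d * 2 ^ (8 * (d + 2)) * 2 ^ (6 * d + 10) + 2 ^ 15 * K₁, by positivity, ?_⟩
  intro N hN Γ _ T W hT hΓ hW hout hsmall
  set L := Nat.log 2 N with hL
  have hN0 : N ≠ 0 := by
    rintro rfl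
    simp at hL
    omega
  have hNL : 2 ^ L ≤ N := Nat.pow_log_le_self 2 hN0
  have hNL' : N < 2 ^ (L + 1) := Nat.lt_pow_succ_log_self (by norm_num) _
  obtain ⟨φ, hφ⟩ : ∃ φ, φ = Nat.log 2 L + 1 := ⟨_, rfl⟩
  have hφ1 : L < 2 ^ φ := by rw [hφ]; exact Nat.lt_pow_succ_log_self (by norm_num) _
  have hφ2 : 2 ^ φ ≤ 2 * L := by
    rw [hφ, pow_succ, mul_comm]
    exact Nat.mul_le_mul_left _ (Nat.pow_log_le_self 2 (by omega))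
  have hφL : φ + 9 ≤ L := by
    have := log_small hN
    omega
  obtain ⟨l, hl⟩ : ∃ l, L = l + φ + 3 := ⟨L - φ - 3, by omega⟩
  -- real quantities
  obtain ⟨P, hP⟩ : ∃ P : ℝ, P = 2 ^ φ := ⟨_, rfl⟩
  obtain ⟨A, hA⟩ : ∃ A : ℝ, A = 2 ^ (2 * l) := ⟨_, rfl⟩
  have hP1 : 1 ≤ P := by rw [hP]; exact one_le_pow₀ (by norm_num)
  have hA1 : 1 ≤ A := by rw [hA]; exact one_le_pow₀ (by norm_num)
  have hP0 : 0 < P := by linarith
  have hA0 : 0 < A := by linarith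
  have hPL : P ≤ 2 * L := by rw [hP]; exact_mod_cast hφ2
  have hLr : (64 : ℝ) ≤ L := by exact_mod_cast hN
  have hNA : A ≤ (N : ℝ) ^ 2 := by
    have h1 : 2 ^ (2 * l) ≤ N ^ 2 := by
      calc 2 ^ (2 * l) ≤ 2 ^ (2 * L) := Nat.pow_le_pow_right (by norm_num) (by omega)
        _ = (2 ^ L) ^ 2 := by rw [← pow_mul, mul_comm]
        _ ≤ N ^ 2 := Nat.pow_le_pow_left hNL 2
    rw [hA]
    exact_mod_cast h1
  have hNA' : (N : ℝ) ^ 2 ≤ 2 ^ 8 * P ^ 2 * A := by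
    have h1 : N ^ 2 ≤ 2 ^ 8 * (2 ^ φ) ^ 2 * 2 ^ (2 * l) := by
      calc N ^ 2 ≤ (2 ^ (L + 1)) ^ 2 := Nat.pow_le_pow_left hNL'.le 2
        _ = 2 ^ 8 * (2 ^ φ) ^ 2 * 2 ^ (2 * l) := by
            rw [← pow_mul, ← pow_mul, ← pow_add, ← pow_add, hl]
            congr 1
            ring
    rw [hP, hA]
    exact_mod_cast h1
  obtain ⟨Lam, hLam⟩ : ∃ Lam, Lam = Real.logb 2 (Fintype.card Γ) + Real.logb 2 T + 1 := ⟨_, rfl⟩
  have hκ0 : 0 ≤ Real.logb 2 (Fintype.card Γ : ℝ) :=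
    Real.logb_nonneg (by norm_num) (by exact_mod_cast hΓ)
  have hT0 : 0 ≤ Real.logb 2 (T : ℝ) := Real.logb_nonneg (by norm_num) (by exact_mod_cast hT)
  rw [← hLam] at hsmall
  have hLam1 : 1 ≤ Lam := by rw [hLam]; linarith
  have hLam0 : 0 < Lam := by linarith
  have hWN : (N : ℝ) ^ 2 ≤ W := by exact_mod_cast hW
  have hWA : A ≤ W := hNA.trans hWN
  have hW0 : (0 : ℝ) < W := by linarith
  obtain ⟨V, hV⟩ : ∃ V : ℝ, V = W * Lam := ⟨_, rfl⟩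
  rw [← hV] at hsmall
  have hVW : (W : ℝ) ≤ V := by rw [hV]; exact le_mul_of_one_le_right hW0.le hLam1
  have hV0 : 0 < V := by linarith
  have hNr : (1 : ℝ) ≤ N := by exact_mod_cast Nat.one_le_iff_ne_zero.2 hN0
  have hLpow : (L : ℝ) ^ (6 * d + 10) = (L : ℝ) ^ (6 * d) * (L : ℝ) ^ 10 := pow_add _ _ _
  -- the two consequences of the hypothesis
  have hmain1 : C₂ * ((2 * K₁) ^ d * P ^ (6 + 4 * d) * V ^ (d + 1)) ≤ A ^ (d + 2) := by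
    have h1 : (C₂ * (2 * K₁) ^ d * 2 ^ (8 * (d + 2)) * 2 ^ (6 * d + 10)) * V ^ (d + 1) *
        (L : ℝ) ^ (6 * d + 10) ≤ (N : ℝ) ^ (2 * d + 4) := by
      refine le_trans ?_ hsmall
      have : 0 ≤ 2 ^ 15 * K₁ := by positivity
      gcongr
      linarith
    have h2 : P ^ (6 * d + 10) ≤ 2 ^ (6 * d + 10) * (L : ℝ) ^ (6 * d + 10) := by
      rw [← mul_pow]
      exact pow_le_pow_left₀ hP0.le hPL _
    have h3 : (N : ℝ) ^ (2 * d + 4) ≤ 2 ^ (8 * (d + 2)) * P ^ (2 * d + 4) * A ^ (d + 2) := by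
      calc (N : ℝ) ^ (2 * d + 4) = ((N : ℝ) ^ 2) ^ (d + 2) := by rw [← pow_mul]; congr 1
        _ ≤ (2 ^ 8 * P ^ 2 * A) ^ (d + 2) := pow_le_pow_left₀ (by positivity) hNA' _
        _ = _ := by
            rw [mul_pow, mul_pow, ← pow_mul, ← pow_mul]
            congr 2
    have h4 : (2 ^ (8 * (d + 2)) * P ^ (2 * d + 4)) *
        (C₂ * ((2 * K₁) ^ d * P ^ (6 + 4 * d) * V ^ (d + 1))) ≤
        (2 ^ (8 * (d + 2)) * P ^ (2 * d + 4)) * A ^ (d + 2) := by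
      calc _ = (C₂ * (2 * K₁) ^ d * 2 ^ (8 * (d + 2))) * V ^ (d + 1) *
            (P ^ (2 * d + 4) * P ^ (6 + 4 * d)) := by ring
        _ = (C₂ * (2 * K₁) ^ d * 2 ^ (8 * (d + 2))) * V ^ (d + 1) * P ^ (6 * d + 10) := by
            rw [← pow_add]
            congr 2
            ring
        _ ≤ (C₂ * (2 * K₁) ^ d * 2 ^ (8 * (d + 2))) * V ^ (d + 1) *
            (2 ^ (6 * d + 10) * (L : ℝ) ^ (6 * d + 10)) := by gcongr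
        _ = (C₂ * (2 * K₁) ^ d * 2 ^ (8 * (d + 2)) * 2 ^ (6 * d + 10)) * V ^ (d + 1) *
            (L : ℝ) ^ (6 * d + 10) := by ring
        _ ≤ (N : ℝ) ^ (2 * d + 4) := h1
        _ ≤ _ := h3
    exact le_of_mul_le_mul_left h4 (by positivity)
  have hmain2 : 2 * K₁ * V * P ^ 4 ≤ (N : ℝ) ^ 2 * A := by
    have h1 : (2 ^ 15 * K₁) * V ^ (d + 1) * (L : ℝ) ^ (6 * d + 10) ≤ (N : ℝ) ^ (2 * d + 4) := by
      refine le_trans ?_ hsmall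
      have : 0 ≤ C₂ * (2 * K₁) ^ d * 2 ^ (8 * (d + 2)) * 2 ^ (6 * d + 10) := by positivity
      gcongr
      linarith
    have h2 : (N : ℝ) ^ (2 * d) * ((2 ^ 15 * K₁) * V * (L : ℝ) ^ 10) ≤
        (N : ℝ) ^ (2 * d) * (N : ℝ) ^ 4 := by
      calc (N : ℝ) ^ (2 * d) * ((2 ^ 15 * K₁) * V * (L : ℝ) ^ 10) =
            ((N : ℝ) ^ 2) ^ d * ((2 ^ 15 * K₁) * V * (1 * (L : ℝ) ^ 10)) := by
            rw [pow_mul]; ring
        _ ≤ V ^ d * ((2 ^ 15 * K₁) * V * ((L : ℝ) ^ (6 * d) * (L : ℝ) ^ 10)) := by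
            have h3 : (N : ℝ) ^ 2 ≤ V := hWN.trans hVW
            have h4 : (1 : ℝ) ≤ (L : ℝ) ^ (6 * d) := one_le_pow₀ (by linarith)
            gcongr
        _ = (2 ^ 15 * K₁) * V ^ (d + 1) * (L : ℝ) ^ (6 * d + 10) := by rw [hLpow]; ring
        _ ≤ (N : ℝ) ^ (2 * d + 4) := h1
        _ = _ := pow_add _ _ _
    have h3 := le_of_mul_le_mul_left h2 (by positivity)
    have h5 : P ^ 6 ≤ 2 ^ 6 * (L : ℝ) ^ 10 := by
      calc P ^ 6 ≤ (2 * L) ^ 6 := pow_le_pow_left₀ hP0.le hPL _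
        _ = 2 ^ 6 * (L : ℝ) ^ 6 := by rw [mul_pow]
        _ ≤ 2 ^ 6 * (L : ℝ) ^ 10 := by
            gcongr
            · linarith
            · norm_num
    have h6 : (2 ^ 8 * P ^ 2) * (2 * K₁ * V * P ^ 4) ≤ (2 ^ 8 * P ^ 2) * ((N : ℝ) ^ 2 * A) := by
      calc (2 ^ 8 * P ^ 2) * (2 * K₁ * V * P ^ 4) = 2 ^ 9 * K₁ * V * P ^ 6 := by ring
        _ ≤ 2 ^ 9 * K₁ * V * (2 ^ 6 * (L : ℝ) ^ 10) := by gcongr
        _ = (2 ^ 15 * K₁) * V * (L : ℝ) ^ 10 := by ring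
        _ ≤ (N : ℝ) ^ 4 := h3
        _ = (N : ℝ) ^ 2 * (N : ℝ) ^ 2 := by ring
        _ ≤ (N : ℝ) ^ 2 * (2 ^ 8 * P ^ 2 * A) := by gcongr
        _ = _ := by ring
    exact le_of_mul_le_mul_left h6 (by positivity)
  -- the side of the cubes
  obtain ⟨ρ, hρ⟩ : ∃ ρ : ℝ, ρ = K₁ * V * P ^ 4 / A := ⟨_, rfl⟩
  have hρ1 : 1 ≤ ρ := by
    rw [hρ, le_div_iff₀ hA0, one_mul]
    calc A ≤ V := hWA.trans hVW
      _ = 1 * V * 1 := by ring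
      _ ≤ K₁ * V * P ^ 4 := by
          have : 1 ≤ P ^ 4 := one_le_pow₀ hP1
          gcongr
  obtain ⟨b, hb⟩ : ∃ b : ℕ, b = ⌈ρ⌉₊ := ⟨_, rfl⟩
  have hb1 : ρ ≤ b := by rw [hb]; exact Nat.le_ceil _
  have hb2 : (b : ℝ) ≤ 2 * ρ := by
    have := Nat.ceil_lt_add_one (R := ℝ) (a := ρ) (by linarith)
    rw [← hb] at this
    linarith
  have hb0 : 0 < b := by
    have : (0 : ℝ) < b := by linarith
    exact_mod_cast this
  have hbr : (1 : ℝ) ≤ b := by exact_mod_cast hb0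
  have hbd : (1 : ℝ) ≤ (b : ℝ) ^ d := one_le_pow₀ hbr
  obtain ⟨Z, hZ⟩ : ∃ Z : ℝ, Z = P ^ 6 * V * (b : ℝ) ^ d / A := ⟨_, rfl⟩
  have hZA : C₂ * Z ≤ A := by
    have h1 : (b : ℝ) ^ d ≤ (2 * K₁) ^ d * V ^ d * P ^ (4 * d) / A ^ d := by
      calc (b : ℝ) ^ d ≤ (2 * ρ) ^ d := pow_le_pow_left₀ (by positivity) hb2 d
        _ = (2 * K₁) ^ d * V ^ d * P ^ (4 * d) / A ^ d := by
            rw [hρ, pow_mul, show 2 * (K₁ * V * P ^ 4 / A) = (2 * K₁) * V * P ^ 4 / A by ring,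
              div_pow, mul_pow, mul_pow]
    have h2 : Z ≤ (2 * K₁) ^ d * P ^ (6 + 4 * d) * V ^ (d + 1) / A ^ (d + 1) := by
      calc Z ≤ P ^ 6 * V * ((2 * K₁) ^ d * V ^ d * P ^ (4 * d) / A ^ d) / A := by
            rw [hZ]; gcongr
        _ = _ := by
            rw [pow_add, pow_succ V, pow_succ A]
            field_simp
    calc C₂ * Z ≤ C₂ * ((2 * K₁) ^ d * P ^ (6 + 4 * d) * V ^ (d + 1) / A ^ (d + 1)) := by gcongr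
      _ = (C₂ * ((2 * K₁) ^ d * P ^ (6 + 4 * d) * V ^ (d + 1))) / A ^ (d + 1) := by ring
      _ ≤ A ^ (d + 2) / A ^ (d + 1) := by gcongr
      _ = A := by rw [pow_succ]; field_simp
  have hZ1 : P ^ 6 * Lam * (b : ℝ) ^ d ≤ Z := by
    rw [hZ, le_div_iff₀ hA0, hV]
    calc P ^ 6 * Lam * (b : ℝ) ^ d * A ≤ P ^ 6 * Lam * (b : ℝ) ^ d * W := by gcongr
      _ = _ := by ring
  have hP6 : 1 ≤ P ^ 6 := one_le_pow₀ hP1
  -- the exponents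
  have hbN : (b : ℝ) ≤ (N : ℝ) ^ 2 := by
    refine hb2.trans ?_
    rw [hρ, show 2 * (K₁ * V * P ^ 4 / A) = (2 * K₁ * V * P ^ 4) / A by ring, div_le_iff₀ hA0]
    exact hmain2
  have hbdZ : 2 ^ 19 * P ^ 2 * (b : ℝ) ^ d ≤ A := by
    refine le_trans ?_ hZA
    calc 2 ^ 19 * P ^ 2 * (b : ℝ) ^ d ≤ 2 ^ 40 * (P ^ 6 * Lam * (b : ℝ) ^ d) := by
          have h1 : P ^ 2 ≤ P ^ 6 := pow_le_pow_right₀ hP1 (by norm_num)
          have h2 : P ^ 2 * (b : ℝ) ^ d ≤ P ^ 6 * Lam * (b : ℝ) ^ d := by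
            calc P ^ 2 * (b : ℝ) ^ d = P ^ 2 * 1 * (b : ℝ) ^ d := by ring
              _ ≤ P ^ 6 * Lam * (b : ℝ) ^ d := by gcongr
          have h3 : 0 ≤ P ^ 6 * Lam * (b : ℝ) ^ d := by positivity
          nlinarith
      _ ≤ C₂ * Z := by gcongr
  have h19 : 2 * φ + 19 ≤ 2 * l := by
    have h1 : (2 : ℝ) ^ (2 * φ + 19) ≤ 2 ^ (2 * l) := by
      calc (2 : ℝ) ^ (2 * φ + 19) = 2 ^ 19 * P ^ 2 * 1 := by
            rw [hP, ← pow_mul, pow_add]; ring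
        _ ≤ 2 ^ 19 * P ^ 2 * (b : ℝ) ^ d := by gcongr
        _ ≤ A := hbdZ
        _ = _ := hA
    exact (pow_le_pow_iff_right₀ (by norm_num : (1 : ℝ) < 2)).1 h1
  obtain ⟨τ, hτ⟩ : ∃ τ : ℕ, τ = 2 ^ (2 * l - 2 * φ - 19) := ⟨_, rfl⟩
  have hτ0 : 0 < τ := by rw [hτ]; positivity
  have hτA : (τ : ℝ) * (2 ^ 19 * P ^ 2) = A := by
    rw [hτ, hP, hA]
    push_cast
    rw [← pow_mul, ← pow_add, ← pow_add]
    congr 1
    omega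
  have hbτ : b ^ d ≤ τ := by
    have h1 : (b : ℝ) ^ d * (2 ^ 19 * P ^ 2) ≤ τ * (2 ^ 19 * P ^ 2) := by
      rw [hτA]
      linarith
    have h2 := le_of_mul_le_mul_right h1 (by positivity)
    exact_mod_cast h2
  have hτN : τ ≤ N ^ 2 := by
    have h1 : (τ : ℝ) * 1 ≤ τ * (2 ^ 19 * P ^ 2) := by
      apply mul_le_mul_of_nonneg_left _ (Nat.cast_nonneg _)
      have : 1 ≤ P ^ 2 := one_le_pow₀ hP1
      linarith
    have h2 : (τ : ℝ) ≤ (N : ℝ) ^ 2 := by linarith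
    exact_mod_cast h2
  have hLT : Real.logb 2 T ≤ Lam := by rw [hLam]; linarith
  have hLκ : Real.logb 2 (Fintype.card Γ) ≤ Lam := by rw [hLam]; linarith
  have hbig := (bigX_le (d := d) (ℓ := b) (τ := τ) (π := 0) (A := N ^ 2) hT hΓ hLam1 hLT hLκ
    (by push_cast; linarith) hout (by exact_mod_cast hbN) hτN (hbτ.trans hτN)
    (Nat.one_le_pow _ _ (Nat.pos_of_ne_zero hN0)))
  have hbig1 : Real.logb 2 (bigX d b τ T (Fintype.card Γ) 0) ≤ (17 + 12 * d) * Lam := by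
    rcases hbig with h | h
    · exact h
    · omega
  have hlog2 : Real.logb 2 ((2 : ℕ) : ℝ) = 1 := by
    push_cast
    exact Real.logb_self_eq_one (by norm_num)
  have hX64 : 64 ≤ bigX d b τ T (Fintype.card Γ) 0 := by
    unfold bigX
    have h1 : 1 ≤ (b * (2 * T + 1) ^ d * (T + 1) ^ 2 * (τ + b ^ d + 1)) *
      (T * ((2 * T + 1) ^ d * Fintype.card Γ)) := Nat.one_le_iff_ne_zero.2 (by positivity)
    calc 64 = 2 ^ (0 + 6) * 1 := by norm_num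
      _ ≤ _ := Nat.mul_le_mul_left _ h1
  obtain ⟨e₁, hee₁⟩ : ∃ e₁, e₁ = Nat.clog 2 (bigX d b τ T (Fintype.card Γ) 0) := ⟨_, rfl⟩
  obtain ⟨e₂, hee₂⟩ : ∃ e₂, e₂ = Nat.clog 2 (Fintype.card Γ ^ ((b + 2) ^ d)) := ⟨_, rfl⟩
  have hp₁ : bigX d b τ T (Fintype.card Γ) 0 ≤ 2 ^ e₁ := by
    rw [hee₁]; exact Nat.le_pow_clog (by norm_num) _
  have hp₂ : Fintype.card Γ ^ ((b + 2) ^ d) ≤ 2 ^ e₂ := by
    rw [hee₂]; exact Nat.le_pow_clog (by norm_num) _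
  have he₁1 : 1 ≤ e₁ := by
    by_contra hcon
    have h1 : e₁ = 0 := by omega
    rw [h1] at hp₁
    omega
  have he₁ : (e₁ : ℝ) ≤ E * Lam := by
    have h1 := clog_bound (q := 2) le_rfl (X := bigX d b τ T (Fintype.card Γ) 0) (by omega)
    rw [hlog2, ← hee₁, mul_one] at h1
    calc (e₁ : ℝ) ≤ (17 + 12 * d) * Lam + Lam := by linarith
      _ = E * Lam := by rw [hE]; ring
  have hκX : 1 ≤ Fintype.card Γ ^ ((b + 2) ^ d) := Nat.one_le_pow _ _ hΓ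
  have h3b : ((b : ℝ) + 2) ^ d ≤ 3 ^ d * (b : ℝ) ^ d := by
    rw [← mul_pow]
    apply pow_le_pow_left₀ (by positivity)
    linarith
  have he₂ : (e₂ : ℝ) ≤ E₂ * (b : ℝ) ^ d * Lam := by
    have h1 := clog_bound (q := 2) le_rfl hκX
    rw [hlog2, ← hee₂, mul_one] at h1
    have h3 : Real.logb 2 ((Fintype.card Γ ^ ((b + 2) ^ d) : ℕ) : ℝ) ≤
        3 ^ d * (b : ℝ) ^ d * Lam := by
      push_cast
      rw [Real.logb_pow]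
      push_cast
      exact mul_le_mul h3b hLκ hκ0 (by positivity)
    have h4 : 1 * 1 ≤ (b : ℝ) ^ d * Lam := mul_le_mul hbd hLam1 (by norm_num) (by positivity)
    calc (e₂ : ℝ) ≤ 3 ^ d * (b : ℝ) ^ d * Lam + (b : ℝ) ^ d * Lam := by linarith
      _ = _ := by rw [hE₂]; ring
  have he₁0 : (0 : ℝ) ≤ e₁ := Nat.cast_nonneg _
  have he₂0 : (0 : ℝ) ≤ e₂ := Nat.cast_nonneg _
  -- the memory parameter
  obtain ⟨kM, hkM⟩ : ∃ kM, kM = e₁ * (b ^ d + (b + 2) ^ d + 1) + e₂ := ⟨_, rfl⟩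
  have hkM1 : 1 ≤ kM := by
    rw [hkM]
    have : 1 * 1 ≤ e₁ * (b ^ d + (b + 2) ^ d + 1) := Nat.mul_le_mul he₁1 (by omega)
    omega
  have hkMr : (kM : ℝ) ≤ E₃ * (b : ℝ) ^ d * Lam := by
    rw [hkM]
    push_cast
    have h1 : (b : ℝ) ^ d + ((b : ℝ) + 2) ^ d + 1 ≤ (2 + 3 ^ d) * (b : ℝ) ^ d := by linarith
    calc (e₁ : ℝ) * ((b : ℝ) ^ d + ((b : ℝ) + 2) ^ d + 1) + e₂ ≤
          (E * Lam) * ((2 + 3 ^ d) * (b : ℝ) ^ d) + E₂ * (b : ℝ) ^ d * Lam := by gcongr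
      _ = _ := by rw [hE₃]; ring
  obtain ⟨κ, hκ⟩ : ∃ κ, κ = Nat.clog 2 kM + 2 := ⟨_, rfl⟩
  have hκ1 : kM ≤ 2 ^ (κ - 2) := by
    rw [hκ, Nat.add_sub_cancel]
    exact Nat.le_pow_clog (by norm_num) _
  have hκ2 : 2 ^ κ ≤ 8 * kM := by
    rw [hκ, pow_add]
    rcases eq_or_lt_of_le hkM1 with h | h
    · rw [← h]
      simp
    · have h1 := Nat.pow_pred_clog_lt_self (b := 2) (x := kM) (by norm_num) h
      have h2 : 0 < Nat.clog 2 kM := Nat.clog_pos (by norm_num) h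
      have h3 : 2 ^ Nat.clog 2 kM = 2 * 2 ^ (Nat.clog 2 kM).pred := by
        rw [← pow_succ']
        congr 1
        exact (Nat.succ_pred_eq_of_pos h2).symm
      omega
  have hκr : (2 : ℝ) ^ κ ≤ 8 * E₃ * (b : ℝ) ^ d * Lam := by
    have h1 : (2 : ℝ) ^ κ ≤ 8 * kM := by exact_mod_cast hκ2
    calc (2 : ℝ) ^ κ ≤ 8 * kM := h1
      _ ≤ 8 * (E₃ * (b : ℝ) ^ d * Lam) := by gcongr
      _ = _ := by ring
  have hκφ : κ + 3 * φ + 17 ≤ 2 * l := by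
    have h1 : (2 : ℝ) ^ (κ + 3 * φ + 17) ≤ 2 ^ (2 * l) := by
      calc (2 : ℝ) ^ (κ + 3 * φ + 17) = 2 ^ 17 * P ^ 3 * 2 ^ κ := by
            rw [hP, ← pow_mul, pow_add, pow_add]; ring
        _ ≤ 2 ^ 17 * P ^ 6 * (8 * E₃ * (b : ℝ) ^ d * Lam) := by
            have : P ^ 3 ≤ P ^ 6 := pow_le_pow_right₀ hP1 (by norm_num)
            gcongr
        _ = (2 ^ 20 * E₃) * (P ^ 6 * Lam * (b : ℝ) ^ d) := by ring
        _ ≤ C₂ * Z := by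
            have h2 : 2 ^ 20 * E₃ ≤ C₂ := by
              refine le_trans ?_ hC₂0
              gcongr <;> norm_num
            gcongr
        _ ≤ A := hZA
        _ = _ := hA
    exact (pow_le_pow_iff_right₀ (by norm_num : (1 : ℝ) < 2)).1 h1
  obtain ⟨m, hm⟩ : ∃ m, m + 13 + κ + 2 * φ = 2 * l := ⟨2 * l - 13 - κ - 2 * φ, by omega⟩
  obtain ⟨c, hc⟩ : ∃ c, c + φ + 4 = m := ⟨m - 4 - φ, by omega⟩
  have hφ2' : 2 ^ (φ + 1) = 2 * 2 ^ φ := by rw [pow_succ]; ring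
  have hc1 : c + 1 ≤ 2 ^ (φ + 1) := by omega
  choose K hK1 hK2 using exists_family l φ (by omega) (by omega)
  obtain ⟨e, he⟩ := exists_embedding (c := c) (n := 2 ^ l) (N := N) (by
    calc 2 * 2 ^ l + 2 * ((c + 1) * 2 ^ l) = (2 + 2 * (c + 1)) * 2 ^ l := by ring
      _ ≤ (8 * 2 ^ φ) * 2 ^ l := Nat.mul_le_mul_right _ (by omega)
      _ = 2 ^ L := by rw [hl, pow_add, pow_add]; ring
      _ ≤ N := hNL)
  have hcM : 8 * ((c + 1) * 2 ^ c) ≤ 2 ^ m := by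
    calc 8 * ((c + 1) * 2 ^ c) ≤ 8 * (2 ^ (φ + 1) * 2 ^ c) :=
          Nat.mul_le_mul_left _ (Nat.mul_le_mul_right _ hc1)
      _ = 2 ^ m := by
          rw [← hc, pow_add 2 (c + φ), pow_add 2 c, hφ2']; ring
  refine ⟨c, m, l, K, e, he, fun Q => ?_⟩
  refine apsp_few K hK1 hK2 (by omega) hm hc (by omega) hcM he Q (b := b) (τ := τ) (ξ := b ^ d)
    (e₁ := e₁) (e₂ := e₂) hb0 hτ0 (by positivity) hT hΓ ?_ he₁1 ?_ ?_ hp₂ hp₁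
  · have h1 : 2 ^ (m + κ - 1) = 32 * τ := by
      rw [hτ, show (32 : ℕ) = 2 ^ 5 by norm_num, ← pow_add]
      congr 1
      omega
    omega
  · rw [← hkM]
    exact hκ1
  apply numA_of hb0 hτ0 (by positivity) he₁1
  -- the main inequality
  have hG₀ : (((l + 1) * 2 ^ (3 * φ + 18) : ℕ) : ℝ) ≤ 2 ^ 18 * P ^ 4 := by
    have h1 : (l : ℝ) + 1 ≤ P := by
      rw [hP]
      exact_mod_cast (by omega : l + 1 ≤ 2 ^ φ)
    push_cast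
    rw [pow_add, pow_mul']
    rw [← hP]
    calc ((l : ℝ) + 1) * (P ^ 3 * 2 ^ 18) ≤ P * (P ^ 3 * 2 ^ 18) := by gcongr
      _ = _ := by ring
  have h2m : (2 : ℝ) ^ m * (2 ^ 13 * 2 ^ κ * P ^ 2) = A := by
    rw [hP, hA, ← hm, ← pow_mul, ← pow_add, ← pow_add, ← pow_add]
    congr 1
    ring
  have hA2 : ((2 ^ (2 * l - 1) : ℕ) : ℝ) = A / 2 := by
    rw [hA]
    push_cast
    rw [eq_div_iff (by norm_num), ← pow_succ]
    congr 1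
    omega
  rw [hA2]
  obtain ⟨G, hG⟩ : ∃ G : ℝ, G = (((l + 1) * 2 ^ (3 * φ + 18) : ℕ) : ℝ) := ⟨_, rfl⟩
  rw [← hG] at hG₀ ⊢
  have hG0 : 0 ≤ G := by rw [hG]; positivity
  have hVb : V * P ^ 4 / b ≤ A / K₁ := by
    have hK₁0 : 0 < K₁ := by linarith
    rw [div_le_div_iff₀ (by linarith) hK₁0]
    calc V * P ^ 4 * K₁ = ρ * A := by rw [hρ]; field_simp
      _ ≤ b * A := by gcongr
      _ = A * b := mul_comm _ _
  have hτr : (0 : ℝ) < τ := by exact_mod_cast hτ0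
  have hfin := final_ineq (d := d) (B := (b : ℝ) ^ d) hG0 hG₀ hP1 hA0 (by linarith) (by linarith)
    (by linarith) hD0 hK₁1 hK₁ hC₂ hZ hV hW0 hLam0.le hZ1 hZA hbd hbr he₁0 he₂0 he₁ he₂ h2m
    (by positivity) (by positivity) hκr hτr hτA hVb
  rw [hD] at hfin
  push_cast
  exact hfin

end Pool.Agent.H363DA
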