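import Pool.Agent.H363D.ApspE

/-!
# All-pairs shortest paths, on randomised machines with a memory in space
-/

set_option autoImplicit false

open Finset

namespace Pool.Agent.H363DA

open Pool.Agent.H363D hiding cnt NumW union_windows
open Pool.Agent.W896.MO
open Pool.Agent.H537R2.Apsp (Graph walkWeight dist)
open Pool.Agent.H537R2.Apsr

/-- **The lower bound for all-pairs shortest paths.** -/
theorem apsp_space (d : ℕ) : ∃ C : ℝ, 0 < C ∧ ∀ᶠ N : ℕ in Filter.atTop,
    ∀ (Γ : Type) [Fintype Γ] (T W : ℕ) (R : Type) [Fintype R]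
      (P : R → Machine d (Fin N × Fin N) (Fin N × Fin N) ℕ∞ Γ),
      (∀ w : Graph N, (∀ p, w p = 1 ∨ w p = ⊤) →
        Nat.card R < 2 * Nat.card {r : R // (P r).Computes w (dists w) T W}) →
      (N : ℝ) ^ (2 * d + 4) <
        C * ((W : ℝ) * (Real.logb 2 (Fintype.card Γ) + Real.logb 2 T + 1)) ^ (d + 1) *
          (Nat.log 2 N : ℝ) ^ (6 * d + 10) := by
  classical
  obtain ⟨C, hC, hav⟩ := apsp_avg d
  refine ⟨C, hC, ?_⟩
  filter_upwards [Filter.eventually_ge_atTop (2 ^ 64)] with N hN Γ _ T W R _ P hP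
  by_contra hcon
  push Not at hcon
  have hlog : 64 ≤ Nat.log 2 N := Nat.le_log_of_pow_le (by norm_num) hN
  obtain ⟨r₀, hr₀⟩ : ∃ r, (P r).Computes (fun _ => ⊤) (dists (fun _ => ⊤)) T W := by
    have h1 := hP (fun _ => ⊤) (fun _ => Or.inr rfl)
    have h2 : 0 < Nat.card {r : R // (P r).Computes (fun _ => ⊤) (dists (fun _ => ⊤)) T W} := by
      omega
    obtain ⟨⟨r, hr⟩⟩ := (Nat.card_pos_iff.1 h2).1
    exact ⟨r, hr⟩
  obtain ⟨hW, hTd⟩ := outs_le hr₀
  rw [Fintype.card_prod, Fintype.card_fin, ← sq] at hW hTd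
  have hT : 1 ≤ T := time_pos hr₀ (⟨0, by omega⟩, ⟨0, by omega⟩)
  have hΓ : 1 ≤ Fintype.card Γ := Fintype.card_pos_iff.2 ⟨(P r₀).blank⟩
  obtain ⟨c, m, l, K, e, he, hdet⟩ := hav N hlog Γ T W hT hΓ hW hTd hcon
  set X := Jx c (2 ^ l) → Fin (2 ^ m)
  have h1 : ∀ r : R, 2 * Nat.card {x : X // (P r).Computes (graph K e x)
      (dists (graph K e x)) T W} ≤ Nat.card X := fun r => hdet (P r)
  have h2 : ∀ x : X, Nat.card R < 2 * Nat.card {r : R // (P r).Computes (graph K e x)
      (dists (graph K e x)) T W} := fun x => hP _ fun p => graph_eq K e x p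
  have h3 : ∑ x : X, Nat.card {r : R // (P r).Computes (graph K e x)
        (dists (graph K e x)) T W} =
      ∑ r : R, Nat.card {x : X // (P r).Computes (graph K e x) (dists (graph K e x)) T W} := by
    simp only [Nat.card_eq_fintype_card, Fintype.card_subtype, Finset.card_filter]
    exact sum_comm
  have h4 : ∑ _x : X, Nat.card R <
      ∑ x : X, 2 * Nat.card {r : R // (P r).Computes (graph K e x)
        (dists (graph K e x)) T W} := by
    apply sum_lt_sum_of_nonempty
    · exact ⟨fun _ => ⟨0, by positivity⟩, mem_univ _⟩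
    · intro x _
      exact h2 x
  have h5 : 2 * ∑ r : R, Nat.card {x : X // (P r).Computes (graph K e x)
      (dists (graph K e x)) T W} ≤ Nat.card R * Fintype.card X := by
    rw [mul_sum]
    calc _ ≤ ∑ _r : R, Fintype.card X := by
          apply sum_le_sum
          intro r _
          have := h1 r
          rwa [Nat.card_eq_fintype_card (α := X)] at this
      _ = _ := by rw [sum_const, card_univ, smul_eq_mul, Nat.card_eq_fintype_card (α := R)]
  rw [← mul_sum, h3] at h4
  rw [sum_const, card_univ, smul_eq_mul] at h4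
  rw [mul_comm] at h4
  omega

end Pool.Agent.H363DA
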