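import Pool.Agent.H363D.Outs
import Pool.Agent.W896.MO.MvFinal

/-!
# Matrix-vector products, on a machine with a memory in space
-/

set_option autoImplicit false

open Finset

namespace Pool.Agent.H363D

open Pool.Agent.W896.MO

/-- The threshold for the number of the outputs of a window. -/
def thv (e₁ e₂ : ℕ) (_ x : ℕ) (c : Bool) : ℕ :=
  1 + 16 * (e₁ * (x + 1) + if c = true then e₂ else 0)

theorem thv_div {e₁ e₂ : ℕ} (a x : ℕ) (c : Bool) :
    e₁ * (x + 1) + (if c = true then e₂ else 0) ≤ thv e₁ e₂ a x c / 16 := by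
  unfold thv
  rw [Nat.le_div_iff_mul_le (by norm_num)]
  omega

theorem numV_of {d ℓ τ W N e₁ e₂ : ℕ} (hℓ : 0 < ℓ) (hτ : 0 < τ)
    (h : 16 * (e₁ * (2 * (3 ^ d * (2 * d) * W / ℓ) + 3 ^ d + W / τ) + e₂ * (W / τ)) <
        (N : ℝ)) : NumW d ℓ τ W (thv e₁ e₂) N := by
  intro I nn xx h1 h2 h3 h4 h5
  have hℓr : (0 : ℝ) < ℓ := by exact_mod_cast hℓ
  have hτr : (0 : ℝ) < τ := by exact_mod_cast hτ
  obtain ⟨late, hlate⟩ : ∃ late, late = (I.filter (fun w => w.2 ≠ 0)).card := ⟨_, rfl⟩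
  obtain ⟨early, hearly⟩ : ∃ early, early = (I.filter (fun w => w.2 = 0)).card := ⟨_, rfl⟩
  obtain ⟨X, hX⟩ : ∃ X, X = ∑ w ∈ I, xx w := ⟨_, rfl⟩
  rw [← hlate] at h4
  rw [← hearly, ← hX] at h5
  rw [← hX] at h3
  have hI : I.card = early + late := by
    have := card_filter_add_card_filter_not (s := I) (fun w => w.2 = 0)
    rw [← hearly] at this
    rw [hlate]
    exact this.symm
  have hXr : (X : ℝ) ≤ 3 ^ d * (2 * d) * W / ℓ := by
    rw [le_div_iff₀ hℓr, mul_comm]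
    exact_mod_cast h3
  have hlr : (late : ℝ) ≤ W / τ := by
    rw [le_div_iff₀ hτr]
    exact_mod_cast h4
  have her : (early : ℝ) ≤ 3 ^ d + X := by exact_mod_cast h5
  have hsum : ∑ w ∈ I, (thv e₁ e₂ (nn w) (xx w) (decide (w.2 ≠ 0)) - 1) =
      16 * (e₁ * (X + I.card) + e₂ * late) := by
    have e1 : ∀ w ∈ I, thv e₁ e₂ (nn w) (xx w) (decide (w.2 ≠ 0)) - 1 =
        16 * (e₁ * (xx w + 1)) + 16 * (if w.2 ≠ 0 then e₂ else 0) := by
      intro w _
      unfold thv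
      generalize e₁ * (xx w + 1) = B
      by_cases h0 : w.2 = 0
      · simp only [h0, ne_eq, not_true_eq_false, decide_false, if_false, Bool.false_eq_true]
        omega
      · simp only [h0, ne_eq, not_false_eq_true, decide_true, if_true]
        omega
    rw [sum_congr rfl e1, sum_add_distrib, ← mul_sum, ← mul_sum, ← mul_sum,
      sum_add_distrib, ← hX, sum_const, smul_eq_mul, mul_one, ← sum_filter, sum_const, ← hlate,
      smul_eq_mul]
    ring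
  rw [hsum, hI]
  have hgoal : 16 * (e₁ * ((X : ℝ) + (early + late)) + e₂ * late) < (N : ℝ) := by
    refine lt_of_le_of_lt ?_ h
    apply mul_le_mul_of_nonneg_left _ (by norm_num)
    apply add_le_add
    · apply mul_le_mul_of_nonneg_left _ (by positivity)
      linarith
    · exact mul_le_mul_of_nonneg_left hlr (by positivity)
  exact_mod_cast hgoal

variable {d : ℕ} {F Γ : Type} {n m : ℕ} [Field F] [Fintype F]

open Classical in
/-- The counting argument. -/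
theorem mv_few [DecidableEq F] [Fintype Γ] (M : Fin n → Fin n → F) (hM : LG M)
    (P : Machine d (Fin m × Fin n) (Fin m × Fin n) F Γ)
    {T W ℓ τ e₁ e₂ π : ℕ} (hℓ : 0 < ℓ) (hτ : 0 < τ) (hτn : 128 * (τ + ℓ ^ d) ≤ n)
    (hT : 1 ≤ T) (hκ : 1 ≤ Fintype.card Γ)
    (hnum : NumW d ℓ τ W (thv e₁ e₂) (m * n))
    (hκ2 : Fintype.card Γ ^ ((ℓ + 2) ^ d) ≤ Fintype.card F ^ e₂)
    (hbig : bigX d ℓ τ T (Fintype.card Γ) π ≤ Fintype.card F ^ e₁)
    (h : Fintype.card (Fin m → Fin n → F) ≤ 2 ^ π *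
      (univ.filter (fun y : Fin m → Fin n → F => P.Computes (flat y) (mv M (flat y)) T W)).card) :
    False := by
  obtain ⟨Wo, hWo⟩ : ∃ Wo, Wo = Fintype.card (Fin m → Fin n → F) := ⟨_, rfl⟩
  have hWo0 : 0 < Wo := by rw [hWo]; exact Fintype.card_pos
  have hq : 0 < Fintype.card F := Fintype.card_pos
  obtain ⟨K, hK⟩ : ∃ K : ℕ → Bool → ℕ, ∀ x c, K x c =
    Wo / Fintype.card F ^ (e₁ * (x + 1) + if c = true then e₂ else 0) := ⟨_, fun _ _ => rfl⟩
  have h1 := union_windows (M := P) (X := (flat : (Fin m → Fin n → F) → _)) (f := mv M)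
    (Cnt := fun _ _ => True) (Gd := fun _ => True) (T := T) hℓ hτ hnum
    (fun y _ => by
      simp only [filter_true, card_univ, Fintype.card_prod, Fintype.card_fin, le_refl]) K
    (fun a ha x c Rel hRel => by
      have h2 := mv_proc (F := F) (n := n) (m := m) M hM (a := a) (N₁ := thv e₁ e₂ a x c)
        (by omega) hRel
      have h3 : Fintype.card (Fin m → Fin n → F) /
          Fintype.card F ^ (thv e₁ e₂ a x c / 16) ≤ K x c := by
        rw [hK, ← hWo]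
        apply Nat.div_le_div_left
        · exact Nat.pow_le_pow_right hq (thv_div a x c)
        · positivity
      refine le_trans (le_of_eq ?_) (h2.trans h3)
      congr!)
  have hsum := sum_bound (Ω := Wo) (B := ℓ * (2 * T + 1) ^ d * (T + 1) ^ 2 * (τ + ℓ ^ d + 1))
    (V := T * ((2 * T + 1) ^ d * Fintype.card Γ)) (Q := Fintype.card F ^ e₁)
    (κ' := Fintype.card Γ ^ ((ℓ + 2) ^ d)) (m := W + 1) (π := π) (e₁ := e₁) (e₂ := e₂)
    (q := Fintype.card F) K hq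
    (by
      intro x
      rw [hK]
      simp only [Bool.false_eq_true, if_false, add_zero]
      exact (Nat.div_mul_le_self _ _).trans (by omega))
    (by
      intro x
      rw [hK]
      simp only [if_true]
      exact (Nat.div_mul_le_self _ _).trans (by omega))
    rfl hκ2 (Nat.one_le_iff_ne_zero.2 (by positivity)) (Nat.one_le_iff_ne_zero.2 (by positivity))
    hbig
  obtain ⟨G, hG⟩ : ∃ G, G = (univ.filter (fun y : Fin m → Fin n → F =>
    P.Computes (flat y) (mv M (flat y)) T W)).card := ⟨_, rfl⟩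
  have h2 : 2 ^ (π + 2) * G ≤ Wo := by
    refine le_trans (Nat.mul_le_mul_left _ ?_) hsum
    rw [hG]
    simp only [true_and] at h1
    exact h1
  rw [← hWo, ← hG] at h
  have h10 : 2 ^ (π + 2) * G = 4 * (2 ^ π * G) := by rw [pow_add]; ring
  omega

/-- A cube of a suitable size. -/
theorem exists_side (d : ℕ) {n : ℕ} (hn : 256 ≤ n) :
    ∃ ℓ, 1 ≤ ℓ ∧ 256 * ℓ ^ (d + 1) ≤ n ∧ n ≤ 256 * (2 * ℓ) ^ (d + 1) := by
  classical
  have h1 : 256 * 1 ^ (d + 1) ≤ n := by simpa using hn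
  obtain ⟨ℓ, hℓ⟩ : ∃ ℓ, ℓ = Nat.findGreatest (fun l => 256 * l ^ (d + 1) ≤ n) n := ⟨_, rfl⟩
  have h2 : 1 ≤ ℓ := by
    rw [hℓ]
    exact Nat.le_findGreatest (P := fun l => 256 * l ^ (d + 1) ≤ n) (by omega) h1
  have h3 : 256 * ℓ ^ (d + 1) ≤ n := by
    rw [hℓ]
    exact Nat.findGreatest_spec (P := fun l => 256 * l ^ (d + 1) ≤ n) (by omega : 1 ≤ n) h1
  refine ⟨ℓ, h2, h3, ?_⟩
  by_contra hcon
  push Not at hcon
  have h4 : 256 * (ℓ + 1) ^ (d + 1) ≤ n := by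
    refine le_trans (Nat.mul_le_mul_left _ (Nat.pow_le_pow_left ?_ _)) hcon.le
    omega
  have h5 : ℓ + 1 ≤ n := by
    calc ℓ + 1 ≤ (ℓ + 1) ^ (d + 1) := Nat.le_self_pow (by omega) _
      _ ≤ 256 * (ℓ + 1) ^ (d + 1) := Nat.le_mul_of_pos_left _ (by norm_num)
      _ ≤ n := h4
  have h6 := Nat.le_findGreatest (P := fun l => 256 * l ^ (d + 1) ≤ n) h5 h4
  rw [← hℓ] at h6
  omega

/-- **The lower bound for the products of a matrix with several vectors.** -/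
theorem mv_space (d : ℕ) : ∃ C : ℝ, 0 < C ∧ ∀ (F : Type) [Field F] [Fintype F] (n : ℕ),
    ∃ Bad : Set (Fin n → Fin n → F),
    Nat.card Bad * 2 ^ (n / 4) ≤ Fintype.card F ^ (n * n) ∧
    ∀ M, M ∉ Bad → ∀ (Γ : Type) [Fintype Γ] (m T W π : ℕ) (R : Type) [Fintype R] [Nonempty R]
      (P : R → Machine d (Fin m × Fin n) (Fin m × Fin n) F Γ),
      Nat.card R * Fintype.card F ^ (n * m) ≤ 2 ^ π *
        Nat.card {u : R × (Fin m × Fin n → F) // (P u.1).Computes u.2 (mv M u.2) T W} →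
      ((n : ℝ) * m) ^ (d + 1) * n * Real.logb 2 (Fintype.card F) ^ (d + 1) ≤
        C * ((W : ℝ) * (Real.logb 2 (Fintype.card Γ) + Real.logb 2 T + π +
          Real.logb 2 (Fintype.card F))) ^ (d + 1) := by
  classical
  obtain ⟨E, hE⟩ : ∃ E : ℝ, E = 18 + 12 * d := ⟨_, rfl⟩
  obtain ⟨D, hD⟩ : ∃ D : ℝ, D = 3 ^ d * (2 * d) := ⟨_, rfl⟩
  obtain ⟨K, hK⟩ : ∃ K : ℝ, K = 32 * (4 * D * E + 2 * 3 ^ d * E + 4 * (E + (3 ^ d + 1))) :=
    ⟨_, rfl⟩
  have hE0 : 18 ≤ E := by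
    rw [hE]
    have : (0 : ℝ) ≤ d := Nat.cast_nonneg d
    linarith
  have hD0 : 0 ≤ D := by rw [hD]; positivity
  have hK1 : 1 ≤ K := by
    rw [hK]
    have : 0 ≤ D * E := by positivity
    have : (0 : ℝ) ≤ 3 ^ d := by positivity
    have : (0 : ℝ) ≤ 3 ^ d * E := by positivity
    nlinarith
  refine ⟨256 * K ^ (d + 1), by positivity, ?_⟩
  intro F _ _ n
  refine ⟨{M | 128 ≤ n ∧ ¬ LG M}, ?_, ?_⟩
  · by_cases hn : 128 ≤ n
    · have h1 := bad_count (F := F) (n := n) (by omega)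
      refine le_trans (le_of_eq ?_) h1
      congr 1
      rw [Nat.card_eq_fintype_card]
      rw [Fintype.card_ofFinset]
      congr 1
      ext M
      simp [hn]
    · have h1 : {M : Fin n → Fin n → F | 128 ≤ n ∧ ¬ LG M} = ∅ := by
        ext M
        simp [hn]
      rw [h1]
      simp
  intro M hMb Γ _ m T W π R _ _ P hc
  have hM : 128 ≤ n → LG M := by
    intro h
    by_contra h1
    exact hMb ⟨h, h1⟩
  obtain ⟨r, hr⟩ := avg_exists (fun r v => (P r).Computes v (mv M v) T W) (2 ^ π) (by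
    rw [Nat.card_eq_fintype_card (α := Fin m × Fin n → F), Fintype.card_fun, Fintype.card_prod,
      Fintype.card_fin, Fintype.card_fin, mul_comm m n]
    exact hc)
  rw [Nat.card_eq_fintype_card (α := Fin m × Fin n → F), Fintype.card_fun, Fintype.card_prod,
      Fintype.card_fin, Fintype.card_fin, mul_comm m n] at hr
  obtain ⟨Q, hQ⟩ : ∃ Q, Q = P r := ⟨_, rfl⟩
  rw [← hQ] at hr
  have hq : 2 ≤ Fintype.card F := Fintype.one_lt_card
  obtain ⟨v, hv⟩ : ∃ v : Fin m × Fin n → F, Q.Computes v (mv M v) T W := by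
    by_contra hcon
    push Not at hcon
    have h1 : Nat.card {v : Fin m × Fin n → F // Q.Computes v (mv M v) T W} = 0 := by
      rw [Nat.card_eq_zero]
      left
      exact ⟨fun v => hcon v.1 v.2⟩
    rw [h1, mul_zero] at hr
    have h2 : 0 < Fintype.card F ^ (n * m) := by positivity
    omega
  have hκ : 1 ≤ Fintype.card Γ := Fintype.card_pos_iff.2 ⟨Q.blank⟩
  obtain ⟨hW, hTd⟩ := outs_le hv
  rw [Fintype.card_prod, Fintype.card_fin, Fintype.card_fin] at hW hTd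
  have hq1 : 1 ≤ Real.logb 2 (Fintype.card F : ℝ) := by
    rw [Real.le_logb_iff_rpow_le (by norm_num) (by exact_mod_cast (by omega))]
    simp only [Real.rpow_one]
    exact_mod_cast hq
  obtain ⟨Lq, hLq⟩ : ∃ Lq, Lq = Real.logb 2 (Fintype.card F : ℝ) := ⟨_, rfl⟩
  obtain ⟨L, hL⟩ : ∃ L, L = Real.logb 2 (Fintype.card Γ) + Real.logb 2 T + π +
    Real.logb 2 (Fintype.card F) := ⟨_, rfl⟩
  have hκ0 : 0 ≤ Real.logb 2 (Fintype.card Γ : ℝ) :=
    Real.logb_nonneg (by norm_num) (by exact_mod_cast hκ)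
  have hT0 : 0 ≤ Real.logb 2 (T : ℝ) := by
    rcases Nat.eq_zero_or_pos T with h | h
    · rw [h]; simp
    · exact Real.logb_nonneg (by norm_num) (by exact_mod_cast h)
  have hπ0 : (0 : ℝ) ≤ π := Nat.cast_nonneg _
  rw [← hL, ← hLq]
  have hLL : Lq ≤ L := by rw [hL, hLq]; linarith
  have hLq1 : 1 ≤ Lq := by rw [hLq]; exact hq1
  have hLq0 : 0 < Lq := by linarith
  -- reduction to `lam`
  obtain ⟨lam, hlam⟩ : ∃ lam, lam = L / Lq := ⟨_, rfl⟩
  have hlam1 : 1 ≤ lam := by rw [hlam, le_div_iff₀ hLq0]; linarith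
  have hLlam : L = lam * Lq := by rw [hlam]; field_simp
  have hlam0 : 0 < lam := by linarith
  suffices hmain : ((n : ℝ) * m) ^ (d + 1) * n ≤ 256 * K ^ (d + 1) * ((W : ℝ) * lam) ^ (d + 1) by
    calc ((n : ℝ) * m) ^ (d + 1) * n * Lq ^ (d + 1) ≤
          (256 * K ^ (d + 1) * ((W : ℝ) * lam) ^ (d + 1)) * Lq ^ (d + 1) :=
          mul_le_mul_of_nonneg_right hmain (by positivity)
      _ = 256 * K ^ (d + 1) * (((W : ℝ) * lam) * Lq) ^ (d + 1) := by rw [mul_pow _ Lq]; ring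
      _ = 256 * K ^ (d + 1) * ((W : ℝ) * L) ^ (d + 1) := by rw [hLlam]; ring
  have hWr : (n : ℝ) * m ≤ W := by
    have : (m : ℝ) * n ≤ W := by exact_mod_cast hW
    linarith
  have hWlam : (n : ℝ) * m ≤ W * lam := by
    have h1 : (W : ℝ) * 1 ≤ W * lam := mul_le_mul_of_nonneg_left hlam1 (Nat.cast_nonneg _)
    linarith
  by_cases hn : 256 ≤ n
  swap
  · have h1 : (n : ℝ) ≤ 256 := by exact_mod_cast (by omega : n ≤ 256)
    have h2 : (1 : ℝ) ≤ K ^ (d + 1) := one_le_pow₀ hK1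
    calc ((n : ℝ) * m) ^ (d + 1) * n ≤ ((W : ℝ) * lam) ^ (d + 1) * 256 := by gcongr
      _ = 256 * 1 * ((W : ℝ) * lam) ^ (d + 1) := by ring
      _ ≤ 256 * K ^ (d + 1) * ((W : ℝ) * lam) ^ (d + 1) := by gcongr
  by_cases hm : 1 ≤ m
  swap
  · have h1 : m = 0 := by omega
    rw [h1]
    simp only [Nat.cast_zero, mul_zero, ne_eq, Nat.add_eq_zero_iff, one_ne_zero, and_false,
      not_false_eq_true, zero_pow, zero_mul]
    positivity
  have hT : 1 ≤ T := time_pos hv (⟨0, hm⟩, ⟨0, by omega⟩)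
  by_contra hcon
  push Not at hcon
  obtain ⟨ℓ, hℓ1, hℓ2, hℓ3⟩ := exists_side d hn
  have hn0 : (0 : ℝ) < n := by exact_mod_cast (by omega : 0 < n)
  have hm0 : (0 : ℝ) < m := by exact_mod_cast hm
  have hℓr : (1 : ℝ) ≤ ℓ := by exact_mod_cast hℓ1
  have hℓ0 : (0 : ℝ) < ℓ := by linarith
  have hlt : K * (W * lam) < 2 * ℓ * (n * m) := by
    have h1 : (K * (W * lam)) ^ (d + 1) < (2 * ℓ * (n * m)) ^ (d + 1) := by
      have h2 : (n : ℝ) ≤ 256 * (2 * ℓ) ^ (d + 1) := by exact_mod_cast hℓ3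
      have h3 : 256 * (K * (W * lam)) ^ (d + 1) < 256 * (2 * ℓ * (n * m)) ^ (d + 1) := by
        calc 256 * (K * (W * lam)) ^ (d + 1) = 256 * K ^ (d + 1) * ((W : ℝ) * lam) ^ (d + 1) := by
              rw [mul_pow K]; ring
          _ < ((n : ℝ) * m) ^ (d + 1) * n := hcon
          _ ≤ ((n : ℝ) * m) ^ (d + 1) * (256 * (2 * ℓ) ^ (d + 1)) := by gcongr
          _ = 256 * (2 * ℓ * (n * m)) ^ (d + 1) := by rw [mul_pow (2 * (ℓ : ℝ))]; ring
      linarith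
    exact lt_of_pow_lt_pow_left₀ (d + 1) (by positivity) h1
  obtain ⟨τ, hτ⟩ : ∃ τ, τ = n / 256 := ⟨_, rfl⟩
  have hτ0 : 0 < τ := by omega
  have hℓd : ℓ ^ d ≤ ℓ ^ (d + 1) := Nat.pow_le_pow_right hℓ1 (by omega)
  have hτn : 128 * (τ + ℓ ^ d) ≤ n := by omega
  have hℓn : ℓ ≤ ℓ ^ (d + 1) := Nat.le_self_pow (by omega) _
  have hnm : n ≤ m * n := Nat.le_mul_of_pos_left n hm
  have hLT : Real.logb 2 T ≤ L := by rw [hL]; linarith
  have hLκ : Real.logb 2 (Fintype.card Γ) ≤ L := by rw [hL]; linarith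
  have hLπ : (π : ℝ) ≤ L := by rw [hL]; linarith
  have hbig := (bigX_le (d := d) (ℓ := ℓ) (τ := τ) (A := m * n) hT hκ (by linarith) hLT hLκ hLπ
    hTd (by omega) (by omega) (by omega) (by omega))
  have hbig1 : Real.logb 2 (bigX d ℓ τ T (Fintype.card Γ) π) ≤ (17 + 12 * d) * L := by
    rcases hbig with h | h
    · exact h
    · omega
  have hX1 : 1 ≤ bigX d ℓ τ T (Fintype.card Γ) π := by
    unfold bigX
    exact Nat.one_le_iff_ne_zero.2 (by positivity)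
  obtain ⟨e₁, hee₁⟩ : ∃ e₁, e₁ = Nat.clog (Fintype.card F) (bigX d ℓ τ T (Fintype.card Γ) π) :=
    ⟨_, rfl⟩
  obtain ⟨e₂, hee₂⟩ : ∃ e₂, e₂ = Nat.clog (Fintype.card F) (Fintype.card Γ ^ ((ℓ + 2) ^ d)) :=
    ⟨_, rfl⟩
  have he₁ : (e₁ : ℝ) ≤ E * lam := by
    have h1 := clog_bound hq hX1
    rw [← hLq, ← hee₁] at h1
    have h2 : (e₁ : ℝ) * Lq ≤ (E * lam) * Lq := by
      calc _ ≤ (17 + 12 * d) * L + L := by linarith
        _ = E * L := by rw [hE]; ring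
        _ = _ := by rw [hLlam]; ring
    exact le_of_mul_le_mul_right h2 hLq0
  have hκX : 1 ≤ Fintype.card Γ ^ ((ℓ + 2) ^ d) := Nat.one_le_pow _ _ hκ
  have hℓdr : (1 : ℝ) ≤ (ℓ : ℝ) ^ d := one_le_pow₀ hℓr
  have he₂ : (e₂ : ℝ) ≤ (3 ^ d + 1) * (ℓ : ℝ) ^ d * lam := by
    have h1 := clog_bound hq hκX
    rw [← hLq, ← hee₂] at h1
    have h3 : Real.logb 2 ((Fintype.card Γ ^ ((ℓ + 2) ^ d) : ℕ) : ℝ) ≤
        3 ^ d * (ℓ : ℝ) ^ d * L := by
      push_cast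
      rw [Real.logb_pow]
      push_cast
      have e1 : ((ℓ : ℝ) + 2) ^ d ≤ (3 * ℓ) ^ d := by gcongr; linarith
      rw [mul_pow] at e1
      exact mul_le_mul e1 hLκ hκ0 (by positivity)
    have h4 : 1 * L ≤ (ℓ : ℝ) ^ d * L := mul_le_mul_of_nonneg_right hℓdr (by linarith)
    have h2 : (e₂ : ℝ) * Lq ≤ ((3 ^ d + 1) * (ℓ : ℝ) ^ d * lam) * Lq := by
      calc _ ≤ 3 ^ d * (ℓ : ℝ) ^ d * L + (ℓ : ℝ) ^ d * L := by linarith
        _ = (3 ^ d + 1) * (ℓ : ℝ) ^ d * L := by ring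
        _ = _ := by rw [hLlam]; ring
    exact le_of_mul_le_mul_right h2 hLq0
  have he₁0 : (0 : ℝ) ≤ e₁ := Nat.cast_nonneg _
  have he₂0 : (0 : ℝ) ≤ e₂ := Nat.cast_nonneg _
  have hW0 : (0 : ℝ) ≤ W := Nat.cast_nonneg _
  have hK0 : 0 < K := by linarith
  obtain ⟨G, hG⟩ : ∃ G : ℝ, G = n * m := ⟨_, rfl⟩
  rw [← hG] at hlt hWlam
  have hG0 : 0 < G := by rw [hG]; positivity
  have hWl : W * lam < 2 * ℓ * G / K := by
    rw [lt_div_iff₀ hK0]
    linarith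
  -- (b)
  have hb : (e₁ : ℝ) * (2 * (3 ^ d * (2 * d) * W / ℓ)) ≤ 4 * D * E * G / K := by
    calc (e₁ : ℝ) * (2 * (3 ^ d * (2 * d) * W / ℓ)) = 2 * D * e₁ * W / ℓ := by rw [hD]; ring
      _ ≤ 2 * D * (E * lam) * W / ℓ := by gcongr
      _ = 2 * D * E * (W * lam) / ℓ := by ring
      _ ≤ 2 * D * E * (2 * ℓ * G / K) / ℓ := by gcongr
      _ = _ := by field_simp; ring
  -- (c)
  have hc' : (e₁ : ℝ) * 3 ^ d ≤ 2 * 3 ^ d * E * G / K := by
    have h1 : lam ≤ 2 * ℓ / K := by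
      have h2 : G * lam ≤ G * (2 * ℓ / K) := by
        calc G * lam ≤ W * lam := by rw [hG]; gcongr
          _ ≤ 2 * ℓ * G / K := hWl.le
          _ = _ := by ring
      exact le_of_mul_le_mul_left h2 hG0
    have h2 : (ℓ : ℝ) ≤ G := by
      have h3 : (ℓ : ℝ) ≤ n := by exact_mod_cast (by omega : ℓ ≤ n)
      have h4 : (n : ℝ) * 1 ≤ n * m := mul_le_mul_of_nonneg_left (by exact_mod_cast hm) hn0.le
      rw [hG]
      linarith
    calc (e₁ : ℝ) * 3 ^ d ≤ (E * (2 * ℓ / K)) * 3 ^ d := by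
          gcongr
          exact he₁.trans (by gcongr)
      _ ≤ (E * (2 * G / K)) * 3 ^ d := by gcongr
      _ = _ := by ring
  -- (d)
  have hd : ((e₁ : ℝ) * (W / τ) + e₂ * (W / τ)) ≤ 4 * (E + (3 ^ d + 1)) * G / K := by
    have hτr : (n : ℝ) / 512 ≤ τ := by
      have h1 : n ≤ 512 * τ := by omega
      have h2 : (n : ℝ) ≤ 512 * τ := by exact_mod_cast h1
      linarith
    have e3 : (e₁ : ℝ) + e₂ ≤ (E + (3 ^ d + 1)) * ((ℓ : ℝ) ^ d * lam) := by
      have e4 : E * lam * 1 ≤ E * lam * (ℓ : ℝ) ^ d := mul_le_mul_of_nonneg_left hℓdr (by positivity)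
      calc (e₁ : ℝ) + e₂ ≤ E * lam * (ℓ : ℝ) ^ d + (3 ^ d + 1) * (ℓ : ℝ) ^ d * lam := by linarith
        _ = _ := by ring
    have e5 : 256 * ((ℓ : ℝ) ^ d * ℓ) ≤ n := by
      rw [← pow_succ]
      exact_mod_cast hℓ2
    calc ((e₁ : ℝ) * (W / τ) + e₂ * (W / τ)) = ((e₁ : ℝ) + e₂) * (W / τ) := by ring
      _ ≤ ((E + (3 ^ d + 1)) * ((ℓ : ℝ) ^ d * lam)) * (W / (n / 512)) := by gcongr
      _ = (E + (3 ^ d + 1)) * (ℓ : ℝ) ^ d * 512 * (W * lam) / n := by field_simp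
      _ ≤ (E + (3 ^ d + 1)) * (ℓ : ℝ) ^ d * 512 * (2 * ℓ * G / K) / n := by gcongr
      _ = (E + (3 ^ d + 1)) * 4 * G / K * (256 * ((ℓ : ℝ) ^ d * ℓ)) / n := by ring
      _ ≤ (E + (3 ^ d + 1)) * 4 * G / K * n / n := by gcongr
      _ = _ := by field_simp
  have hfin : 16 * (e₁ * (2 * (3 ^ d * (2 * d) * (W : ℝ) / ℓ) + 3 ^ d + W / τ) + e₂ * (W / τ)) <
      ((m * n : ℕ) : ℝ) := by
    calc 16 * (e₁ * (2 * (3 ^ d * (2 * d) * (W : ℝ) / ℓ) + 3 ^ d + W / τ) + e₂ * (W / τ)) =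
          16 * ((e₁ : ℝ) * (2 * (3 ^ d * (2 * d) * W / ℓ)) + (e₁ : ℝ) * 3 ^ d +
            ((e₁ : ℝ) * (W / τ) + e₂ * (W / τ))) := by ring
      _ ≤ 16 * (4 * D * E * G / K + 2 * 3 ^ d * E * G / K + 4 * (E + (3 ^ d + 1)) * G / K) := by
          gcongr
      _ = (32 * (4 * D * E + 2 * 3 ^ d * E + 4 * (E + (3 ^ d + 1)))) * G / (2 * K) := by
          field_simp; ring
      _ = G / 2 := by rw [← hK]; field_simp
      _ < G := by linarith
      _ = _ := by rw [hG]; push_cast; ring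
  refine mv_few M (hM (by omega)) Q (by omega) hτ0 hτn hT hκ (numV_of (by omega) hτ0 hfin)
    (e₁ := e₁) (e₂ := e₂) (π := π) (by rw [hee₂]; exact Nat.le_pow_clog (by omega) _)
    (by rw [hee₁]; exact Nat.le_pow_clog (by omega) _) ?_
  rw [card_flat (F := F) (fun v => Q.Computes v (mv M v) T W), Nat.card_eq_fintype_card,
    Fintype.card_subtype] at hr
  refine le_trans (le_of_eq ?_) (hr.trans (le_of_eq ?_))
  · rw [Fintype.card_fun, Fintype.card_fun, Fintype.card_fin, Fintype.card_fin, ← pow_mul]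
  · congr!

end Pool.Agent.H363D
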