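import Mathlib

/-!
# Machines with a memory in `d`-dimensional space: definitions
-/

set_option autoImplicit false

namespace Pool.Agent.H363D

/-- The cells: the points of the lattice `ℤ ^ d`. -/
abbrev Cell (d : ℕ) := Fin d → ℤ

/-- The cells `u` and `v` are neighbours (or equal): all coordinates differ by at most one. -/
def Near {d : ℕ} (u v : Cell d) : Prop := ∀ i, |u i - v i| ≤ 1

/-- A machine whose memory is the lattice `ℤ ^ d`; every cell is in one of the states `Γ`. The
inputs are indexed by `ι`, the outputs by `ω`, and have values in `α`. In every step each cell `v`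
may read one input `rd t v σ`, assumes the new state `nx t v σ a` and may write a value for an
output, `wr t v σ a`, where `σ` is the present configuration and `a` is the value of the input which
was read, if any. All this is arbitrary (it may depend on the time `t` and on the position `v`) except
that it depends only on the states of the neighbours of `v`. At the beginning all cells but the origin
are blank, and a blank cell with blank neighbours stays blank, and does not read or write. -/
structure Machine (d : ℕ) (ι ω α Γ : Type) where
  /-- the blank state -/
  blank : Γ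
  /-- the initial state of the origin -/
  seed : Γ
  /-- the input which is read -/
  rd : ℕ → Cell d → (Cell d → Γ) → Option ι
  /-- the new state -/
  nx : ℕ → Cell d → (Cell d → Γ) → Option α → Γ
  /-- the output which is written -/
  wr : ℕ → Cell d → (Cell d → Γ) → Option α → Option (ω × α)
  rd_near : ∀ t v σ σ', (∀ u, Near u v → σ u = σ' u) → rd t v σ = rd t v σ'
  nx_near : ∀ t v σ σ' a, (∀ u, Near u v → σ u = σ' u) → nx t v σ a = nx t v σ' a
  wr_near : ∀ t v σ σ' a, (∀ u, Near u v → σ u = σ' u) → wr t v σ a = wr t v σ' a
  quiet : ∀ t v σ, (∀ u, Near u v → σ u = blank) →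
    rd t v σ = none ∧ nx t v σ none = blank ∧ wr t v σ none = none

variable {d : ℕ} {ι ω α Γ : Type}

/-- The initial configuration. -/
def Machine.init (M : Machine d ι ω α Γ) (v : Cell d) : Γ := if v = 0 then M.seed else M.blank

/-- The value of the input which is read by the cell `v` in the configuration `σ`, if any. -/
def Machine.inp (M : Machine d ι ω α Γ) (x : ι → α) (t : ℕ) (σ : Cell d → Γ) (v : Cell d) :
    Option α := (M.rd t v σ).map x

/-- The configuration at the time `t`, on the input `x`. -/
def Machine.conf (M : Machine d ι ω α Γ) (x : ι → α) : ℕ → Cell d → Γ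
  | 0 => M.init
  | t + 1 => fun v => M.nx t v (M.conf x t) (M.inp x t (M.conf x t) v)

/-- In the step `t` the cell `v` writes the value `a` for the output `o`. -/
def Machine.Writes (M : Machine d ι ω α Γ) (x : ι → α) (t : ℕ) (v : Cell d) (o : ω) (a : α) :
    Prop := M.wr t v (M.conf x t) (M.inp x t (M.conf x t) v) = some (o, a)

/-- In the step `t` the cell `v` is active: it changes its state, or reads, or writes. -/
def Machine.Active (M : Machine d ι ω α Γ) (x : ι → α) (t : ℕ) (v : Cell d) : Prop :=
  M.conf x (t + 1) v ≠ M.conf x t v ∨ M.rd t v (M.conf x t) ≠ none ∨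
    M.wr t v (M.conf x t) (M.inp x t (M.conf x t) v) ≠ none

/-- On the input `x`, in `T` steps with at most `W` activations of cells, the machine writes the
right value `y o` for every output `o`, and no wrong values. -/
def Machine.Computes (M : Machine d ι ω α Γ) (x : ι → α) (y : ω → α) (T W : ℕ) : Prop :=
  (∃ S : Finset (ℕ × Cell d), S.card ≤ W ∧ ∀ t < T, ∀ v, M.Active x t v → (t, v) ∈ S) ∧
    (∀ t < T, ∀ v o a, M.Writes x t v o a → a = y o) ∧
    ∀ o, ∃ t < T, ∃ v, M.Writes x t v o (y o)

end Pool.Agent.H363D
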