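import Pool.Agent.H363D.Engine

/-!
# The union bound over the windows
-/

set_option autoImplicit false

open Finset

namespace Pool.Agent.H363D

open Pool.Agent.W896.MO

variable {d : ℕ} {ι ω α Γ : Type}

open Classical in
/-- **The union bound over the windows.** -/
theorem union_windows [Fintype Γ] [Fintype ω] {Ω : Type} [Fintype Ω] {M : Machine d ι ω α Γ}
    {X : Ω → ι → α} {f : (ι → α) → ω → α} {Cnt : Ω → ω → Prop} {Gd : Ω → Prop}
    {T W ℓ τ N₀ : ℕ} {thr : ℕ → ℕ → Bool → ℕ} (hℓ : 0 < ℓ) (hτ : 0 < τ)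
    (hnum : NumW d ℓ τ W thr N₀)
    (hN : ∀ y, Gd y → N₀ ≤ (univ.filter (fun o => Cnt y o)).card) (Kb : ℕ → Bool → ℕ)
    (hK : ∀ n ≤ τ + ℓ ^ d, ∀ x c, ∀ Rel, Proc Rel →
      (univ.filter (fun y => Gd y ∧ Good X f Cnt n (thr n x c) Rel y)).card ≤ Kb x c) :
    (univ.filter (fun y => Gd y ∧ M.Computes (X y) (f (X y)) T W)).card ≤
      ∑ x ∈ range (W + 1), ((ℓ * (2 * T + 1) ^ d * (T + 1) ^ 2 * (τ + ℓ ^ d + 1)) *
        (T * ((2 * T + 1) ^ d * Fintype.card Γ)) ^ x) *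
        (Kb x false + Fintype.card Γ ^ ((ℓ + 2) ^ d) * Kb x true) := by
  -- the indices
  obtain ⟨I, hI⟩ : ∃ I : ℕ → Finset (ℕ × Cell d × ℕ × ℕ × ℕ × Finset (ℕ × Cell d × Γ)),
    ∀ x, I x = range ℓ ×ˢ (box d T ×ˢ (range (T + 1) ×ˢ (range (T + 1) ×ˢ
      (range (τ + ℓ ^ d + 1) ×ˢ (U d T Γ).powersetCard x)))) := ⟨_, fun _ => rfl⟩
  have hIc : ∀ x, (I x).card ≤ (ℓ * (2 * T + 1) ^ d * (T + 1) ^ 2 * (τ + ℓ ^ d + 1)) *
      (T * ((2 * T + 1) ^ d * Fintype.card Γ)) ^ x := by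
    intro x
    rw [hI, card_product, card_product, card_product, card_product, card_product, card_range,
      card_box, card_range, card_range, card_powersetCard, card_U]
    calc _ = (ℓ * (2 * T + 1) ^ d * (T + 1) ^ 2 * (τ + ℓ ^ d + 1)) *
          (T * ((2 * T + 1) ^ d * Fintype.card Γ)).choose x := by ring
      _ ≤ _ := Nat.mul_le_mul_left _ (Nat.choose_le_pow _ _)
  obtain ⟨A, hA⟩ : ∃ A : ℕ → (ℕ × Cell d × ℕ × ℕ × ℕ × Finset (ℕ × Cell d × Γ)) → Finset Ω,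
    ∀ x i, A x i = (univ.filter (fun y => Gd y ∧ Good X f Cnt i.2.2.2.2.1
      (thr i.2.2.2.2.1 x false) (proc M ℓ i.1 i.2.1 i.2.2.2.2.2 i.2.2.2.1 0 M.init) y)) ∪
      (univ : Finset ((Fin d → Fin (ℓ + 2)) → Γ)).biUnion (fun g =>
        univ.filter (fun y => Gd y ∧ Good X f Cnt i.2.2.2.2.1
          (thr i.2.2.2.2.1 x true) (proc M ℓ i.1 i.2.1 i.2.2.2.2.2 (i.2.2.2.1 - i.2.2.1) i.2.2.1
            (cont ℓ i.1 (blk ℓ i.1 i.2.1) g M.blank)) y)) := ⟨_, fun _ _ => rfl⟩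
  have hAc : ∀ x, ∀ i ∈ I x, (A x i).card ≤
      Kb x false + Fintype.card Γ ^ ((ℓ + 2) ^ d) * Kb x true := by
    intro x i hi
    rw [hI] at hi
    simp only [mem_product, mem_range] at hi
    have hn : i.2.2.2.2.1 ≤ τ + ℓ ^ d := by omega
    rw [hA]
    refine (card_union_le _ _).trans (Nat.add_le_add ?_ ?_)
    · exact hK _ hn x false _ (proc_relOf _ _ _ _ _ _)
    · have h1 := card_biUnion_le_card_mul (univ : Finset ((Fin d → Fin (ℓ + 2)) → Γ)) (fun g =>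
        univ.filter (fun y => Gd y ∧ Good X f Cnt i.2.2.2.2.1
          (thr i.2.2.2.2.1 x true) (proc M ℓ i.1 i.2.1 i.2.2.2.2.2 (i.2.2.2.1 - i.2.2.1) i.2.2.1
            (cont ℓ i.1 (blk ℓ i.1 i.2.1) g M.blank)) y)) (Kb x true)
        (fun g _ => hK _ hn x true _ (proc_relOf _ _ _ _ _ _))
      rw [card_univ, Fintype.card_fun, Fintype.card_fun, Fintype.card_fin, Fintype.card_fin] at h1
      exact h1
  have hsub : univ.filter (fun y => Gd y ∧ M.Computes (X y) (f (X y)) T W) ⊆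
      (range (W + 1)).biUnion (fun x => (I x).biUnion (A x)) := by
    intro y hy
    rw [mem_filter] at hy
    obtain ⟨θ, hθ, u, hu, a, ha, b, hb, x, hx, n, hn, L, hL, hor⟩ :=
      exists_good hℓ hτ hnum (hN y hy.2.1) hy.2.2
    rw [mem_biUnion]
    refine ⟨x, hx, ?_⟩
    rw [mem_biUnion]
    refine ⟨(θ, u, a, b, n, L), ?_, ?_⟩
    · rw [hI]
      simp only [mem_product]
      exact ⟨hθ, hu, ha, hb, hn, hL⟩
    · rw [hA, mem_union]
      rcases hor with h | ⟨g, h⟩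
      · left
        rw [mem_filter]
        exact ⟨mem_univ _, hy.2.1, h⟩
      · right
        rw [mem_biUnion]
        refine ⟨g, mem_univ _, ?_⟩
        rw [mem_filter]
        exact ⟨mem_univ _, hy.2.1, h⟩
  refine (card_le_card hsub).trans (card_biUnion_le.trans (sum_le_sum fun x _ => ?_))
  refine (card_biUnion_le_card_mul _ _ _ (hAc x)).trans ?_
  exact Nat.mul_le_mul_right _ (hIc x)

/-- The sum in the union bound. -/
theorem sum_bound {Ω B V Q κ' m π : ℕ} {e₁ e₂ q : ℕ} (K : ℕ → Bool → ℕ) (hq : 0 < q)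
    (hK0 : ∀ x, K x false * q ^ (e₁ * (x + 1)) ≤ 2 * Ω)
    (hK1 : ∀ x, K x true * q ^ (e₁ * (x + 1) + e₂) ≤ 2 * Ω)
    (hQ : Q = q ^ e₁) (hκ : κ' ≤ q ^ e₂) (hB : 1 ≤ B) (hV : 1 ≤ V)
    (hbig : 2 ^ (π + 6) * (B * V) ≤ Q) :
    2 ^ (π + 2) * ∑ x ∈ range m, (B * V ^ x) * (K x false + κ' * K x true) ≤ Ω := by
  have hterm : ∀ x, (2 : ℝ) ^ (π + 2) * ((B * V ^ x) * (K x false + κ' * K x true)) ≤
      (1 / 4) * (1 / 2) ^ x * Ω := by
    intro x
    have hqr : (0 : ℝ) < q := by exact_mod_cast hq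
    have hBr : (1 : ℝ) ≤ B := by exact_mod_cast hB
    have hVr : (1 : ℝ) ≤ V := by exact_mod_cast hV
    have h0 : (K x false : ℝ) * (Q : ℝ) ^ (x + 1) ≤ 2 * Ω := by
      have h := hK0 x
      rw [pow_mul, ← hQ] at h
      exact_mod_cast h
    have h1 : (κ' : ℝ) * K x true * (Q : ℝ) ^ (x + 1) ≤ 2 * Ω := by
      have h := hK1 x
      rw [pow_add, pow_mul, ← hQ] at h
      have h2 : κ' * K x true * Q ^ (x + 1) ≤ K x true * (Q ^ (x + 1) * q ^ e₂) := by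
        calc κ' * K x true * Q ^ (x + 1) = κ' * (K x true * Q ^ (x + 1)) := by ring
          _ ≤ q ^ e₂ * (K x true * Q ^ (x + 1)) := Nat.mul_le_mul_right _ hκ
          _ = _ := by ring
      exact_mod_cast h2.trans h
    have hQr : (2 : ℝ) ^ (π + 6) * (B * V) ≤ Q := by exact_mod_cast hbig
    have hQ0 : (0 : ℝ) < Q := lt_of_lt_of_le (by positivity) hQr
    have hs : ((K x false : ℝ) + κ' * K x true) * (Q : ℝ) ^ (x + 1) ≤ 4 * Ω := by linarith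
    have hQp : ((2 : ℝ) ^ (π + 6) * (B * V)) ^ (x + 1) ≤ (Q : ℝ) ^ (x + 1) :=
      pow_le_pow_left₀ (by positivity) hQr _
    have hlow : (2 : ℝ) ^ (π + 6) * 2 ^ x * (B * V ^ x) ≤
        ((2 : ℝ) ^ (π + 6) * (B * V)) ^ (x + 1) := by
      rw [pow_succ ((2 : ℝ) ^ (π + 6) * (B * V)) x, mul_pow ((2 : ℝ) ^ (π + 6)) _ x,
        mul_pow (B : ℝ) _ x]
      have e1 : (2 : ℝ) ^ x ≤ ((2 : ℝ) ^ (π + 6)) ^ x :=
        pow_le_pow_left₀ (by norm_num) (by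
          calc (2 : ℝ) = 2 ^ 1 := by norm_num
            _ ≤ 2 ^ (π + 6) := pow_le_pow_right₀ (by norm_num) (by omega)) _
      have e2 : (1 : ℝ) ≤ (B : ℝ) ^ x := one_le_pow₀ hBr
      have e3 : (0 : ℝ) < (V : ℝ) ^ x := by positivity
      calc (2 : ℝ) ^ (π + 6) * 2 ^ x * (B * V ^ x) =
            2 ^ x * (1 * V ^ x) * (2 ^ (π + 6) * (B * 1)) := by ring
        _ ≤ (2 ^ (π + 6)) ^ x * (B ^ x * V ^ x) * (2 ^ (π + 6) * (B * V)) := by
            gcongr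
    have hsum0 : (0 : ℝ) ≤ (K x false : ℝ) + κ' * K x true := by positivity
    have hfin : (2 : ℝ) ^ (π + 6) * 2 ^ x * (B * V ^ x) * ((K x false : ℝ) + κ' * K x true) ≤
        4 * Ω := by
      calc _ ≤ (Q : ℝ) ^ (x + 1) * ((K x false : ℝ) + κ' * K x true) :=
            mul_le_mul_of_nonneg_right (hlow.trans hQp) hsum0
        _ = ((K x false : ℝ) + κ' * K x true) * (Q : ℝ) ^ (x + 1) := mul_comm _ _
        _ ≤ _ := hs
    have h2x : (0 : ℝ) < 2 ^ x := by positivity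
    have e4 : (2 : ℝ) ^ (π + 6) = 2 ^ (π + 2) * 16 := by rw [pow_add, pow_add]; ring
    rw [e4] at hfin
    have e5 : (1 / 4 : ℝ) * (1 / 2) ^ x * Ω = (4 * Ω) / (16 * 2 ^ x) := by
      rw [one_div_pow]
      field_simp
      ring
    rw [e5, le_div_iff₀ (by positivity)]
    calc _ = 2 ^ (π + 2) * 16 * 2 ^ x * (B * V ^ x) * ((K x false : ℝ) + κ' * K x true) := by ring
      _ ≤ _ := hfin
  have hsum : (2 : ℝ) ^ (π + 2) * ∑ x ∈ range m, (((B : ℝ) * (V : ℝ) ^ x) *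
      ((K x false : ℝ) + (κ' : ℝ) * (K x true : ℝ))) ≤ (Ω : ℝ) := by
    rw [mul_sum]
    calc _ ≤ ∑ x ∈ range m, (1 / 4 : ℝ) * (1 / 2) ^ x * Ω := sum_le_sum fun x _ => hterm x
      _ = (1 / 4) * (∑ x ∈ range m, (1 / 2 : ℝ) ^ x) * Ω := by rw [mul_sum, sum_mul]
      _ ≤ (1 / 4) * 2 * Ω := by
          have := sum_geometric_two_le m
          have hΩ : (0 : ℝ) ≤ Ω := Nat.cast_nonneg _
          gcongr
      _ ≤ Ω := by
          have hΩ : (0 : ℝ) ≤ Ω := Nat.cast_nonneg _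
          linarith
  exact_mod_cast hsum

end Pool.Agent.H363D
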