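import Pool.Agent.H363D.Win2
import Pool.Agent.H363D.Union

/-!
# The procedures of the windows, and the union bound
-/

set_option autoImplicit false

open Finset

namespace Pool.Agent.H363D.Xi

open Pool.Agent.W896.MO

variable {d : ℕ} {ι ω α Γ : Type}

/-- The simulation of a window is correct. -/
theorem window_sim [Fintype Γ] [DecidableEq Γ] {M : Machine d ι ω α Γ} {x : ι → α} {T ℓ θ τ ξ : ℕ}
    {S : Finset (ℕ × Cell d)} (hS : IsAct M x T S) (hℓ : 0 < ℓ)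
    {w : Cell d × ℕ} (hw : w ∈ wins ℓ θ τ ξ S) :
    ∃ (u : Cell d) (L : Finset (ℕ × Cell d × Γ)) (a b : ℕ), u ∈ box d T ∧ blk ℓ θ u = w.1 ∧
      L ∈ (U d T Γ).powersetCard (xs ℓ θ τ ξ S w).card ∧ a ≤ b ∧ b ≤ T ∧ (w.2 = 0 → a = 0) ∧
      (∀ σ : Cell d → Γ, (∀ v, NearB (cells ℓ θ w.1) v → σ v = M.conf x a v) →
        proc M ℓ θ u L (b - a) a σ x (real M x (cells ℓ θ w.1) (b - a) a)) ∧
      (real M x (cells ℓ θ w.1) (b - a) a).length ≤ 4 * nw ℓ θ τ ξ S w ∧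
      (∀ p ∈ S, blk ℓ θ p.2 = w.1 → win ℓ θ τ ξ S w.1 p.1 = w.2 → a ≤ p.1 ∧ p.1 < a + (b - a)) ∧
      (∀ t, a ≤ t → t < a + (b - a) → t < T) := by
  obtain ⟨a, b, hab, hbT, ha0, hint⟩ :=
    exists_interval (win ℓ θ τ ξ S w.1) (win_mono ℓ θ τ ξ S w.1) w.2 T
  have hw' := hw
  unfold wins at hw'
  rw [mem_image] at hw'
  obtain ⟨p, hp, hpw⟩ := hw'
  have hp1 : blk ℓ θ p.2 = w.1 := congrArg Prod.fst hpw
  obtain ⟨L, hL⟩ : ∃ L : Finset (ℕ × Cell d × Γ), L = (xs ℓ θ τ ξ S w).image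
    (fun p => (p.1, p.2, M.conf x (p.1 + 1) p.2)) := ⟨_, rfl⟩
  have hxs : ∀ p ∈ xs ℓ θ τ ξ S w, p ∈ S := fun p hp => by
    unfold xs at hp
    exact (mem_filter.1 hp).1
  have hLmem : ∀ s v γ, (s, v, γ) ∈ L → (s, v) ∈ xs ℓ θ τ ξ S w ∧ γ = M.conf x (s + 1) v := by
    intro s v γ h
    rw [hL, mem_image] at h
    obtain ⟨q, h1, h2⟩ := h
    simp only [Prod.mk.injEq] at h2
    obtain ⟨rfl, rfl, rfl⟩ := h2
    exact ⟨h1, rfl⟩
  refine ⟨p.2, L, a, b, active_box ((hS p).1 hp).1 ((hS p).1 hp).2, hp1, ?_, hab, hbT, ha0,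
    ?_, ?_, ?_, ?_⟩
  · rw [mem_powersetCard]
    constructor
    · rintro ⟨s, v, γ⟩ h
      have h1 := (hS _).1 (hxs _ (hLmem s v γ h).1)
      unfold U
      rw [mem_product, mem_product, mem_range]
      exact ⟨h1.1, active_box h1.1 h1.2, mem_univ _⟩
    · rw [hL, card_image_of_injective]
      intro q q' h
      simp only [Prod.mk.injEq] at h
      exact Prod.ext h.1 h.2.1
  · intro σ hσ
    unfold proc relOf
    rw [hp1]
    apply sim_eq
    · exact hσ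
    · intro s h1 h2 v hv hnv
      have hsT : s < T := by omega
      have hwin : win ℓ θ τ ξ S w.1 s = w.2 := (hint s hsT).1 ⟨h1, by omega⟩
      by_cases hact : M.Active x s v
      · have h3 : (s, v) ∈ xs ℓ θ τ ξ S w := by
          unfold xs
          rw [mem_filter]
          exact ⟨(hS (s, v)).2 ⟨hsT, hact⟩, (mem_ob hℓ).2 ⟨hv, hnv⟩, hwin⟩
        have h4 : (s, v, M.conf x (s + 1) v) ∈ L := by
          rw [hL]
          exact mem_image_of_mem (fun p : ℕ × Cell d => (p.1, p.2, M.conf x (p.1 + 1) p.2)) h3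
        obtain ⟨γ', h5, h6⟩ := chg_some h4
        rw [h5, Option.getD_some]
        exact (hLmem s v γ' h6).2
      · have h3 : chg L s v = none := by
          apply chg_none
          intro γ h
          have h4 := (hS _).1 (hxs _ (hLmem s v γ h).1)
          exact hact h4.2
        rw [h3, Option.getD_none]
        unfold Machine.Active at hact
        push Not at hact
        exact hact.1.symm
  · have h1 := real_length (M := M) (x := x) (cells_nodup ℓ θ w.1) S (b - a) a (by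
      intro s _ h2 v _ hact
      exact (hS (s, v)).2 ⟨by omega, hact⟩)
    refine h1.trans ?_
    have h2 : (S.filter (fun p => a ≤ p.1 ∧ p.1 < a + (b - a) ∧ p.2 ∈ cells ℓ θ w.1)).card ≤
        nw ℓ θ τ ξ S w := by
      unfold nw
      apply card_le_card
      intro q hq
      rw [mem_filter] at hq ⊢
      refine ⟨hq.1, (mem_cells hℓ).1 hq.2.2.2, ?_⟩
      exact (hint q.1 (((hS q).1 hq.1).1)).1 ⟨hq.2.1, by omega⟩
    omega
  · intro q hq _ h2
    have := (hint q.1 (((hS q).1 hq).1)).2 h2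
    omega
  · intro t h1 h2
    omega

/-- The conditions on the numbers of the windows. -/
def NumW (d ℓ τ ξ W : ℕ) (thr : ℕ → ℕ → Bool → ℕ) (N₀ : ℕ) : Prop :=
  ∀ (I : Finset (Cell d × ℕ)) (nn xx : Cell d × ℕ → ℕ) (B : ℕ), ∑ w ∈ I, nn w ≤ W →
    (∀ w ∈ I, nn w ≤ τ + ℓ ^ d) → (∀ w ∈ I, xx w ≤ ξ + (ℓ + 2) ^ d) →
    ∑ w ∈ I, xx w ≤ B → ℓ * B ≤ 3 ^ d * (2 * d) * W →
    (I.filter (fun w => w.2 ≠ 0)).card ≤ W / τ + B / ξ →
    (I.filter (fun w => w.2 = 0)).card ≤ 3 ^ d + ∑ w ∈ I, xx w →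
    ∑ w ∈ I, (thr (nn w) (xx w) (decide (w.2 ≠ 0)) - 1) < N₀

open Classical in
/-- One of the windows is good. -/
theorem exists_good [Fintype Γ] [Fintype ω] {Ω : Type} {M : Machine d ι ω α Γ}
    {X : Ω → ι → α} {f : (ι → α) → ω → α} {Cnt : Ω → ω → Prop} {y : Ω} {T W ℓ τ ξ N₀ : ℕ}
    {thr : ℕ → ℕ → Bool → ℕ} (hℓ : 0 < ℓ) (hτ : 0 < τ) (hξ : 0 < ξ)
    (hnum : NumW d ℓ τ ξ W thr N₀)
    (hN : N₀ ≤ (univ.filter (fun o => Cnt y o)).card)
    (h : M.Computes (X y) (f (X y)) T W) :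
    ∃ θ ∈ range ℓ, ∃ u ∈ box d T, ∃ a ∈ range (T + 1), ∃ b ∈ range (T + 1),
      ∃ x ∈ range (ξ + (ℓ + 2) ^ d + 1), ∃ n ∈ range (τ + ℓ ^ d + 1), ∃ L ∈ (U d T Γ).powersetCard x,
        Good X f Cnt n (thr n x false) (proc M ℓ θ u L b 0 M.init) y ∨
        ∃ g : (Fin d → Fin (ℓ + 2)) → Γ, Good X f Cnt n (thr n x true)
          (proc M ℓ θ u L (b - a) a (cont ℓ θ (blk ℓ θ u) g M.blank)) y := by
  obtain ⟨⟨S₀, hS₀, hact⟩, hright, hall⟩ := h
  obtain ⟨S, hSdef⟩ : ∃ S, S = S₀.filter (fun p => p.1 < T ∧ M.Active (X y) p.1 p.2) := ⟨_, rfl⟩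
  have hS : IsAct M (X y) T S := by
    intro p
    rw [hSdef, mem_filter]
    exact ⟨fun h => h.2, fun h => ⟨hact p.1 h.1 p.2 h.2, h⟩⟩
  have hSW : S.card ≤ W := by
    rw [hSdef]
    exact (card_filter_le _ _).trans hS₀
  obtain ⟨θ, hθ, hshift⟩ := exists_shift hℓ S
  have hST : ∀ p ∈ S, p.1 < T := fun p hp => ((hS p).1 hp).1
  have hx1 := sum_xs ℓ θ τ ξ S
  have hnum' := hnum (wins ℓ θ τ ξ S) (nw ℓ θ τ ξ S) (fun w => (xs ℓ θ τ ξ S w).card)
    (∑ p ∈ S, (ob ℓ θ p.2).card)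
    ((sum_nw ℓ θ τ ξ S).trans hSW) (fun w hw => nw_le hℓ hτ hw) (fun w _ => xs_le hℓ hξ w)
    hx1 (hshift.trans (Nat.mul_le_mul_left _ hSW))
    ((late_card hST hτ hξ).trans (Nat.add_le_add_right (Nat.div_le_div_right hSW) _))
    (early_card hS hℓ)
  -- the data of the windows
  have hdata := fun w : {w // w ∈ wins ℓ θ τ ξ S} => window_sim (τ := τ) (ξ := ξ) hS hℓ w.2
  choose u L a b hu hk hL hab hbT ha0 hproc hlen hin hT using hdata
  obtain ⟨out, hout⟩ : ∃ out : {w // w ∈ wins ℓ θ τ ξ S} → Finset ω, ∀ w, out w =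
    univ.filter (fun o => Cnt y o ∧ some (.inr (o, f (X y) o)) ∈
      real M (X y) (cells ℓ θ w.1.1) (b w - a w) (a w)) := ⟨_, fun _ => rfl⟩
  have hex : ∃ w : {w // w ∈ wins ℓ θ τ ξ S},
      thr (nw ℓ θ τ ξ S w.1) (xs ℓ θ τ ξ S w.1).card (decide (w.1.2 ≠ 0)) ≤ (out w).card := by
    by_contra hcon
    push Not at hcon
    have h1 : univ.filter (fun o => Cnt y o) ⊆
        (univ : Finset {w // w ∈ wins ℓ θ τ ξ S}).biUnion out := by
      intro o ho
      rw [mem_filter] at ho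
      obtain ⟨t, ht, v, hv⟩ := hall o
      have hactv : M.Active (X y) t v := by
        unfold Machine.Active
        right; right
        unfold Machine.Writes at hv
        rw [hv]
        simp
      have hpS : (t, v) ∈ S := (hS (t, v)).2 ⟨ht, hactv⟩
      have hw : (blk ℓ θ v, win ℓ θ τ ξ S (blk ℓ θ v) t) ∈ wins ℓ θ τ ξ S := by
        unfold wins
        exact mem_image_of_mem (fun p : ℕ × Cell d =>
          (blk ℓ θ p.2, win ℓ θ τ ξ S (blk ℓ θ p.2) p.1)) hpS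
      rw [mem_biUnion]
      refine ⟨⟨_, hw⟩, mem_univ _, ?_⟩
      rw [hout, mem_filter]
      refine ⟨mem_univ _, ho.2, ?_⟩
      rw [mem_real]
      have h2 := hin ⟨_, hw⟩ (t, v) hpS rfl rfl
      exact ⟨t, h2.1, h2.2, v, (mem_cells hℓ).2 rfl, mem_ev1_inr.2 hv⟩
    have h2 : (univ.filter (fun o => Cnt y o)).card ≤
        ∑ w ∈ wins ℓ θ τ ξ S, (thr (nw ℓ θ τ ξ S w) (xs ℓ θ τ ξ S w).card (decide (w.2 ≠ 0)) - 1) := by
      calc _ ≤ _ := card_le_card h1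
        _ ≤ ∑ w : {w // w ∈ wins ℓ θ τ ξ S}, (out w).card := card_biUnion_le
        _ ≤ ∑ w : {w // w ∈ wins ℓ θ τ ξ S},
            (thr (nw ℓ θ τ ξ S w.1) (xs ℓ θ τ ξ S w.1).card (decide (w.1.2 ≠ 0)) - 1) := by
            apply sum_le_sum
            intro w _
            have := hcon w
            omega
        _ = _ := sum_coe_sort (wins ℓ θ τ ξ S) (fun w => thr (nw ℓ θ τ ξ S w) (xs ℓ θ τ ξ S w).card
            (decide (w.2 ≠ 0)) - 1)
    omega
  obtain ⟨w, hw⟩ := hex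
  refine ⟨θ, mem_range.2 hθ, u w, hu w, a w, mem_range.2 (by have := hab w; have := hbT w; omega),
    b w, mem_range.2 (by have := hbT w; omega), (xs ℓ θ τ ξ S w.1).card, mem_range.2 ?_,
    nw ℓ θ τ ξ S w.1, mem_range.2 ?_, L w, hL w, ?_⟩
  · have := xs_le (θ := θ) (τ := τ) (S := S) hℓ hξ w.1
    omega
  · have := nw_le (θ := θ) hℓ hτ w.2
    omega
  · have hgood : ∀ Rel : (ι → α) → List (Option (Ev ι ω α)) → Prop,
        Rel (X y) (real M (X y) (cells ℓ θ w.1.1) (b w - a w) (a w)) →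
        Good X f Cnt (nw ℓ θ τ ξ S w.1) (thr (nw ℓ θ τ ξ S w.1) (xs ℓ θ τ ξ S w.1).card
          (decide (w.1.2 ≠ 0))) Rel y := by
      intro Rel hRel
      refine ⟨_, hRel, hlen w, ?_, out w, hw, ?_⟩
      · intro o v hv
        rw [mem_real] at hv
        obtain ⟨s, h1, h2, c, h3, h4⟩ := hv
        exact hright s (hT w s h1 h2) c o v (mem_ev1_inr.1 h4)
      · intro o ho
        rw [hout, mem_filter] at ho
        exact ho.2
    by_cases h0 : w.1.2 = 0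
    · left
      have ha := ha0 w h0
      have h1 := hproc w M.init (by
        intro v _
        rw [ha]
        rfl)
      have h2 := hgood _ h1
      have h3 : decide (w.1.2 ≠ 0) = false := by simp [h0]
      rw [h3, ha, Nat.sub_zero] at h2
      exact h2
    · right
      obtain ⟨g, hg⟩ := exists_cont (ℓ := ℓ) (θ := θ) w.1.1 M.blank (M.conf (X y) (a w))
      refine ⟨g, ?_⟩
      have h1 := hproc w (cont ℓ θ w.1.1 g M.blank) hg
      have h2 := hgood _ h1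
      have h3 : decide (w.1.2 ≠ 0) = true := by simp [h0]
      rw [h3] at h2
      rw [hk w]
      exact h2

end Pool.Agent.H363D.Xi
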