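import Pool.Agent.H363D.Sim

/-!
# Blocks of cells
-/

set_option autoImplicit false

open Finset

namespace Pool.Agent.H363D

variable {d : ℕ}

/-- The block of the cell `v`: cubes of side `ℓ`, shifted by `θ` in the diagonal direction. -/
def blk (ℓ θ : ℕ) (v : Cell d) : Cell d := fun i => (v i + θ) / (ℓ : ℤ)

/-- The cells of a block. -/
noncomputable def cells (ℓ θ : ℕ) (k : Cell d) : List (Cell d) :=
  (Fintype.piFinset (fun i => Finset.Ico (k i * ℓ - θ) (k i * ℓ - θ + ℓ))).toList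

theorem mem_cells {ℓ θ : ℕ} (hℓ : 0 < ℓ) {k v : Cell d} : v ∈ cells ℓ θ k ↔ blk ℓ θ v = k := by
  unfold cells blk
  rw [mem_toList, Fintype.mem_piFinset, funext_iff]
  refine forall_congr' fun i => ?_
  rw [mem_Ico]
  have hℓ' : (0 : ℤ) < ℓ := by exact_mod_cast hℓ
  constructor
  · rintro ⟨h1, h2⟩
    apply le_antisymm
    · have : (v i + θ) / (ℓ : ℤ) < k i + 1 := by
        rw [Int.ediv_lt_iff_lt_mul hℓ']
        linarith [add_mul (k i) 1 (ℓ : ℤ)]
      omega
    · rw [Int.le_ediv_iff_mul_le hℓ']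
      linarith
  · intro h
    have h1 : k i ≤ (v i + θ) / (ℓ : ℤ) := h.ge
    have h2 : (v i + θ) / (ℓ : ℤ) < k i + 1 := by omega
    rw [Int.le_ediv_iff_mul_le hℓ'] at h1
    rw [Int.ediv_lt_iff_lt_mul hℓ'] at h2
    constructor
    · linarith
    · linarith [add_mul (k i) 1 (ℓ : ℤ)]

theorem cells_nodup (ℓ θ : ℕ) (k : Cell d) : (cells ℓ θ k).Nodup := Finset.nodup_toList _

theorem cells_length (ℓ θ : ℕ) (k : Cell d) : (cells ℓ θ k).length = ℓ ^ d := by
  unfold cells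
  rw [length_toList, Fintype.card_piFinset]
  simp

theorem Near.symm {u v : Cell d} (h : Near u v) : Near v u := by
  intro i
  rw [abs_sub_comm]
  exact h i

/-- The neighbours of a cell. -/
noncomputable def nb (v : Cell d) : Finset (Cell d) :=
  Fintype.piFinset (fun i => Finset.Icc (v i - 1) (v i + 1))

theorem mem_nb {u v : Cell d} : u ∈ nb v ↔ Near u v := by
  unfold nb Near
  rw [Fintype.mem_piFinset]
  refine forall_congr' fun i => ?_
  rw [mem_Icc, abs_le]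
  omega

theorem card_nb (v : Cell d) : (nb v).card = 3 ^ d := by
  unfold nb
  rw [Fintype.card_piFinset]
  have h : ∀ i, (Finset.Icc (v i - 1) (v i + 1)).card = 3 := by
    intro i
    rw [Int.card_Icc]
    omega
  simp only [h, prod_const, card_univ, Fintype.card_fin]

/-- The other blocks near the cell `v`. -/
noncomputable def ob (ℓ θ : ℕ) (v : Cell d) : Finset (Cell d) :=
  ((nb v).image (blk ℓ θ)).erase (blk ℓ θ v)

theorem mem_ob {ℓ θ : ℕ} (hℓ : 0 < ℓ) {v k : Cell d} :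
    k ∈ ob ℓ θ v ↔ v ∉ cells ℓ θ k ∧ NearB (cells ℓ θ k) v := by
  unfold ob NearB
  rw [mem_erase, mem_image, mem_cells hℓ]
  constructor
  · rintro ⟨h1, u, h2, h3⟩
    exact ⟨fun h => h1 h.symm, u, (mem_cells hℓ).2 h3, (mem_nb.1 h2).symm⟩
  · rintro ⟨h1, u, h2, h3⟩
    exact ⟨fun h => h1 h.symm, u, mem_nb.2 h3.symm, (mem_cells hℓ).1 h2⟩

theorem ob_card (ℓ θ : ℕ) (v : Cell d) : (ob ℓ θ v).card ≤ 3 ^ d := by
  unfold ob
  refine (card_erase_le).trans (card_image_le.trans ?_)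
  rw [card_nb]

theorem ediv_same {a b : ℤ} {ℓ : ℕ} (hℓ : 0 < ℓ) (hab : |b - a| ≤ 1) (h0 : a % ℓ ≠ 0)
    (h1 : a % ℓ ≠ ℓ - 1) : b / (ℓ : ℤ) = a / ℓ := by
  have hℓ' : (0 : ℤ) < ℓ := by exact_mod_cast hℓ
  have e1 := Int.emod_add_mul_ediv a ℓ
  have e2 := Int.emod_nonneg a hℓ'.ne'
  have e3 := Int.emod_lt_of_pos a hℓ'
  rw [abs_le] at hab
  apply le_antisymm
  · have : b / (ℓ : ℤ) < a / ℓ + 1 := by
      rw [Int.ediv_lt_iff_lt_mul hℓ', add_mul, mul_comm (a / (ℓ : ℤ))]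
      omega
    omega
  · rw [Int.le_ediv_iff_mul_le hℓ', mul_comm]
    omega

theorem ob_empty {ℓ θ : ℕ} (hℓ : 0 < ℓ) {v : Cell d}
    (h : ∀ i, (v i + θ) % (ℓ : ℤ) ≠ 0 ∧ (v i + θ) % (ℓ : ℤ) ≠ ℓ - 1) : ob ℓ θ v = ∅ := by
  rw [eq_empty_iff_forall_notMem]
  intro k hk
  unfold ob at hk
  rw [mem_erase, mem_image] at hk
  obtain ⟨h1, u, h2, h3⟩ := hk
  apply h1
  rw [← h3]
  funext i
  unfold blk
  apply ediv_same hℓ _ (h i).1 (h i).2
  have := (mem_nb.1 h2) i
  rw [add_sub_add_right_eq_sub]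
  exact this

theorem shift_unique {ℓ : ℕ} (a r : ℤ) :
    ((range ℓ).filter (fun θ : ℕ => (a + θ) % (ℓ : ℤ) = r)).card ≤ 1 := by
  rw [card_le_one]
  intro θ hθ θ' hθ'
  rw [mem_filter, mem_range] at hθ hθ'
  have h1 : (a + θ) % (ℓ : ℤ) = (a + θ') % (ℓ : ℤ) := hθ.2.trans hθ'.2.symm
  have h2 := Int.emod_emod_of_dvd
  have h3 : ((a + θ) - (a + θ')) % (ℓ : ℤ) = 0 := by
    rw [Int.sub_emod, h1, sub_self, Int.zero_emod]
  have h4 : (ℓ : ℤ) ∣ (θ : ℤ) - θ' := by
    have := Int.dvd_of_emod_eq_zero h3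
    rwa [add_sub_add_left_eq_sub] at this
  obtain ⟨c, hc⟩ := h4
  have hb1 := hθ.1
  have hb2 := hθ'.1
  have hc0 : c = 0 := by
    by_contra hne
    rcases lt_or_gt_of_ne hne with h | h
    · have : (ℓ : ℤ) * c ≤ ℓ * (-1) := mul_le_mul_of_nonneg_left (by omega) (by positivity)
      omega
    · have : (ℓ : ℤ) * 1 ≤ ℓ * c := mul_le_mul_of_nonneg_left (by omega) (by positivity)
      omega
  rw [hc0, mul_zero] at hc
  omega

theorem shift_sum {ℓ : ℕ} (hℓ : 0 < ℓ) (v : Cell d) :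
    ∑ θ ∈ range ℓ, (ob ℓ θ v).card ≤ 3 ^ d * (2 * d) := by
  classical
  obtain ⟨B, hB⟩ : ∃ B : Finset ℕ, B = (range ℓ).filter (fun θ : ℕ =>
    ∃ i, (v i + θ) % (ℓ : ℤ) = 0 ∨ (v i + θ) % (ℓ : ℤ) = ℓ - 1) := ⟨_, rfl⟩
  have h1 : ∑ θ ∈ range ℓ, (ob ℓ θ v).card ≤ ∑ θ ∈ range ℓ, if θ ∈ B then 3 ^ d else 0 := by
    apply sum_le_sum
    intro θ hθ
    split_ifs with h
    · exact ob_card ℓ θ v
    · rw [ob_empty hℓ, card_empty]
      intro i
      rw [hB, mem_filter] at h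
      push Not at h
      exact h hθ i
  refine h1.trans ?_
  rw [← sum_filter, sum_const, smul_eq_mul, mul_comm]
  apply Nat.mul_le_mul_left
  have h2 : (range ℓ).filter (fun θ => θ ∈ B) ⊆ (univ : Finset (Fin d)).biUnion (fun i =>
      ((range ℓ).filter (fun θ : ℕ => (v i + θ) % (ℓ : ℤ) = 0)) ∪
        ((range ℓ).filter (fun θ : ℕ => (v i + θ) % (ℓ : ℤ) = ℓ - 1))) := by
    intro θ hθ
    rw [mem_filter, hB, mem_filter] at hθ
    obtain ⟨h0, -, i, hi⟩ := hθ
    rw [mem_biUnion]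
    refine ⟨i, mem_univ _, ?_⟩
    rw [mem_union, mem_filter, mem_filter]
    tauto
  calc _ ≤ _ := card_le_card h2
    _ ≤ ∑ _i : Fin d, 2 := by
        refine card_biUnion_le.trans (sum_le_sum fun i _ => ?_)
        refine (card_union_le _ _).trans ?_
        have := shift_unique (ℓ := ℓ) (v i) 0
        have := shift_unique (ℓ := ℓ) (v i) (ℓ - 1)
        omega
    _ = 2 * d := by
        rw [sum_const, card_univ, Fintype.card_fin, smul_eq_mul, mul_comm]

/-- A shift for which few cells are near other blocks. -/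
theorem exists_shift {ℓ : ℕ} (hℓ : 0 < ℓ) (S : Finset (ℕ × Cell d)) :
    ∃ θ < ℓ, ℓ * ∑ p ∈ S, (ob ℓ θ p.2).card ≤ 3 ^ d * (2 * d) * S.card := by
  by_contra hcon
  push Not at hcon
  have h1 : ∑ θ ∈ range ℓ, ∑ p ∈ S, (ob ℓ θ p.2).card ≤ 3 ^ d * (2 * d) * S.card := by
    rw [sum_comm]
    calc _ ≤ ∑ _p ∈ S, 3 ^ d * (2 * d) := sum_le_sum fun p _ => shift_sum hℓ p.2
      _ = _ := by rw [sum_const, smul_eq_mul, mul_comm]
  have h2 : ∑ θ ∈ range ℓ, (3 ^ d * (2 * d) * S.card) <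
      ∑ θ ∈ range ℓ, ℓ * ∑ p ∈ S, (ob ℓ θ p.2).card := by
    apply sum_lt_sum_of_nonempty
    · rw [nonempty_range_iff]
      omega
    · intro θ hθ
      exact hcon θ (mem_range.1 hθ)
  rw [sum_const, card_range, smul_eq_mul, ← mul_sum] at h2
  have h3 := lt_of_mul_lt_mul_left h2 (Nat.zero_le _)
  omega

/-! ### Contents -/

open Classical in
/-- The content of a block and of the neighbouring cells, given by an array. -/
noncomputable def cont {Γ : Type} (ℓ θ : ℕ) (k : Cell d) (g : (Fin d → Fin (ℓ + 2)) → Γ)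
    (bl : Γ) (v : Cell d) : Γ :=
  if h : ∀ i, 0 ≤ v i - (k i * ℓ - θ - 1) ∧ v i - (k i * ℓ - θ - 1) < ℓ + 2 then
    g (fun i => ⟨(v i - (k i * ℓ - θ - 1)).toNat, by
      have := h i
      omega⟩) else bl

theorem exists_cont {Γ : Type} {ℓ θ : ℕ} (k : Cell d) (bl : Γ) (σ : Cell d → Γ) :
    ∃ g : (Fin d → Fin (ℓ + 2)) → Γ, ∀ v, NearB (cells ℓ θ k) v → cont ℓ θ k g bl v = σ v := by
  refine ⟨fun j => σ (fun i => (k i * ℓ - θ - 1) + ((j i : ℕ) : ℤ)), ?_⟩
  rintro v ⟨u, hu, huv⟩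
  have h : ∀ i, 0 ≤ v i - (k i * ℓ - θ - 1) ∧ v i - (k i * ℓ - θ - 1) < ℓ + 2 := by
    intro i
    unfold cells at hu
    rw [mem_toList, Fintype.mem_piFinset] at hu
    have h1 := hu i
    rw [mem_Ico] at h1
    have h2 := huv i
    rw [abs_le] at h2
    omega
  unfold cont
  rw [dif_pos h]
  refine congrArg σ ?_
  funext i
  have := h i
  simp only
  omega

/-- Cells near the origin. -/
noncomputable def box (d T : ℕ) : Finset (Cell d) :=
  Fintype.piFinset (fun _ => Finset.Icc (-(T : ℤ)) T)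

theorem mem_box {T : ℕ} {v : Cell d} : v ∈ box d T ↔ ∀ i, |v i| ≤ T := by
  unfold box
  rw [Fintype.mem_piFinset]
  refine forall_congr' fun i => ?_
  rw [mem_Icc, abs_le]

theorem card_box (T : ℕ) : (box d T).card = (2 * T + 1) ^ d := by
  unfold box
  rw [Fintype.card_piFinset]
  have h : (Finset.Icc (-(T : ℤ)) T).card = 2 * T + 1 := by
    rw [Int.card_Icc]
    omega
  simp only [h, prod_const, card_univ, Fintype.card_fin]

variable {ι ω α Γ : Type}

theorem active_near {M : Machine d ι ω α Γ} {x : ι → α} {t : ℕ} {v : Cell d}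
    (h : M.Active x t v) : ∃ u, Near u v ∧ M.conf x t u ≠ M.blank := by
  by_contra hcon
  push Not at hcon
  obtain ⟨h1, h2, h3⟩ := M.quiet t v (M.conf x t) hcon
  have h4 : M.inp x t (M.conf x t) v = none := by
    unfold Machine.inp
    rw [h1]
    rfl
  unfold Machine.Active at h
  rw [h4] at h
  rcases h with h | h | h
  · apply h
    change M.nx t v (M.conf x t) (M.inp x t (M.conf x t) v) = _
    rw [h4, h2, hcon v (near_refl v)]
  · exact h h1
  · exact h h3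

theorem conf_box {M : Machine d ι ω α Γ} {x : ι → α} : ∀ (t : ℕ) (v : Cell d),
    M.conf x t v ≠ M.blank → v ∈ box d t := by
  intro t
  induction t with
  | zero =>
    intro v hv
    rw [Machine.conf, Machine.init] at hv
    by_cases h : v = 0
    · rw [h, mem_box]
      intro i
      simp
    · rw [if_neg h] at hv
      exact absurd rfl hv
  | succ t ih =>
    intro v hv
    have h1 : ∃ u, Near u v ∧ M.conf x t u ≠ M.blank := by
      by_cases h : M.conf x (t + 1) v = M.conf x t v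
      · exact ⟨v, near_refl v, by rwa [← h]⟩
      · exact active_near (Or.inl h)
    obtain ⟨u, h2, h3⟩ := h1
    have h4 := ih u h3
    rw [mem_box] at h4 ⊢
    intro i
    have h5 := h4 i
    have h6 := h2 i
    rw [abs_le] at h5 h6 ⊢
    push_cast
    omega

theorem active_box {M : Machine d ι ω α Γ} {x : ι → α} {t T : ℕ} {v : Cell d} (ht : t < T)
    (h : M.Active x t v) : v ∈ box d T := by
  obtain ⟨u, h2, h3⟩ := active_near h
  have h4 := conf_box t u h3
  rw [mem_box] at h4 ⊢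
  intro i
  have h5 := h4 i
  have h6 := h2 i
  rw [abs_le] at h5 h6 ⊢
  omega

end Pool.Agent.H363D
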