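import Pool.Agent.H363D.Union

/-!
# The numbers of the windows
-/

set_option autoImplicit false

open Finset

namespace Pool.Agent.H363D

/-- The threshold for the number of the outputs of a window. -/
def thr (n e₁ e₂ : ℕ) (a x : ℕ) (c : Bool) : ℕ :=
  2 ^ 15 * a ^ 2 / n ^ 2 + 1 + 64 * (e₁ * (x + 1) + if c = true then e₂ else 0)

theorem thr_quad {n e₁ e₂ : ℕ} (hn : 1 ≤ n) (a x : ℕ) (c : Bool) :
    2 ^ 15 * a ^ 2 ≤ thr n e₁ e₂ a x c * n ^ 2 := by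
  have h0 : 0 < n ^ 2 := by positivity
  have h1 : 2 ^ 15 * a ^ 2 < n ^ 2 * (2 ^ 15 * a ^ 2 / n ^ 2 + 1) := Nat.lt_mul_div_succ _ h0
  unfold thr
  rw [mul_comm _ (n ^ 2), mul_add]
  omega

theorem thr_div {n e₁ e₂ : ℕ} (a x : ℕ) (c : Bool) :
    e₁ * (x + 1) + (if c = true then e₂ else 0) ≤ thr n e₁ e₂ a x c / 64 := by
  unfold thr
  generalize 2 ^ 15 * a ^ 2 / n ^ 2 = A
  rw [Nat.le_div_iff_mul_le (by norm_num)]
  omega

theorem numW_of {d ℓ τ W n e₁ e₂ : ℕ} (hn : 1 ≤ n) (hℓ : 0 < ℓ) (hτ : 0 < τ)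
    (h : 2 ^ 15 * ((τ : ℝ) + (ℓ : ℝ) ^ d) * W / (n : ℝ) ^ 2 +
      64 * (e₁ * (2 * (3 ^ d * (2 * d) * W / ℓ) + 3 ^ d + W / τ) + e₂ * (W / τ)) <
        (n : ℝ) ^ 2) : NumW d ℓ τ W (thr n e₁ e₂) (n ^ 2) := by
  intro I nn xx h1 h2 h3 h4 h5
  have hnr : (0 : ℝ) < (n : ℝ) ^ 2 := by positivity
  have hℓr : (0 : ℝ) < ℓ := by exact_mod_cast hℓ
  have hτr : (0 : ℝ) < τ := by exact_mod_cast hτ
  obtain ⟨late, hlate⟩ : ∃ late, late = (I.filter (fun w => w.2 ≠ 0)).card := ⟨_, rfl⟩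
  obtain ⟨early, hearly⟩ : ∃ early, early = (I.filter (fun w => w.2 = 0)).card := ⟨_, rfl⟩
  obtain ⟨X, hX⟩ : ∃ X, X = ∑ w ∈ I, xx w := ⟨_, rfl⟩
  rw [← hlate] at h4
  rw [← hearly, ← hX] at h5
  rw [← hX] at h3
  have hI : I.card = early + late := by
    have := card_filter_add_card_filter_not (s := I) (fun w => w.2 = 0)
    rw [← hearly] at this
    rw [hlate]
    exact this.symm
  -- the quadratic part
  have hquad : (∑ w ∈ I, ((2 ^ 15 * nn w ^ 2 / n ^ 2 : ℕ) : ℝ)) ≤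
      2 ^ 15 * ((τ : ℝ) + (ℓ : ℝ) ^ d) * W / (n : ℝ) ^ 2 := by
    rw [le_div_iff₀ hnr, sum_mul]
    calc ∑ w ∈ I, ((2 ^ 15 * nn w ^ 2 / n ^ 2 : ℕ) : ℝ) * (n : ℝ) ^ 2 ≤
          ∑ w ∈ I, (2 ^ 15 * ((τ : ℝ) + (ℓ : ℝ) ^ d)) * nn w := by
          apply sum_le_sum
          intro w hw
          have e1 : (2 ^ 15 * nn w ^ 2 / n ^ 2) * n ^ 2 ≤ 2 ^ 15 * (τ + ℓ ^ d) * nn w := by
            calc _ ≤ 2 ^ 15 * nn w ^ 2 := Nat.div_mul_le_self _ _
              _ = 2 ^ 15 * nn w * nn w := by ring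
              _ ≤ _ := Nat.mul_le_mul_right _ (Nat.mul_le_mul_left _ (h2 w hw))
          exact_mod_cast e1
      _ = (2 ^ 15 * ((τ : ℝ) + (ℓ : ℝ) ^ d)) * ∑ w ∈ I, (nn w : ℝ) := by rw [mul_sum]
      _ ≤ _ := by
          apply mul_le_mul_of_nonneg_left _ (by positivity)
          exact_mod_cast h1
  have hXr : (X : ℝ) ≤ 3 ^ d * (2 * d) * W / ℓ := by
    rw [le_div_iff₀ hℓr, mul_comm]
    exact_mod_cast h3
  have hlr : (late : ℝ) ≤ W / τ := by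
    rw [le_div_iff₀ hτr]
    exact_mod_cast h4
  have her : (early : ℝ) ≤ 3 ^ d + X := by exact_mod_cast h5
  -- the sum
  have hsum : ∑ w ∈ I, (thr n e₁ e₂ (nn w) (xx w) (decide (w.2 ≠ 0)) - 1) =
      ∑ w ∈ I, (2 ^ 15 * nn w ^ 2 / n ^ 2) + 64 * (e₁ * (X + I.card) + e₂ * late) := by
    have e1 : ∀ w ∈ I, thr n e₁ e₂ (nn w) (xx w) (decide (w.2 ≠ 0)) - 1 =
        2 ^ 15 * nn w ^ 2 / n ^ 2 + (64 * (e₁ * (xx w + 1)) + 64 * (if w.2 ≠ 0 then e₂ else 0)) := by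
      intro w _
      unfold thr
      generalize 2 ^ 15 * nn w ^ 2 / n ^ 2 = A
      generalize e₁ * (xx w + 1) = B
      by_cases h0 : w.2 = 0
      · simp only [h0, ne_eq, not_true_eq_false, decide_false, if_false, Bool.false_eq_true]
        omega
      · simp only [h0, ne_eq, not_false_eq_true, decide_true, if_true]
        omega
    rw [sum_congr rfl e1, sum_add_distrib, sum_add_distrib, ← mul_sum, ← mul_sum, ← mul_sum,
      sum_add_distrib, ← hX, sum_const, smul_eq_mul, mul_one, ← sum_filter, sum_const, ← hlate,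
      smul_eq_mul]
    ring
  rw [hsum, hI]
  have hgoal : (∑ w ∈ I, ((2 ^ 15 * nn w ^ 2 / n ^ 2 : ℕ) : ℝ)) +
      64 * (e₁ * ((X : ℝ) + (early + late)) + e₂ * late) < (n : ℝ) ^ 2 := by
    refine lt_of_le_of_lt ?_ h
    apply add_le_add hquad
    apply mul_le_mul_of_nonneg_left _ (by norm_num)
    apply add_le_add
    · apply mul_le_mul_of_nonneg_left _ (by positivity)
      linarith
    · exact mul_le_mul_of_nonneg_left hlr (by positivity)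
  exact_mod_cast hgoal

end Pool.Agent.H363D
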