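import Pool.Agent.H363D.Num

/-!
# The choice of the sizes of the windows
-/

set_option autoImplicit false

open Finset

namespace Pool.Agent.H363D

theorem clog_bound {q X : ℕ} (hq : 2 ≤ q) (hX : 1 ≤ X) :
    (Nat.clog q X : ℝ) * Real.logb 2 q ≤ Real.logb 2 X + Real.logb 2 q := by
  have hq1 : 0 ≤ Real.logb 2 (q : ℝ) :=
    Real.logb_nonneg (by norm_num) (by exact_mod_cast (by omega : 1 ≤ q))
  rcases eq_or_lt_of_le hX with h | h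
  · rw [← h]
    simp [hq1]
  · have h1 := Nat.pow_pred_clog_lt_self (b := q) (x := X) (by omega) h
    have h2 : 0 < Nat.clog q X := Nat.clog_pos (by omega) h
    have h3 : ((Nat.clog q X).pred : ℝ) * Real.logb 2 q ≤ Real.logb 2 X := by
      rw [← Real.logb_pow]
      apply Real.logb_le_logb_of_le (by norm_num)
      · have : (0 : ℝ) < q := by exact_mod_cast (by omega : 0 < q)
        positivity
      · exact_mod_cast h1.le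
    have h4 : ((Nat.clog q X).pred : ℝ) = (Nat.clog q X : ℝ) - 1 := by
      rw [Nat.pred_eq_sub_one, Nat.cast_sub (by omega)]
      simp
    rw [h4, sub_mul, one_mul] at h3
    linarith

/-- The size of the union bound. -/
def bigX (d ℓ τ T κ π : ℕ) : ℕ :=
  2 ^ (π + 6) * ((ℓ * (2 * T + 1) ^ d * (T + 1) ^ 2 * (τ + ℓ ^ d + 1)) *
    (T * ((2 * T + 1) ^ d * κ)))

theorem bigX_le {d ℓ τ T κ π A : ℕ} {L : ℝ} (hT : 1 ≤ T) (hκ : 1 ≤ κ) (hL1 : 1 ≤ L)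
    (hLT : Real.logb 2 T ≤ L) (hLκ : Real.logb 2 κ ≤ L) (hLπ : (π : ℝ) ≤ L)
    (hn : A ≤ T * (2 * T + 1) ^ d) (hℓ : ℓ ≤ A) (hτ : τ ≤ A) (hℓτ : ℓ ^ d ≤ A)
    (hn1 : 1 ≤ A) :
    Real.logb 2 (bigX d ℓ τ T κ π) ≤ (17 + 12 * d) * L ∨ ℓ = 0 := by
  rcases Nat.eq_zero_or_pos ℓ with h0 | h0
  · exact Or.inr h0
  left
  obtain ⟨Y, hY⟩ : ∃ Y : ℝ, Y = (2 : ℝ) ^ L := ⟨_, rfl⟩
  have y0 : 0 < Y := by rw [hY]; positivity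
  have y2 : (2 : ℝ) ≤ Y := by
    rw [hY]
    calc (2 : ℝ) = (2 : ℝ) ^ (1 : ℝ) := (Real.rpow_one 2).symm
      _ ≤ _ := Real.rpow_le_rpow_of_exponent_le (by norm_num) hL1
  have yof : ∀ m : ℕ, 1 ≤ m → Real.logb 2 (m : ℝ) ≤ L → (m : ℝ) ≤ Y := by
    intro m hm h
    rw [Real.logb_le_iff_le_rpow (by norm_num) (by exact_mod_cast hm)] at h
    rw [hY]
    exact h
  have yT := yof T hT hLT
  have yκ := yof κ hκ hLκ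
  have yπ : (2 : ℝ) ^ π ≤ Y := by
    rw [hY, ← Real.rpow_natCast]
    exact Real.rpow_le_rpow_of_exponent_le (by norm_num) hLπ
  have hT' : (1 : ℝ) ≤ T := by exact_mod_cast hT
  have y3 : (2 * (T : ℝ) + 1) ≤ Y ^ 3 := by
    calc 2 * (T : ℝ) + 1 ≤ 4 * T := by linarith
      _ = 2 * 2 * T := by ring
      _ ≤ Y * Y * Y := by gcongr
      _ = Y ^ 3 := by ring
  have y3d : (2 * (T : ℝ) + 1) ^ d ≤ Y ^ (3 * d) := by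
    rw [pow_mul]
    exact pow_le_pow_left₀ (by positivity) y3 d
  have yn : (A : ℝ) ≤ Y ^ (1 + 3 * d) := by
    have e1 : (A : ℝ) ≤ T * (2 * (T : ℝ) + 1) ^ d := by exact_mod_cast hn
    calc (A : ℝ) ≤ T * (2 * (T : ℝ) + 1) ^ d := e1
      _ ≤ Y * Y ^ (3 * d) := by gcongr
      _ = _ := by rw [pow_add, pow_one]
  have yℓ : (ℓ : ℝ) ≤ Y ^ (1 + 3 * d) := le_trans (by exact_mod_cast hℓ) yn
  have yT2 : ((T : ℝ) + 1) ^ 2 ≤ Y ^ 4 := by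
    calc ((T : ℝ) + 1) ^ 2 ≤ (2 * T) ^ 2 := by gcongr; linarith
      _ ≤ (Y * Y) ^ 2 := by gcongr
      _ = Y ^ 4 := by ring
  have yτ : (τ : ℝ) + (ℓ : ℝ) ^ d + 1 ≤ Y ^ (3 + 3 * d) := by
    have e1 : (τ : ℝ) ≤ A := by exact_mod_cast hτ
    have e2 : (ℓ : ℝ) ^ d ≤ A := by exact_mod_cast hℓτ
    have e3 : (1 : ℝ) ≤ A := by exact_mod_cast hn1
    calc (τ : ℝ) + (ℓ : ℝ) ^ d + 1 ≤ 2 * 2 * A := by linarith
      _ ≤ Y * Y * Y ^ (1 + 3 * d) := by gcongr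
      _ = _ := by rw [pow_add, pow_add, pow_one]; ring
  have y7 : (2 : ℝ) ^ (π + 6) ≤ Y ^ 7 := by
    rw [pow_add]
    calc (2 : ℝ) ^ π * 2 ^ 6 ≤ Y * Y ^ 6 := by gcongr
      _ = _ := by ring
  have hfin : ((bigX d ℓ τ T κ π : ℕ) : ℝ) ≤ Y ^ (17 + 12 * d) := by
    unfold bigX
    push_cast
    calc (2 : ℝ) ^ (π + 6) * (((ℓ : ℝ) * (2 * T + 1) ^ d * (T + 1) ^ 2 * (τ + (ℓ : ℝ) ^ d + 1)) *
          (T * ((2 * T + 1) ^ d * κ))) ≤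
        Y ^ 7 * ((Y ^ (1 + 3 * d) * Y ^ (3 * d) * Y ^ 4 * Y ^ (3 + 3 * d)) *
          (Y * (Y ^ (3 * d) * Y))) := by gcongr
      _ = Y ^ (17 + 12 * d) := by
        rw [show 17 + 12 * d = 17 + d * 12 by ring, show 1 + 3 * d = 1 + d * 3 by ring,
          show 3 + 3 * d = 3 + d * 3 by ring, show 3 * d = d * 3 by ring]
        simp only [pow_add, pow_mul]
        ring
  have hpos : 1 ≤ bigX d ℓ τ T κ π := by
    unfold bigX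
    exact Nat.one_le_iff_ne_zero.2 (by positivity)
  calc Real.logb 2 (bigX d ℓ τ T κ π) ≤ Real.logb 2 (Y ^ (17 + 12 * d)) :=
        Real.logb_le_logb_of_le (by norm_num) (by exact_mod_cast hpos) hfin
    _ = (17 + 12 * d) * L := by
        rw [Real.logb_pow, hY, Real.logb_rpow (by norm_num) (by norm_num)]
        push_cast
        ring

/-- **The choice of the sizes.** -/
theorem choose_params (d : ℕ) : ∃ C : ℝ, 0 < C ∧ ∀ (n T W κ π q : ℕ), 1 ≤ n → 1 ≤ T → 1 ≤ κ →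
    2 ≤ q → n ^ 2 ≤ W → n ^ 2 ≤ T * (2 * T + 1) ^ d →
    C * (W : ℝ) ^ (d + 2) *
      (Real.logb 2 κ + Real.logb 2 T + π + Real.logb 2 q) ^ (d + 1) <
        (n : ℝ) ^ (2 * d + 6) * (Real.logb 2 q) ^ (d + 1) →
    ∃ ℓ τ e₁ e₂ : ℕ, 0 < ℓ ∧ 0 < τ ∧ κ ^ ((ℓ + 2) ^ d) ≤ q ^ e₂ ∧
      bigX d ℓ τ T κ π ≤ q ^ e₁ ∧
      2 ^ 15 * ((τ : ℝ) + (ℓ : ℝ) ^ d) * W / (n : ℝ) ^ 2 +
        64 * (e₁ * (2 * (3 ^ d * (2 * d) * W / ℓ) + 3 ^ d + W / τ) + e₂ * (W / τ)) <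
          (n : ℝ) ^ 2 ∧ 20 ≤ n := by
  obtain ⟨E, hE⟩ : ∃ E : ℝ, E = 18 + 12 * d := ⟨_, rfl⟩
  obtain ⟨D, hD⟩ : ∃ D : ℝ, D = 3 ^ d * (2 * d) := ⟨_, rfl⟩
  obtain ⟨K₁, hK₁⟩ : ∃ K₁ : ℝ, K₁ = 1024 * E * D + 1 := ⟨_, rfl⟩
  obtain ⟨K₂, hK₂⟩ : ∃ K₂ : ℝ, K₂ = 512 * (E + (3 ^ d + 1)) := ⟨_, rfl⟩
  have hE0 : 18 ≤ E := by
    rw [hE]
    have : (0 : ℝ) ≤ d := Nat.cast_nonneg d
    linarith
  have hD0 : 0 ≤ D := by rw [hD]; positivity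
  have hK₁1 : 1 ≤ K₁ := by
    rw [hK₁]
    have : 0 ≤ 1024 * E * D := by positivity
    linarith
  have hK₂1 : 1 ≤ K₂ := by
    rw [hK₂]
    have : (0 : ℝ) ≤ 3 ^ d := by positivity
    linarith
  refine ⟨2 ^ 20 * K₂ * (2 * K₁) ^ d + 512 * E * 3 ^ d + 2 * K₁ + 400, by positivity, ?_⟩
  intro n T W κ π q hn hT hκ hq hW hout hsmall
  have hnr : (1 : ℝ) ≤ n := by exact_mod_cast hn
  have hq1 : 1 ≤ Real.logb 2 (q : ℝ) := by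
    rw [Real.le_logb_iff_rpow_le (by norm_num) (by exact_mod_cast (by omega : 0 < q))]
    simp only [Real.rpow_one]
    exact_mod_cast hq
  obtain ⟨Lq, hLq⟩ : ∃ Lq, Lq = Real.logb 2 (q : ℝ) := ⟨_, rfl⟩
  obtain ⟨L, hL⟩ : ∃ L, L = Real.logb 2 κ + Real.logb 2 T + π + Real.logb 2 q := ⟨_, rfl⟩
  have hκ0 : 0 ≤ Real.logb 2 (κ : ℝ) := Real.logb_nonneg (by norm_num) (by exact_mod_cast hκ)
  have hT0 : 0 ≤ Real.logb 2 (T : ℝ) := Real.logb_nonneg (by norm_num) (by exact_mod_cast hT)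
  have hπ0 : (0 : ℝ) ≤ π := Nat.cast_nonneg _
  rw [← hL, ← hLq] at hsmall
  have hLL : Lq ≤ L := by rw [hL, hLq]; linarith
  have hLq1 : 1 ≤ Lq := by rw [hLq]; exact hq1
  have hLq0 : 0 < Lq := by linarith
  obtain ⟨lam, hlam⟩ : ∃ lam, lam = L / Lq := ⟨_, rfl⟩
  have hlam1 : 1 ≤ lam := by rw [hlam, le_div_iff₀ hLq0]; linarith
  have hLlam : L = lam * Lq := by rw [hlam]; field_simp
  obtain ⟨w, hw⟩ : ∃ w : ℝ, w = W / (n : ℝ) ^ 2 := ⟨_, rfl⟩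
  have hn2 : (0 : ℝ) < (n : ℝ) ^ 2 := by positivity
  have hWw : (W : ℝ) = w * (n : ℝ) ^ 2 := by rw [hw]; field_simp
  have hw1 : 1 ≤ w := by
    rw [hw, le_div_iff₀ hn2, one_mul]
    exact_mod_cast hW
  obtain ⟨Z, hZ⟩ : ∃ Z : ℝ, Z = lam ^ (d + 1) * w ^ (d + 2) := ⟨_, rfl⟩
  have hkey : (2 ^ 20 * K₂ * (2 * K₁) ^ d + 512 * E * 3 ^ d + 2 * K₁ + 400) * Z <
      (n : ℝ) ^ 2 := by
    have h1 : (n : ℝ) ^ (2 * d + 6) = ((n : ℝ) ^ 2) ^ (d + 2) * (n : ℝ) ^ 2 := by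
      rw [← pow_mul, ← pow_add]
      congr 1
    rw [hWw, hLlam, mul_pow w, mul_pow lam, h1] at hsmall
    have h2 : 0 < ((n : ℝ) ^ 2) ^ (d + 2) * Lq ^ (d + 1) := by positivity
    refine lt_of_mul_lt_mul_right ?_ h2.le
    calc _ = (2 ^ 20 * K₂ * (2 * K₁) ^ d + 512 * E * 3 ^ d + 2 * K₁ + 400) *
          (w ^ (d + 2) * ((n : ℝ) ^ 2) ^ (d + 2)) * (lam ^ (d + 1) * Lq ^ (d + 1)) := by
          rw [hZ]; ring
      _ < _ := hsmall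
      _ = _ := by ring
  have hlamZ : lam * w ≤ Z := by
    rw [hZ]
    have e1 : lam ≤ lam ^ (d + 1) := le_self_pow₀ hlam1 (by omega)
    have e2 : w ≤ w ^ (d + 2) := le_self_pow₀ hw1 (by omega)
    exact mul_le_mul e1 e2 (by linarith) (by positivity)
  have hZ1 : 1 ≤ Z := by
    calc (1 : ℝ) = 1 * 1 := by ring
      _ ≤ lam * w := mul_le_mul hlam1 hw1 (by norm_num) (by linarith)
      _ ≤ Z := hlamZ
  have hlam0 : 0 < lam := by linarith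
  have hw0 : 0 < w := by linarith
  have hlamZ' : lam ≤ Z := by
    refine le_trans ?_ hlamZ
    exact le_mul_of_one_le_right hlam0.le hw1
  -- the parts of the main inequality
  have hp1 : 2 ^ 20 * K₂ * (2 * K₁) ^ d * Z < (n : ℝ) ^ 2 := by
    refine lt_of_le_of_lt ?_ hkey
    apply mul_le_mul_of_nonneg_right _ (by linarith)
    have : 0 ≤ 512 * E * 3 ^ d := by positivity
    linarith
  have hp2 : 512 * E * 3 ^ d * Z < (n : ℝ) ^ 2 := by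
    refine lt_of_le_of_lt ?_ hkey
    apply mul_le_mul_of_nonneg_right _ (by linarith)
    have : 0 ≤ 2 ^ 20 * K₂ * (2 * K₁) ^ d := by positivity
    linarith
  have hp3 : 2 * K₁ * Z < (n : ℝ) ^ 2 := by
    refine lt_of_le_of_lt ?_ hkey
    apply mul_le_mul_of_nonneg_right _ (by linarith)
    have : 0 ≤ 2 ^ 20 * K₂ * (2 * K₁) ^ d := by positivity
    have : 0 ≤ 512 * E * 3 ^ d := by positivity
    linarith
  have hp4 : 400 * Z < (n : ℝ) ^ 2 := by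
    refine lt_of_le_of_lt ?_ hkey
    apply mul_le_mul_of_nonneg_right _ (by linarith)
    have : 0 ≤ 2 ^ 20 * K₂ * (2 * K₁) ^ d := by positivity
    have : 0 ≤ 512 * E * 3 ^ d := by positivity
    linarith
  have hn20 : 20 ≤ n := by
    by_contra hcon
    have h1 : (n : ℝ) ≤ 20 := by exact_mod_cast (by omega : n ≤ 20)
    have h2 : (n : ℝ) ^ 2 ≤ 20 ^ 2 := pow_le_pow_left₀ (by positivity) h1 2
    linarith
  -- the sizes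
  obtain ⟨ρ, hρ⟩ : ∃ ρ, ρ = lam * w := ⟨_, rfl⟩
  have hρ1 : 1 ≤ ρ := by
    rw [hρ]
    calc (1 : ℝ) = 1 * 1 := by ring
      _ ≤ lam * w := mul_le_mul hlam1 hw1 (by norm_num) (by linarith)
  have hρ0 : 0 < ρ := by linarith
  obtain ⟨ℓ, hℓ⟩ : ∃ ℓ : ℕ, ℓ = ⌈K₁ * ρ⌉₊ := ⟨_, rfl⟩
  have hKρ : 1 ≤ K₁ * ρ := by
    calc (1 : ℝ) = 1 * 1 := by ring
      _ ≤ K₁ * ρ := mul_le_mul hK₁1 hρ1 (by norm_num) (by linarith)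
  have hℓ1 : K₁ * ρ ≤ ℓ := by rw [hℓ]; exact Nat.le_ceil _
  have hℓ2 : (ℓ : ℝ) ≤ 2 * K₁ * ρ := by
    have := Nat.ceil_lt_add_one (R := ℝ) (a := K₁ * ρ) (by linarith)
    rw [← hℓ] at this
    linarith
  have hℓ0 : 0 < ℓ := by
    have : (0 : ℝ) < ℓ := by linarith
    exact_mod_cast this
  have hℓr : (1 : ℝ) ≤ ℓ := by exact_mod_cast hℓ0
  have hℓd : (1 : ℝ) ≤ (ℓ : ℝ) ^ d := one_le_pow₀ hℓr
  obtain ⟨τ, hτ⟩ : ∃ τ : ℕ, τ = ⌈K₂ * ρ * (ℓ : ℝ) ^ d⌉₊ := ⟨_, rfl⟩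
  have hK₂ρ : 1 ≤ K₂ * ρ := by
    calc (1 : ℝ) = 1 * 1 := by ring
      _ ≤ K₂ * ρ := mul_le_mul hK₂1 hρ1 (by norm_num) (by linarith)
  have hτ3 : 1 * (ℓ : ℝ) ^ d ≤ K₂ * ρ * (ℓ : ℝ) ^ d := mul_le_mul_of_nonneg_right hK₂ρ (by linarith)
  have hτ1 : K₂ * ρ * (ℓ : ℝ) ^ d ≤ τ := by rw [hτ]; exact Nat.le_ceil _
  have hτ2 : (τ : ℝ) ≤ 2 * K₂ * ρ * (ℓ : ℝ) ^ d := by
    have := Nat.ceil_lt_add_one (R := ℝ) (a := K₂ * ρ * (ℓ : ℝ) ^ d) (by linarith)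
    rw [← hτ] at this
    linarith
  have hτ0 : 0 < τ := by
    have : (0 : ℝ) < τ := by linarith
    exact_mod_cast this
  have hτr : (0 : ℝ) < τ := by exact_mod_cast hτ0
  have hℓτ : (ℓ : ℝ) ^ d ≤ τ := by linarith
  -- the first part
  have hA : 2 ^ 16 * (τ : ℝ) * w ≤ (n : ℝ) ^ 2 / 8 := by
    have e1 : (ℓ : ℝ) ^ d ≤ (2 * K₁) ^ d * ρ ^ d := by
      rw [← mul_pow]
      exact pow_le_pow_left₀ (by positivity) hℓ2 d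
    have e2 : ρ * ρ ^ d * w = Z := by
      rw [hZ, hρ, mul_pow]
      ring
    calc 2 ^ 16 * (τ : ℝ) * w ≤ 2 ^ 16 * (2 * K₂ * ρ * (ℓ : ℝ) ^ d) * w := by gcongr
      _ ≤ 2 ^ 16 * (2 * K₂ * ρ * ((2 * K₁) ^ d * ρ ^ d)) * w := by gcongr
      _ = (2 ^ 20 * K₂ * (2 * K₁) ^ d * (ρ * ρ ^ d * w)) / 8 := by ring
      _ = (2 ^ 20 * K₂ * (2 * K₁) ^ d * Z) / 8 := by rw [e2]
      _ ≤ _ := by linarith
  have hτn : (τ : ℝ) ≤ (n : ℝ) ^ 2 := by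
    have : (τ : ℝ) * 1 ≤ (τ : ℝ) * w := mul_le_mul_of_nonneg_left hw1 hτr.le
    nlinarith
  have hℓn : (ℓ : ℝ) ≤ (n : ℝ) ^ 2 := by
    calc (ℓ : ℝ) ≤ 2 * K₁ * ρ := hℓ2
      _ ≤ 2 * K₁ * Z := by rw [hρ]; gcongr
      _ ≤ _ := hp3.le
  -- the exponents
  have hLT : Real.logb 2 T ≤ L := by rw [hL]; linarith
  have hLκ : Real.logb 2 κ ≤ L := by rw [hL]; linarith
  have hLπ : (π : ℝ) ≤ L := by rw [hL]; linarith
  have hbig := (bigX_le (d := d) (ℓ := ℓ) (τ := τ) (A := n ^ 2) hT hκ (by linarith) hLT hLκ hLπ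
    hout (by exact_mod_cast hℓn) (by exact_mod_cast hτn) (by exact_mod_cast hℓτ.trans hτn)
    (Nat.one_le_pow _ _ hn))
  have hbig1 : Real.logb 2 (bigX d ℓ τ T κ π) ≤ (17 + 12 * d) * L := by
    rcases hbig with h | h
    · exact h
    · omega
  have hX1 : 1 ≤ bigX d ℓ τ T κ π := by
    unfold bigX
    exact Nat.one_le_iff_ne_zero.2 (by positivity)
  have he₁ : (Nat.clog q (bigX d ℓ τ T κ π) : ℝ) ≤ E * lam := by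
    have h1 := clog_bound hq hX1
    rw [← hLq] at h1
    have h2 : (Nat.clog q (bigX d ℓ τ T κ π) : ℝ) * Lq ≤ (E * lam) * Lq := by
      calc _ ≤ (17 + 12 * d) * L + L := by linarith
        _ = E * L := by rw [hE]; ring
        _ = _ := by rw [hLlam]; ring
    exact le_of_mul_le_mul_right h2 hLq0
  have hκX : 1 ≤ κ ^ ((ℓ + 2) ^ d) := Nat.one_le_pow _ _ hκ
  have he₂ : (Nat.clog q (κ ^ ((ℓ + 2) ^ d)) : ℝ) ≤ (3 ^ d + 1) * (ℓ : ℝ) ^ d * lam := by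
    have h1 := clog_bound hq hκX
    rw [← hLq] at h1
    have h3 : Real.logb 2 ((κ ^ ((ℓ + 2) ^ d) : ℕ) : ℝ) ≤ 3 ^ d * (ℓ : ℝ) ^ d * L := by
      push_cast
      rw [Real.logb_pow]
      push_cast
      have e1 : ((ℓ : ℝ) + 2) ^ d ≤ (3 * ℓ) ^ d := by gcongr; linarith
      rw [mul_pow] at e1
      exact mul_le_mul e1 hLκ hκ0 (by positivity)
    have h4 : 1 * L ≤ (ℓ : ℝ) ^ d * L := mul_le_mul_of_nonneg_right hℓd (by linarith)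
    have h2 : (Nat.clog q (κ ^ ((ℓ + 2) ^ d)) : ℝ) * Lq ≤
        ((3 ^ d + 1) * (ℓ : ℝ) ^ d * lam) * Lq := by
      calc _ ≤ 3 ^ d * (ℓ : ℝ) ^ d * L + (ℓ : ℝ) ^ d * L := by linarith
        _ = (3 ^ d + 1) * (ℓ : ℝ) ^ d * L := by ring
        _ = _ := by rw [hLlam]; ring
    exact le_of_mul_le_mul_right h2 hLq0
  refine ⟨ℓ, τ, Nat.clog q (bigX d ℓ τ T κ π), Nat.clog q (κ ^ ((ℓ + 2) ^ d)), hℓ0, hτ0,
    Nat.le_pow_clog (by omega) _, Nat.le_pow_clog (by omega) _, ?_, hn20⟩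
  obtain ⟨e₁, hee₁⟩ : ∃ e₁, e₁ = Nat.clog q (bigX d ℓ τ T κ π) := ⟨_, rfl⟩
  obtain ⟨e₂, hee₂⟩ : ∃ e₂, e₂ = Nat.clog q (κ ^ ((ℓ + 2) ^ d)) := ⟨_, rfl⟩
  rw [← hee₁] at he₁ ⊢
  rw [← hee₂] at he₂ ⊢
  have he₁0 : (0 : ℝ) ≤ e₁ := Nat.cast_nonneg _
  have he₂0 : (0 : ℝ) ≤ e₂ := Nat.cast_nonneg _
  have hK₁0 : 0 < K₁ := by linarith
  have hK₂0 : 0 < K₂ := by linarith
  have hℓ00 : (0 : ℝ) < ℓ := by linarith
  have hℓd0 : (0 : ℝ) < (ℓ : ℝ) ^ d := by linarith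
  have hWℓ : (W : ℝ) / ℓ ≤ (n : ℝ) ^ 2 / (K₁ * lam) := by
    rw [hWw, div_le_div_iff₀ hℓ00 (by positivity)]
    calc w * (n : ℝ) ^ 2 * (K₁ * lam) = (n : ℝ) ^ 2 * (K₁ * ρ) := by rw [hρ]; ring
      _ ≤ _ := mul_le_mul_of_nonneg_left hℓ1 hn2.le
  have hWτ : (W : ℝ) / τ ≤ (n : ℝ) ^ 2 / (K₂ * lam * (ℓ : ℝ) ^ d) := by
    rw [hWw, div_le_div_iff₀ hτr (by positivity)]
    calc w * (n : ℝ) ^ 2 * (K₂ * lam * (ℓ : ℝ) ^ d) =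
          (n : ℝ) ^ 2 * (K₂ * ρ * (ℓ : ℝ) ^ d) := by rw [hρ]; ring
      _ ≤ _ := mul_le_mul_of_nonneg_left hτ1 hn2.le
  have hWτ0 : 0 ≤ (W : ℝ) / τ := by positivity
  have hWℓ0 : 0 ≤ (W : ℝ) / ℓ := by positivity
  -- (a)
  have ha : 2 ^ 15 * ((τ : ℝ) + (ℓ : ℝ) ^ d) * W / (n : ℝ) ^ 2 ≤ (n : ℝ) ^ 2 / 8 := by
    calc 2 ^ 15 * ((τ : ℝ) + (ℓ : ℝ) ^ d) * W / (n : ℝ) ^ 2 =
          2 ^ 15 * ((τ : ℝ) + (ℓ : ℝ) ^ d) * w := by rw [hw]; ring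
      _ ≤ 2 ^ 15 * ((τ : ℝ) + τ) * w := by gcongr
      _ = 2 ^ 16 * (τ : ℝ) * w := by ring
      _ ≤ _ := hA
  -- (b)
  have hb : 64 * (e₁ * (2 * (3 ^ d * (2 * d) * W / ℓ))) ≤ (n : ℝ) ^ 2 / 8 := by
    calc 64 * (e₁ * (2 * (3 ^ d * (2 * d) * W / ℓ))) = 128 * e₁ * D * ((W : ℝ) / ℓ) := by
          rw [hD]; ring
      _ ≤ 128 * (E * lam) * D * ((n : ℝ) ^ 2 / (K₁ * lam)) := by gcongr
      _ = (1024 * E * D) * (n : ℝ) ^ 2 / (8 * K₁) := by field_simp; ring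
      _ ≤ K₁ * (n : ℝ) ^ 2 / (8 * K₁) := by
          gcongr
          rw [hK₁]
          linarith
      _ = (n : ℝ) ^ 2 / 8 := by field_simp
  -- (c)
  have hc : 64 * ((e₁ : ℝ) * 3 ^ d) ≤ (n : ℝ) ^ 2 / 8 := by
    calc 64 * ((e₁ : ℝ) * 3 ^ d) ≤ 64 * ((E * lam) * 3 ^ d) := by gcongr
      _ ≤ 64 * ((E * Z) * 3 ^ d) := by gcongr
      _ = (512 * E * 3 ^ d * Z) / 8 := by ring
      _ ≤ _ := by linarith
  -- (d)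
  have hd : 64 * ((e₁ : ℝ) * (W / τ) + e₂ * (W / τ)) ≤ (n : ℝ) ^ 2 / 8 := by
    have e3 : (e₁ : ℝ) + e₂ ≤ (E + (3 ^ d + 1)) * ((ℓ : ℝ) ^ d * lam) := by
      have e4 : E * lam * 1 ≤ E * lam * (ℓ : ℝ) ^ d := mul_le_mul_of_nonneg_left hℓd (by positivity)
      calc (e₁ : ℝ) + e₂ ≤ E * lam * (ℓ : ℝ) ^ d + (3 ^ d + 1) * (ℓ : ℝ) ^ d * lam := by linarith
        _ = _ := by ring
    calc 64 * ((e₁ : ℝ) * (W / τ) + e₂ * (W / τ)) = 64 * ((e₁ : ℝ) + e₂) * (W / τ) := by ring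
      _ ≤ 64 * ((E + (3 ^ d + 1)) * ((ℓ : ℝ) ^ d * lam)) *
            ((n : ℝ) ^ 2 / (K₂ * lam * (ℓ : ℝ) ^ d)) := by gcongr
      _ = (512 * (E + (3 ^ d + 1))) * (n : ℝ) ^ 2 / (8 * K₂) := by field_simp; ring
      _ = (n : ℝ) ^ 2 / 8 := by rw [← hK₂]; field_simp
  have htot : 2 ^ 15 * ((τ : ℝ) + (ℓ : ℝ) ^ d) * W / (n : ℝ) ^ 2 +
        64 * (e₁ * (2 * (3 ^ d * (2 * d) * W / ℓ) + 3 ^ d + W / τ) + e₂ * (W / τ)) ≤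
          (n : ℝ) ^ 2 / 2 := by
    calc _ = 2 ^ 15 * ((τ : ℝ) + (ℓ : ℝ) ^ d) * W / (n : ℝ) ^ 2 +
          64 * (e₁ * (2 * (3 ^ d * (2 * d) * W / ℓ))) + 64 * ((e₁ : ℝ) * 3 ^ d) +
          64 * ((e₁ : ℝ) * (W / τ) + e₂ * (W / τ)) := by ring
      _ ≤ (n : ℝ) ^ 2 / 8 + (n : ℝ) ^ 2 / 8 + (n : ℝ) ^ 2 / 8 + (n : ℝ) ^ 2 / 8 := by
          gcongr
      _ = _ := by ring
  refine lt_of_le_of_lt htot ?_
  linarith

end Pool.Agent.H363D
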