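import Pool.Agent.H363D.Defs
import Pool.Agent.W896.MO.Union

/-!
# Simulation of a block of cells
-/

set_option autoImplicit false

namespace Pool.Agent.H363D

open Pool.Agent.W896.MO

variable {d : ℕ} {ι ω α Γ : Type}

/-- The events of one cell in one step. -/
def ev1 (M : Machine d ι ω α Γ) (x : ι → α) (t : ℕ) (σ : Cell d → Γ) (v : Cell d) :
    List (Option (Ev ι ω α)) :=
  ((M.rd t v σ).map (fun i => (some (Sum.inl i) : Option (Ev ι ω α)))).toList ++
    ((M.wr t v σ (M.inp x t σ v)).map (fun w => (some (Sum.inr w) : Option (Ev ι ω α)))).toList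

/-- The events of a list of cells in one step. -/
def evs (M : Machine d ι ω α Γ) (x : ι → α) (t : ℕ) (σ : Cell d → Γ) (cs : List (Cell d)) :
    List (Option (Ev ι ω α)) := cs.flatMap (ev1 M x t σ)

theorem mem_ev1_inl {M : Machine d ι ω α Γ} {x : ι → α} {t : ℕ} {σ : Cell d → Γ} {v : Cell d}
    {i : ι} : some (Sum.inl i) ∈ ev1 M x t σ v ↔ M.rd t v σ = some i := by
  unfold ev1
  simp [Option.mem_toList]

theorem mem_ev1_inr {M : Machine d ι ω α Γ} {x : ι → α} {t : ℕ} {σ : Cell d → Γ} {v : Cell d}
    {w : ω × α} : some (Sum.inr w) ∈ ev1 M x t σ v ↔ M.wr t v σ (M.inp x t σ v) = some w := by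
  unfold ev1
  simp [Option.mem_toList]

theorem ev1_length {M : Machine d ι ω α Γ} {x : ι → α} {t : ℕ} {σ : Cell d → Γ} {v : Cell d} :
    (ev1 M x t σ v).length ≤ 2 := by
  unfold ev1
  rw [List.length_append]
  have h1 : ∀ {β : Type} (o : Option β), o.toList.length ≤ 1 := by
    intro β o
    cases o <;> simp
  have := h1 ((M.rd t v σ).map (fun i => (some (Sum.inl i) : Option (Ev ι ω α))))
  have := h1 ((M.wr t v σ (M.inp x t σ v)).map (fun w => (some (Sum.inr w) : Option (Ev ι ω α))))
  omega

theorem ev1_nil {M : Machine d ι ω α Γ} {x : ι → α} {t : ℕ} {σ : Cell d → Γ} {v : Cell d}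
    (h1 : M.rd t v σ = none) (h2 : M.wr t v σ (M.inp x t σ v) = none) : ev1 M x t σ v = [] := by
  unfold ev1
  rw [h1, h2]
  rfl

/-- The events do not depend on the inputs that are not read. -/
theorem ev1_congr {M : Machine d ι ω α Γ} {x y : ι → α} {t : ℕ} {σ : Cell d → Γ} {v : Cell d}
    (h : ∀ i, M.rd t v σ = some i → x i = y i) :
    M.inp x t σ v = M.inp y t σ v ∧ ev1 M x t σ v = ev1 M y t σ v := by
  have h1 : M.inp x t σ v = M.inp y t σ v := by
    unfold Machine.inp
    cases hr : M.rd t v σ with
    | none => rfl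
    | some i => simp only [Option.map_some]; rw [h i hr]
  refine ⟨h1, ?_⟩
  unfold ev1
  rw [h1]

theorem ev1_congrσ {M : Machine d ι ω α Γ} {x : ι → α} {t : ℕ} {σ σ' : Cell d → Γ} {v : Cell d}
    (h : ∀ u, Near u v → σ u = σ' u) :
    M.inp x t σ v = M.inp x t σ' v ∧ ev1 M x t σ v = ev1 M x t σ' v := by
  have h0 := M.rd_near t v σ σ' h
  have h1 : M.inp x t σ v = M.inp x t σ' v := by
    unfold Machine.inp
    rw [h0]
  refine ⟨h1, ?_⟩
  unfold ev1
  rw [h0, h1, M.wr_near t v σ σ' _ h]

open Classical in
/-- One step of the block `cs`; the cells outside of the block change as prescribed by `L`. -/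
noncomputable def nxt (M : Machine d ι ω α Γ) (x : ι → α) (cs : List (Cell d))
    (L : ℕ → Cell d → Option Γ) (t : ℕ) (σ : Cell d → Γ) : Cell d → Γ :=
  fun v => if v ∈ cs then M.nx t v σ (M.inp x t σ v) else (L t v).getD (σ v)

/-- The events of the block `cs` during `m` steps. -/
noncomputable def sim (M : Machine d ι ω α Γ) (x : ι → α) (cs : List (Cell d))
    (L : ℕ → Cell d → Option Γ) : ℕ → ℕ → (Cell d → Γ) → List (Option (Ev ι ω α))
  | 0, _, _ => []
  | m + 1, t, σ => evs M x t σ cs ++ sim M x cs L m (t + 1) (nxt M x cs L t σ)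

theorem evs_congr {M : Machine d ι ω α Γ} {x y : ι → α} {t : ℕ} {σ : Cell d → Γ}
    {cs : List (Cell d)} (h : ∀ i, some (Sum.inl i) ∈ evs M x t σ cs → x i = y i) :
    (∀ v ∈ cs, M.inp x t σ v = M.inp y t σ v) ∧ evs M x t σ cs = evs M y t σ cs := by
  have h1 : ∀ v ∈ cs, ∀ i, M.rd t v σ = some i → x i = y i := by
    intro v hv i hi
    apply h
    unfold evs
    rw [List.mem_flatMap]
    exact ⟨v, hv, mem_ev1_inl.2 hi⟩
  refine ⟨fun v hv => (ev1_congr (h1 v hv)).1, ?_⟩
  exact List.flatMap_congr fun v hv => (ev1_congr (h1 v hv)).2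

theorem sim_trans (M : Machine d ι ω α Γ) (cs : List (Cell d)) (L : ℕ → Cell d → Option Γ) :
    ∀ (m t : ℕ) (σ : Cell d → Γ) (x y : ι → α),
      (∀ i, some (Sum.inl i) ∈ sim M x cs L m t σ → y i = x i) →
        sim M y cs L m t σ = sim M x cs L m t σ := by
  intro m
  induction m with
  | zero => intro t σ x y _; rfl
  | succ m ih =>
    intro t σ x y h
    have h1 := evs_congr (M := M) (x := x) (y := y) (t := t) (σ := σ) (cs := cs) (by
      intro i hi
      refine (h i ?_).symm
      rw [sim, List.mem_append]
      exact Or.inl hi)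
    have h2 : nxt M y cs L t σ = nxt M x cs L t σ := by
      funext v
      unfold nxt
      split_ifs with hv
      · rw [h1.1 v hv]
      · rfl
    rw [sim, sim, ← h1.2, h2]
    congr 1
    apply ih
    intro i hi
    apply h
    rw [sim, List.mem_append]
    exact Or.inr hi

theorem sim_uniq (M : Machine d ι ω α Γ) (cs : List (Cell d)) (L : ℕ → Cell d → Option Γ) :
    ∀ (m t : ℕ) (σ : Cell d → Γ) (x y : ι → α),
      (∀ i, some (Sum.inl i) ∈ sim M x cs L m t σ → some (Sum.inl i) ∈ sim M y cs L m t σ →
        x i = y i) → sim M x cs L m t σ = sim M y cs L m t σ := by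
  intro m
  induction m with
  | zero => intro t σ x y _; rfl
  | succ m ih =>
    intro t σ x y h
    have h1 := evs_congr (M := M) (x := x) (y := y) (t := t) (σ := σ) (cs := cs) (by
      intro i hi
      refine h i ?_ ?_
      · rw [sim, List.mem_append]
        exact Or.inl hi
      · rw [sim, List.mem_append]
        left
        unfold evs at hi ⊢
        rw [List.mem_flatMap] at hi ⊢
        obtain ⟨v, hv, hi⟩ := hi
        exact ⟨v, hv, mem_ev1_inl.2 (mem_ev1_inl.1 hi)⟩)
    have h2 : nxt M x cs L t σ = nxt M y cs L t σ := by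
      funext v
      unfold nxt
      split_ifs with hv
      · rw [h1.1 v hv]
      · rfl
    rw [sim, sim, ← h1.2, h2]
    congr 1
    apply ih
    intro i hi hi'
    apply h
    · rw [sim, List.mem_append]
      right
      rw [h2]
      exact hi
    · rw [sim, List.mem_append]
      exact Or.inr hi'

/-- The adaptive procedure given by a block, the changes outside, the duration, the start time and
the initial content. -/
noncomputable def relOf (M : Machine d ι ω α Γ) (cs : List (Cell d)) (L : ℕ → Cell d → Option Γ)
    (m t : ℕ) (σ : Cell d → Γ) : (ι → α) → List (Option (Ev ι ω α)) → Prop :=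
  fun x l => sim M x cs L m t σ = l

theorem proc_relOf (M : Machine d ι ω α Γ) (cs : List (Cell d)) (L : ℕ → Cell d → Option Γ)
    (m t : ℕ) (σ : Cell d → Γ) : Proc (relOf M cs L m t σ) where
  uniq := by
    rintro x y l l' h h' hxy
    subst h h'
    exact sim_uniq M cs L m t σ x y hxy
  trans := by
    rintro x y l h hxy
    subst h
    exact sim_trans M cs L m t σ x y hxy

/-! ### The real run -/

/-- The block together with the neighbouring cells. -/
def NearB (cs : List (Cell d)) (u : Cell d) : Prop := ∃ v ∈ cs, Near u v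

theorem near_refl (v : Cell d) : Near v v := by
  intro i
  simp

/-- The events of the block during `m` steps of the run. -/
noncomputable def real (M : Machine d ι ω α Γ) (x : ι → α) (cs : List (Cell d)) :
    ℕ → ℕ → List (Option (Ev ι ω α))
  | 0, _ => []
  | m + 1, t => evs M x t (M.conf x t) cs ++ real M x cs m (t + 1)

theorem sim_eq (M : Machine d ι ω α Γ) (x : ι → α) (cs : List (Cell d))
    (L : ℕ → Cell d → Option Γ) : ∀ (m t : ℕ) (σ : Cell d → Γ),
      (∀ u, NearB cs u → σ u = M.conf x t u) →
      (∀ s, t ≤ s → s < t + m → ∀ u, u ∉ cs → NearB cs u →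
        (L s u).getD (M.conf x s u) = M.conf x (s + 1) u) →
      sim M x cs L m t σ = real M x cs m t := by
  intro m
  induction m with
  | zero => intro t σ _ _; rfl
  | succ m ih =>
    intro t σ hσ hL
    have hnear : ∀ v ∈ cs, ∀ u, Near u v → σ u = M.conf x t u := fun v hv u hu => hσ u ⟨v, hv, hu⟩
    rw [sim, real]
    congr 1
    · exact List.flatMap_congr fun v hv => (ev1_congrσ (hnear v hv)).2
    · apply ih
      · intro u hu
        unfold nxt
        split_ifs with hc
        · rw [M.nx_near t u σ (M.conf x t) _ (hnear u hc), (ev1_congrσ (ω := ω) (hnear u hc)).1]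
          rfl
        · rw [hσ u hu]
          exact hL t le_rfl (by omega) u hc hu
      · intro s h1 h2
        exact hL s (by omega) (by omega)

theorem mem_real {M : Machine d ι ω α Γ} {x : ι → α} {cs : List (Cell d)}
    {e : Option (Ev ι ω α)} : ∀ (m t : ℕ), e ∈ real M x cs m t ↔
      ∃ s, t ≤ s ∧ s < t + m ∧ ∃ v ∈ cs, e ∈ ev1 M x s (M.conf x s) v := by
  intro m
  induction m with
  | zero =>
    intro t
    rw [real]
    simp only [List.not_mem_nil, add_zero, false_iff, not_exists, not_and]
    intro s h1 h2
    omega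
  | succ m ih =>
    intro t
    rw [real, List.mem_append, ih]
    unfold evs
    rw [List.mem_flatMap]
    constructor
    · rintro (⟨v, hv, h⟩ | ⟨s, h1, h2, h3⟩)
      · exact ⟨t, le_rfl, by omega, v, hv, h⟩
      · exact ⟨s, by omega, by omega, h3⟩
    · rintro ⟨s, h1, h2, v, hv, h⟩
      rcases eq_or_lt_of_le h1 with h3 | h3
      · subst h3
        exact Or.inl ⟨v, hv, h⟩
      · exact Or.inr ⟨s, by omega, by omega, v, hv, h⟩

open Classical in
/-- The number of events of a block. -/
theorem real_length {M : Machine d ι ω α Γ} {x : ι → α} {cs : List (Cell d)}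
    (hcs : cs.Nodup) (S : Finset (ℕ × Cell d)) : ∀ (m t : ℕ),
      (∀ s, t ≤ s → s < t + m → ∀ v ∈ cs, M.Active x s v → (s, v) ∈ S) →
      (real M x cs m t).length ≤
        2 * (S.filter (fun p => t ≤ p.1 ∧ p.1 < t + m ∧ p.2 ∈ cs)).card := by
  intro m
  induction m with
  | zero => intro t _; rw [real]; simp
  | succ m ih =>
    intro t hS
    rw [real, List.length_append]
    have h1 := ih (t + 1) (fun s h1 h2 => hS s (by omega) (by omega))
    have h2 : (evs M x t (M.conf x t) cs).length ≤
        2 * (S.filter (fun p => p.1 = t ∧ p.2 ∈ cs)).card := by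
      have h3 : ∀ cs' : List (Cell d), cs'.Nodup → (∀ v ∈ cs', v ∈ cs) →
          (evs M x t (M.conf x t) cs').length ≤
            2 * (S.filter (fun p => p.1 = t ∧ p.2 ∈ cs')).card := by
        intro cs'
        induction cs' with
        | nil => intro _ _; simp [evs]
        | cons v cs' ih' =>
          intro hnd hsub
          rw [List.nodup_cons] at hnd
          have h4 := ih' hnd.2 (fun u hu => hsub u (List.mem_cons_of_mem _ hu))
          have h5 : evs M x t (M.conf x t) (v :: cs') =
              ev1 M x t (M.conf x t) v ++ evs M x t (M.conf x t) cs' := by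
            unfold evs
            rw [List.flatMap_cons]
          rw [h5, List.length_append]
          by_cases hv : (t, v) ∈ S
          · have h6 : (S.filter (fun p => p.1 = t ∧ p.2 ∈ v :: cs')) ⊇
                insert (t, v) (S.filter (fun p => p.1 = t ∧ p.2 ∈ cs')) := by
              intro p hp
              rw [Finset.mem_insert, Finset.mem_filter] at hp
              rw [Finset.mem_filter]
              rcases hp with rfl | ⟨hp1, hp2, hp3⟩
              · exact ⟨hv, rfl, List.mem_cons_self⟩
              · exact ⟨hp1, hp2, List.mem_cons_of_mem _ hp3⟩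
            have h7 := Finset.card_le_card h6
            rw [Finset.card_insert_of_notMem (by
              rw [Finset.mem_filter]
              rintro ⟨-, -, h⟩
              exact hnd.1 h)] at h7
            have h8 := ev1_length (M := M) (x := x) (t := t) (σ := M.conf x t) (v := v)
            omega
          · have h6 : ¬ M.Active x t v := fun h => hv (hS t le_rfl (by omega) v
              (hsub v List.mem_cons_self) h)
            unfold Machine.Active at h6
            push Not at h6
            have h7 := ev1_nil h6.2.1 h6.2.2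
            rw [h7, List.length_nil, zero_add]
            refine h4.trans (Nat.mul_le_mul_left 2 (Finset.card_le_card ?_))
            intro p hp
            rw [Finset.mem_filter] at hp ⊢
            exact ⟨hp.1, hp.2.1, List.mem_cons_of_mem _ hp.2.2⟩
      exact h3 cs hcs (fun v hv => hv)
    have h3 : (S.filter (fun p => p.1 = t ∧ p.2 ∈ cs)).card +
        (S.filter (fun p => t + 1 ≤ p.1 ∧ p.1 < t + 1 + m ∧ p.2 ∈ cs)).card ≤
        (S.filter (fun p => t ≤ p.1 ∧ p.1 < t + (m + 1) ∧ p.2 ∈ cs)).card := by
      rw [← Finset.card_union_of_disjoint]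
      · apply Finset.card_le_card
        intro p hp
        rw [Finset.mem_union, Finset.mem_filter, Finset.mem_filter] at hp
        rw [Finset.mem_filter]
        rcases hp with ⟨a, b, c⟩ | ⟨a, b, b', c⟩
        · exact ⟨a, by omega, by omega, c⟩
        · exact ⟨a, by omega, by omega, c⟩
      · rw [Finset.disjoint_left]
        intro p hp hp'
        rw [Finset.mem_filter] at hp hp'
        omega
    omega

end Pool.Agent.H363D
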