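import Pool.Agent.H363D.Engine2

/-!
# The union bound over the windows
-/

set_option autoImplicit false

open Finset

namespace Pool.Agent.H363D.Xi

open Pool.Agent.W896.MO

variable {d : ℕ} {ι ω α Γ : Type}

open Classical in
/-- **The union bound over the windows.** -/
theorem union_windows [Fintype Γ] [Fintype ω] {Ω : Type} [Fintype Ω] {M : Machine d ι ω α Γ}
    {X : Ω → ι → α} {f : (ι → α) → ω → α} {Cnt : Ω → ω → Prop} {Gd : Ω → Prop}
    {T W ℓ τ ξ N₀ : ℕ} {thr : ℕ → ℕ → Bool → ℕ} (hℓ : 0 < ℓ) (hτ : 0 < τ)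
    (hξ : 0 < ξ) (hnum : NumW d ℓ τ ξ W thr N₀)
    (hN : ∀ y, Gd y → N₀ ≤ (univ.filter (fun o => Cnt y o)).card) (Kb : ℕ → Bool → ℕ)
    (hK : ∀ n ≤ τ + ℓ ^ d, ∀ x ≤ ξ + (ℓ + 2) ^ d, ∀ c, ∀ Rel, Proc Rel →
      (univ.filter (fun y => Gd y ∧ Good X f Cnt n (thr n x c) Rel y)).card ≤ Kb x c) :
    (univ.filter (fun y => Gd y ∧ M.Computes (X y) (f (X y)) T W)).card ≤
      ∑ x ∈ range (ξ + (ℓ + 2) ^ d + 1), ((ℓ * (2 * T + 1) ^ d * (T + 1) ^ 2 * (τ + ℓ ^ d + 1)) *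
        (T * ((2 * T + 1) ^ d * Fintype.card Γ)) ^ x) *
        (Kb x false + Fintype.card Γ ^ ((ℓ + 2) ^ d) * Kb x true) := by
  -- the indices
  obtain ⟨I, hI⟩ : ∃ I : ℕ → Finset (ℕ × Cell d × ℕ × ℕ × ℕ × Finset (ℕ × Cell d × Γ)),
    ∀ x, I x = range ℓ ×ˢ (box d T ×ˢ (range (T + 1) ×ˢ (range (T + 1) ×ˢ
      (range (τ + ℓ ^ d + 1) ×ˢ (U d T Γ).powersetCard x)))) := ⟨_, fun _ => rfl⟩
  have hIc : ∀ x, (I x).card ≤ (ℓ * (2 * T + 1) ^ d * (T + 1) ^ 2 * (τ + ℓ ^ d + 1)) *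
      (T * ((2 * T + 1) ^ d * Fintype.card Γ)) ^ x := by
    intro x
    rw [hI, card_product, card_product, card_product, card_product, card_product, card_range,
      card_box, card_range, card_range, card_powersetCard, card_U]
    calc _ = (ℓ * (2 * T + 1) ^ d * (T + 1) ^ 2 * (τ + ℓ ^ d + 1)) *
          (T * ((2 * T + 1) ^ d * Fintype.card Γ)).choose x := by ring
      _ ≤ _ := Nat.mul_le_mul_left _ (Nat.choose_le_pow _ _)
  obtain ⟨A, hA⟩ : ∃ A : ℕ → (ℕ × Cell d × ℕ × ℕ × ℕ × Finset (ℕ × Cell d × Γ)) → Finset Ω,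
    ∀ x i, A x i = (univ.filter (fun y => Gd y ∧ Good X f Cnt i.2.2.2.2.1
      (thr i.2.2.2.2.1 x false) (proc M ℓ i.1 i.2.1 i.2.2.2.2.2 i.2.2.2.1 0 M.init) y)) ∪
      (univ : Finset ((Fin d → Fin (ℓ + 2)) → Γ)).biUnion (fun g =>
        univ.filter (fun y => Gd y ∧ Good X f Cnt i.2.2.2.2.1
          (thr i.2.2.2.2.1 x true) (proc M ℓ i.1 i.2.1 i.2.2.2.2.2 (i.2.2.2.1 - i.2.2.1) i.2.2.1
            (cont ℓ i.1 (blk ℓ i.1 i.2.1) g M.blank)) y)) := ⟨_, fun _ _ => rfl⟩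
  have hAc : ∀ x ≤ ξ + (ℓ + 2) ^ d, ∀ i ∈ I x, (A x i).card ≤
      Kb x false + Fintype.card Γ ^ ((ℓ + 2) ^ d) * Kb x true := by
    intro x hxx i hi
    rw [hI] at hi
    simp only [mem_product, mem_range] at hi
    have hn : i.2.2.2.2.1 ≤ τ + ℓ ^ d := by omega
    rw [hA]
    refine (card_union_le _ _).trans (Nat.add_le_add ?_ ?_)
    · exact hK _ hn x hxx false _ (proc_relOf _ _ _ _ _ _)
    · have h1 := card_biUnion_le_card_mul (univ : Finset ((Fin d → Fin (ℓ + 2)) → Γ)) (fun g =>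
        univ.filter (fun y => Gd y ∧ Good X f Cnt i.2.2.2.2.1
          (thr i.2.2.2.2.1 x true) (proc M ℓ i.1 i.2.1 i.2.2.2.2.2 (i.2.2.2.1 - i.2.2.1) i.2.2.1
            (cont ℓ i.1 (blk ℓ i.1 i.2.1) g M.blank)) y)) (Kb x true)
        (fun g _ => hK _ hn x hxx true _ (proc_relOf _ _ _ _ _ _))
      rw [card_univ, Fintype.card_fun, Fintype.card_fun, Fintype.card_fin, Fintype.card_fin] at h1
      exact h1
  have hsub : univ.filter (fun y => Gd y ∧ M.Computes (X y) (f (X y)) T W) ⊆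
      (range (ξ + (ℓ + 2) ^ d + 1)).biUnion (fun x => (I x).biUnion (A x)) := by
    intro y hy
    rw [mem_filter] at hy
    obtain ⟨θ, hθ, u, hu, a, ha, b, hb, x, hx, n, hn, L, hL, hor⟩ :=
      exists_good hℓ hτ hξ hnum (hN y hy.2.1) hy.2.2
    rw [mem_biUnion]
    refine ⟨x, hx, ?_⟩
    rw [mem_biUnion]
    refine ⟨(θ, u, a, b, n, L), ?_, ?_⟩
    · rw [hI]
      simp only [mem_product]
      exact ⟨hθ, hu, ha, hb, hn, hL⟩
    · rw [hA, mem_union]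
      rcases hor with h | ⟨g, h⟩
      · left
        rw [mem_filter]
        exact ⟨mem_univ _, hy.2.1, h⟩
      · right
        rw [mem_biUnion]
        refine ⟨g, mem_univ _, ?_⟩
        rw [mem_filter]
        exact ⟨mem_univ _, hy.2.1, h⟩
  refine (card_le_card hsub).trans (card_biUnion_le.trans (sum_le_sum fun x hx => ?_))
  refine (card_biUnion_le_card_mul _ _ _ (hAc x (by rw [mem_range] at hx; omega))).trans ?_
  exact Nat.mul_le_mul_right _ (hIc x)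

end Pool.Agent.H363D.Xi
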