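import Pool.Agent.H363D.Geo

/-!
# The windows of a run
-/

set_option autoImplicit false

open Finset

namespace Pool.Agent.H363D

open Pool.Agent.W896.MO

theorem exists_cut (g : ℕ → ℕ) (hg : Monotone g) (j : ℕ) :
    ∀ T, ∃ c ≤ T, ∀ t < T, (t < c ↔ g t < j) := by
  intro T
  induction T with
  | zero => exact ⟨0, le_rfl, fun t ht => absurd ht (Nat.not_lt_zero t)⟩
  | succ T ih =>
    obtain ⟨c, hc, h⟩ := ih
    rcases lt_or_eq_of_le hc with h1 | h1
    · refine ⟨c, by omega, ?_⟩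
      intro t ht
      rcases lt_or_eq_of_le (Nat.lt_succ_iff.1 ht) with h2 | h2
      · exact h t h2
      · subst h2
        have h3 : ¬ g c < j := fun h4 => lt_irrefl c ((h c h1).2 h4)
        have h4 : g c ≤ g t := hg h1.le
        constructor
        · intro h5; omega
        · intro h5; omega
    · subst h1
      by_cases h2 : g c < j
      · refine ⟨c + 1, le_rfl, ?_⟩
        intro t ht
        have h3 : g t ≤ g c := hg (by omega)
        exact ⟨fun _ => by omega, fun _ => ht⟩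
      · refine ⟨c, by omega, ?_⟩
        intro t ht
        rcases lt_or_eq_of_le (Nat.lt_succ_iff.1 ht) with h3 | h3
        · exact h t h3
        · subst h3
          exact ⟨fun h4 => absurd h4 (lt_irrefl t), fun h4 => absurd h4 h2⟩

theorem exists_interval (g : ℕ → ℕ) (hg : Monotone g) (j T : ℕ) :
    ∃ a b, a ≤ b ∧ b ≤ T ∧ (j = 0 → a = 0) ∧ ∀ t < T, ((a ≤ t ∧ t < b) ↔ g t = j) := by
  obtain ⟨a, ha, h1⟩ := exists_cut g hg j T
  obtain ⟨b, hb, h2⟩ := exists_cut g hg (j + 1) T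
  refine ⟨a, b, ?_, hb, ?_, ?_⟩
  · by_contra hcon
    push Not at hcon
    have h3 := (h1 b (by omega)).1 hcon
    have h4 := (h2 b (by omega)).2 (by omega)
    omega
  · intro hj
    by_contra hcon
    have h3 := (h1 0 (by omega)).1 (by omega)
    omega
  · intro t ht
    have h3 := h1 t ht
    have h4 := h2 t ht
    omega

section run

variable {d : ℕ}

/-- The number of active pairs in the block `k` before the time `t`. -/
noncomputable def cnt (ℓ θ : ℕ) (S : Finset (ℕ × Cell d)) (k : Cell d) (t : ℕ) : ℕ :=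
  (S.filter (fun p => p.1 < t ∧ blk ℓ θ p.2 = k)).card

theorem cnt_mono (ℓ θ : ℕ) (S : Finset (ℕ × Cell d)) (k : Cell d) : Monotone (cnt ℓ θ S k) := by
  intro s t hst
  unfold cnt
  apply card_le_card
  intro p hp
  rw [mem_filter] at hp ⊢
  exact ⟨hp.1, by omega, hp.2.2⟩

/-- The number of the window of the block `k` at the time `t`. -/
noncomputable def win (ℓ θ τ : ℕ) (S : Finset (ℕ × Cell d)) (k : Cell d) (t : ℕ) : ℕ :=
  cnt ℓ θ S k t / τ

theorem win_mono (ℓ θ τ : ℕ) (S : Finset (ℕ × Cell d)) (k : Cell d) :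
    Monotone (win ℓ θ τ S k) := fun _ _ h => Nat.div_le_div_right (cnt_mono ℓ θ S k h)

/-- The windows. -/
noncomputable def wins (ℓ θ τ : ℕ) (S : Finset (ℕ × Cell d)) : Finset (Cell d × ℕ) :=
  S.image (fun p => (blk ℓ θ p.2, win ℓ θ τ S (blk ℓ θ p.2) p.1))

/-- The number of active pairs in a window. -/
noncomputable def nw (ℓ θ τ : ℕ) (S : Finset (ℕ × Cell d)) (w : Cell d × ℕ) : ℕ :=
  (S.filter (fun p => blk ℓ θ p.2 = w.1 ∧ win ℓ θ τ S w.1 p.1 = w.2)).card

/-- The active pairs next to a window. -/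
noncomputable def xs (ℓ θ τ : ℕ) (S : Finset (ℕ × Cell d)) (w : Cell d × ℕ) :
    Finset (ℕ × Cell d) :=
  S.filter (fun p => w.1 ∈ ob ℓ θ p.2 ∧ win ℓ θ τ S w.1 p.1 = w.2)

variable (ℓ θ τ : ℕ) (S : Finset (ℕ × Cell d))

theorem sum_nw : ∑ w ∈ wins ℓ θ τ S, nw ℓ θ τ S w ≤ S.card := by
  have hm : ∀ p ∈ S, (blk ℓ θ p.2, win ℓ θ τ S (blk ℓ θ p.2) p.1) ∈ wins ℓ θ τ S :=
    fun p hp => mem_image_of_mem _ hp
  rw [card_eq_sum_card_fiberwise hm]
  apply sum_le_sum
  intro w _
  apply card_le_card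
  intro p hp
  rw [mem_filter] at hp ⊢
  refine ⟨hp.1, Prod.ext hp.2.1 ?_⟩
  simp only
  rw [hp.2.1]
  exact hp.2.2

theorem sum_xs : ∑ w ∈ wins ℓ θ τ S, (xs ℓ θ τ S w).card ≤ ∑ p ∈ S, (ob ℓ θ p.2).card := by
  unfold xs
  simp only [card_filter]
  rw [sum_comm]
  apply sum_le_sum
  intro p _
  rw [← card_filter]
  apply card_le_card_of_injOn (fun w => w.1)
  · intro w hw
    rw [mem_coe, mem_filter] at hw
    exact hw.2.1
  · intro w hw w' hw' h
    rw [mem_coe, mem_filter] at hw hw'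
    have h' : w.1 = w'.1 := h
    refine Prod.ext h' ?_
    rw [← hw.2.2, ← hw'.2.2, h']

variable {ℓ θ τ S}

theorem nw_le (hℓ : 0 < ℓ) (hτ : 0 < τ) {w : Cell d × ℕ} (hw : w ∈ wins ℓ θ τ S) :
    nw ℓ θ τ S w ≤ τ + ℓ ^ d := by
  classical
  obtain ⟨Sw, hSw⟩ : ∃ Sw, Sw = S.filter (fun p => blk ℓ θ p.2 = w.1 ∧
    win ℓ θ τ S w.1 p.1 = w.2) := ⟨_, rfl⟩
  have hne : Sw.Nonempty := by
    unfold wins at hw
    rw [mem_image] at hw
    obtain ⟨p, hp, rfl⟩ := hw
    exact ⟨p, by rw [hSw, mem_filter]; exact ⟨hp, rfl, rfl⟩⟩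
  obtain ⟨p1, hp1, hmax⟩ := exists_max_image Sw (fun p => p.1) hne
  obtain ⟨p0, hp0, hmin⟩ := exists_min_image Sw (fun p => p.1) hne
  have hp1' := hp1
  have hp0' := hp0
  rw [hSw, mem_filter] at hp1' hp0'
  have h1 : cnt ℓ θ S w.1 p1.1 < (w.2 + 1) * τ := by
    have h2 := hp1'.2.2
    unfold win at h2
    rw [← h2, mul_comm]
    exact Nat.lt_mul_div_succ _ hτ
  have h2 : w.2 * τ ≤ cnt ℓ θ S w.1 p0.1 := by
    have h3 := hp0'.2.2
    unfold win at h3
    rw [← h3]
    exact Nat.div_mul_le_self _ _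
  have h3 : (Sw.filter (fun p => p.1 < p1.1)).card + cnt ℓ θ S w.1 p0.1 ≤
      cnt ℓ θ S w.1 p1.1 := by
    unfold cnt
    rw [← card_union_of_disjoint]
    · apply card_le_card
      intro p hp
      rw [mem_union, mem_filter, mem_filter, hSw, mem_filter] at hp
      rw [mem_filter]
      rcases hp with ⟨⟨a, b, c⟩, e⟩ | ⟨a, b, c⟩
      · exact ⟨a, e, b⟩
      · exact ⟨a, lt_of_lt_of_le b (hmax p0 hp0), c⟩
    · rw [disjoint_left]
      intro p hp hp'
      rw [mem_filter] at hp hp'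
      have := hmin p hp.1
      omega
  have h4 : (Sw.filter (fun p => ¬ p.1 < p1.1)).card ≤ ℓ ^ d := by
    rw [← cells_length ℓ θ w.1, ← List.toFinset_card_of_nodup (cells_nodup ℓ θ w.1)]
    apply card_le_card_of_injOn (fun p => p.2)
    · intro p hp
      rw [mem_coe, mem_filter, hSw, mem_filter] at hp
      rw [mem_coe, List.mem_toFinset, mem_cells hℓ]
      exact hp.1.2.1
    · intro p hp p' hp' h
      rw [mem_coe, mem_filter] at hp hp'
      have e1 := hmax p hp.1
      have e2 := hmax p' hp'.1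
      exact Prod.ext (by omega) h
  have h5 := card_filter_add_card_filter_not (s := Sw) (fun p => p.1 < p1.1)
  have h6 : nw ℓ θ τ S w = Sw.card := by rw [hSw]; rfl
  rw [h6]
  have h7 : (w.2 + 1) * τ = w.2 * τ + τ := by ring
  omega

theorem late_card {T : ℕ} (hS : ∀ p ∈ S, p.1 < T) :
    ((wins ℓ θ τ S).filter (fun w => w.2 ≠ 0)).card * τ ≤ S.card := by
  classical
  obtain ⟨K, hK⟩ : ∃ K, K = S.image (fun p => blk ℓ θ p.2) := ⟨_, rfl⟩
  have hm : ∀ w ∈ (wins ℓ θ τ S).filter (fun w => w.2 ≠ 0), w.1 ∈ K := by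
    intro w hw
    rw [mem_filter] at hw
    have h1 := hw.1
    unfold wins at h1
    rw [mem_image] at h1
    obtain ⟨p, hp, rfl⟩ := h1
    rw [hK]
    exact mem_image_of_mem _ hp
  rw [card_eq_sum_card_fiberwise hm, sum_mul]
  have h1 : ∀ k ∈ K, (((wins ℓ θ τ S).filter (fun w => w.2 ≠ 0)).filter
      (fun w => w.1 = k)).card * τ ≤ cnt ℓ θ S k T := by
    intro k _
    refine le_trans (Nat.mul_le_mul_right τ ?_) (Nat.div_mul_le_self (cnt ℓ θ S k T) τ)
    have hI : (Icc 1 (cnt ℓ θ S k T / τ)).card = cnt ℓ θ S k T / τ := by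
      rw [Nat.card_Icc, Nat.add_sub_cancel]
    refine le_trans (card_le_card_of_injOn (t := Icc 1 (cnt ℓ θ S k T / τ)) (fun w => w.2) ?_ ?_)
      hI.le
    · intro w hw
      rw [mem_coe, mem_filter, mem_filter] at hw
      obtain ⟨⟨h1, h2⟩, h3⟩ := hw
      unfold wins at h1
      rw [mem_image] at h1
      obtain ⟨p, hp, rfl⟩ := h1
      simp only at h2 h3
      rw [mem_coe, mem_Icc]
      refine ⟨by simp only; omega, ?_⟩
      simp only
      rw [h3]
      exact win_mono ℓ θ τ S k (hS p hp).le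
    · intro w hw w' hw' h
      rw [mem_coe, mem_filter] at hw hw'
      exact Prod.ext (hw.2.trans hw'.2.symm) h
  refine (sum_le_sum h1).trans ?_
  have hm2 : ∀ p ∈ S, blk ℓ θ p.2 ∈ K := fun p hp => by rw [hK]; exact mem_image_of_mem _ hp
  rw [card_eq_sum_card_fiberwise hm2]
  apply sum_le_sum
  intro k _
  unfold cnt
  apply card_le_card
  intro p hp
  rw [mem_filter] at hp ⊢
  exact ⟨hp.1, hp.2.2⟩

variable {ι ω α Γ : Type}

/-- The set of the active pairs. -/
def IsAct (M : Machine d ι ω α Γ) (x : ι → α) (T : ℕ) (S : Finset (ℕ × Cell d)) : Prop :=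
  ∀ p, p ∈ S ↔ p.1 < T ∧ M.Active x p.1 p.2

theorem early_near {M : Machine d ι ω α Γ} {x : ι → α} {T : ℕ} (hS : IsAct M x T S)
    (hℓ : 0 < ℓ) {w : Cell d × ℕ} (hw : w ∈ wins ℓ θ τ S) (hw0 : w.2 = 0)
    (hx : xs ℓ θ τ S w = ∅) : NearB (cells ℓ θ w.1) 0 := by
  by_contra hcon
  unfold wins at hw
  rw [mem_image] at hw
  obtain ⟨p, hp, rfl⟩ := hw
  simp only at hw0 hx hcon
  obtain ⟨k, hk⟩ : ∃ k, k = blk ℓ θ p.2 := ⟨_, rfl⟩
  rw [← hk] at hw0 hx hcon
  have hpT := (hS p).1 hp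
  have key : ∀ s ≤ p.1, ∀ u, NearB (cells ℓ θ k) u → M.conf x s u = M.blank := by
    intro s
    induction s with
    | zero =>
      intro _ u hu
      change M.init u = M.blank
      unfold Machine.init
      rw [if_neg]
      rintro rfl
      exact hcon hu
    | succ s ih =>
      intro hs u hu
      have ih' := ih (by omega)
      have hna : ¬ M.Active x s u := by
        intro hact
        by_cases huc : u ∈ cells ℓ θ k
        · obtain ⟨u', h1, h2⟩ := active_near hact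
          exact h2 (ih' u' ⟨u, huc, h1⟩)
        · have h1 : (s, u) ∈ S := (hS (s, u)).2 ⟨by omega, hact⟩
          have h2 : (s, u) ∈ xs ℓ θ τ S (k, win ℓ θ τ S k p.1) := by
            unfold xs
            rw [mem_filter]
            refine ⟨h1, (mem_ob hℓ).2 ⟨huc, hu⟩, ?_⟩
            have h3 := win_mono ℓ θ τ S k (show s ≤ p.1 by omega)
            simp only at h3 ⊢
            omega
          rw [hx] at h2
          exact absurd h2 (notMem_empty _)
      unfold Machine.Active at hna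
      push Not at hna
      rw [hna.1]
      exact ih' u hu
  obtain ⟨u', h1, h2⟩ := active_near hpT.2
  exact h2 (key p.1 le_rfl u' ⟨p.2, (mem_cells hℓ).2 hk.symm, h1⟩)

theorem early_card {M : Machine d ι ω α Γ} {x : ι → α} {T : ℕ} (hS : IsAct M x T S)
    (hℓ : 0 < ℓ) : ((wins ℓ θ τ S).filter (fun w => w.2 = 0)).card ≤
      3 ^ d + ∑ w ∈ wins ℓ θ τ S, (xs ℓ θ τ S w).card := by
  classical
  have h1 : (wins ℓ θ τ S).filter (fun w => w.2 = 0) ⊆
      (((nb 0).image (blk ℓ θ)).image (fun k => (k, 0))) ∪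
        (wins ℓ θ τ S).filter (fun w => 1 ≤ (xs ℓ θ τ S w).card) := by
    intro w hw
    rw [mem_filter] at hw
    rw [mem_union, mem_filter]
    by_cases hx : xs ℓ θ τ S w = ∅
    · left
      obtain ⟨u, h2, h3⟩ := early_near hS hℓ hw.1 hw.2 hx
      rw [mem_image]
      refine ⟨w.1, mem_image.2 ⟨u, mem_nb.2 h3.symm, (mem_cells hℓ).1 h2⟩, ?_⟩
      exact Prod.ext rfl hw.2.symm
    · right
      exact ⟨hw.1, card_pos.2 (nonempty_iff_ne_empty.2 hx)⟩
  refine (card_le_card h1).trans ((card_union_le _ _).trans (Nat.add_le_add ?_ ?_))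
  · refine card_image_le.trans (card_image_le.trans ?_)
    rw [card_nb]
  · rw [card_filter]
    apply sum_le_sum
    intro w _
    split_ifs with h
    · exact h
    · exact Nat.zero_le _

end run

end Pool.Agent.H363D
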