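import Pool.Agent.H363D.Win

/-!
# The windows of a run, with few changes next to the cubes
-/

set_option autoImplicit false

open Finset

namespace Pool.Agent.H363D.Xi

open Pool.Agent.W896.MO

section run

variable {d : ℕ}

/-- The number of active pairs next to the block `k` before the time `t`. -/
noncomputable def cntx (ℓ θ : ℕ) (S : Finset (ℕ × Cell d)) (k : Cell d) (t : ℕ) : ℕ :=
  (S.filter (fun p => p.1 < t ∧ k ∈ ob ℓ θ p.2)).card

theorem cntx_mono (ℓ θ : ℕ) (S : Finset (ℕ × Cell d)) (k : Cell d) :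
    Monotone (cntx ℓ θ S k) := by
  intro s t hst
  unfold cntx
  apply card_le_card
  intro p hp
  rw [mem_filter] at hp ⊢
  exact ⟨hp.1, by omega, hp.2.2⟩

/-- The number of the window of the block `k` at the time `t`. -/
noncomputable def win (ℓ θ τ ξ : ℕ) (S : Finset (ℕ × Cell d)) (k : Cell d) (t : ℕ) : ℕ :=
  cnt ℓ θ S k t / τ + cntx ℓ θ S k t / ξ

theorem win_mono (ℓ θ τ ξ : ℕ) (S : Finset (ℕ × Cell d)) (k : Cell d) :
    Monotone (win ℓ θ τ ξ S k) := fun _ _ h =>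
  Nat.add_le_add (Nat.div_le_div_right (cnt_mono ℓ θ S k h))
    (Nat.div_le_div_right (cntx_mono ℓ θ S k h))

/-- The windows. -/
noncomputable def wins (ℓ θ τ ξ : ℕ) (S : Finset (ℕ × Cell d)) : Finset (Cell d × ℕ) :=
  S.image (fun p => (blk ℓ θ p.2, win ℓ θ τ ξ S (blk ℓ θ p.2) p.1))

/-- The number of active pairs in a window. -/
noncomputable def nw (ℓ θ τ ξ : ℕ) (S : Finset (ℕ × Cell d)) (w : Cell d × ℕ) : ℕ :=
  (S.filter (fun p => blk ℓ θ p.2 = w.1 ∧ win ℓ θ τ ξ S w.1 p.1 = w.2)).card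

/-- The active pairs next to a window. -/
noncomputable def xs (ℓ θ τ ξ : ℕ) (S : Finset (ℕ × Cell d)) (w : Cell d × ℕ) :
    Finset (ℕ × Cell d) :=
  S.filter (fun p => w.1 ∈ ob ℓ θ p.2 ∧ win ℓ θ τ ξ S w.1 p.1 = w.2)

variable (ℓ θ τ ξ : ℕ) (S : Finset (ℕ × Cell d))

theorem sum_nw : ∑ w ∈ wins ℓ θ τ ξ S, nw ℓ θ τ ξ S w ≤ S.card := by
  have hm : ∀ p ∈ S, (blk ℓ θ p.2, win ℓ θ τ ξ S (blk ℓ θ p.2) p.1) ∈ wins ℓ θ τ ξ S :=
    fun p hp => mem_image_of_mem _ hp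
  rw [card_eq_sum_card_fiberwise hm]
  apply sum_le_sum
  intro w _
  apply card_le_card
  intro p hp
  rw [mem_filter] at hp ⊢
  refine ⟨hp.1, Prod.ext hp.2.1 ?_⟩
  simp only
  rw [hp.2.1]
  exact hp.2.2

theorem sum_xs : ∑ w ∈ wins ℓ θ τ ξ S, (xs ℓ θ τ ξ S w).card ≤ ∑ p ∈ S, (ob ℓ θ p.2).card := by
  unfold xs
  simp only [card_filter]
  rw [sum_comm]
  apply sum_le_sum
  intro p _
  rw [← card_filter]
  apply card_le_card_of_injOn (fun w => w.1)
  · intro w hw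
    rw [mem_coe, mem_filter] at hw
    exact hw.2.1
  · intro w hw w' hw' h
    rw [mem_coe, mem_filter] at hw hw'
    have h' : w.1 = w'.1 := h
    refine Prod.ext h' ?_
    rw [← hw.2.2, ← hw'.2.2, h']

variable {ℓ θ τ ξ S}

theorem win_split {k : Cell d} {t₀ t₁ c : ℕ} (h : t₀ ≤ t₁) (h0 : win ℓ θ τ ξ S k t₀ = c)
    (h1 : win ℓ θ τ ξ S k t₁ = c) :
    cnt ℓ θ S k t₀ / τ = cnt ℓ θ S k t₁ / τ ∧ cntx ℓ θ S k t₀ / ξ = cntx ℓ θ S k t₁ / ξ := by
  unfold win at h0 h1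
  have e1 := Nat.div_le_div_right (c := τ) (cnt_mono ℓ θ S k h)
  have e2 := Nat.div_le_div_right (c := ξ) (cntx_mono ℓ θ S k h)
  omega

theorem nw_le (hℓ : 0 < ℓ) (hτ : 0 < τ) {w : Cell d × ℕ} (hw : w ∈ wins ℓ θ τ ξ S) :
    nw ℓ θ τ ξ S w ≤ τ + ℓ ^ d := by
  classical
  obtain ⟨Sw, hSw⟩ : ∃ Sw, Sw = S.filter (fun p => blk ℓ θ p.2 = w.1 ∧
    win ℓ θ τ ξ S w.1 p.1 = w.2) := ⟨_, rfl⟩
  have hne : Sw.Nonempty := by
    unfold wins at hw
    rw [mem_image] at hw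
    obtain ⟨p, hp, rfl⟩ := hw
    exact ⟨p, by rw [hSw, mem_filter]; exact ⟨hp, rfl, rfl⟩⟩
  obtain ⟨p1, hp1, hmax⟩ := exists_max_image Sw (fun p => p.1) hne
  obtain ⟨p0, hp0, hmin⟩ := exists_min_image Sw (fun p => p.1) hne
  have hp1' := hp1
  have hp0' := hp0
  rw [hSw, mem_filter] at hp1' hp0'
  obtain ⟨hq, -⟩ := win_split (hmax p0 hp0) hp0'.2.2 hp1'.2.2
  obtain ⟨q, hqd⟩ : ∃ q, q = cnt ℓ θ S w.1 p0.1 / τ := ⟨_, rfl⟩
  have h1 : cnt ℓ θ S w.1 p1.1 < (q + 1) * τ := by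
    rw [hqd, hq, mul_comm]
    exact Nat.lt_mul_div_succ _ hτ
  have h2 : q * τ ≤ cnt ℓ θ S w.1 p0.1 := by
    rw [hqd]
    exact Nat.div_mul_le_self _ _
  have h3 : (Sw.filter (fun p => p.1 < p1.1)).card + cnt ℓ θ S w.1 p0.1 ≤
      cnt ℓ θ S w.1 p1.1 := by
    unfold cnt
    rw [← card_union_of_disjoint]
    · apply card_le_card
      intro p hp
      rw [mem_union, mem_filter, mem_filter, hSw, mem_filter] at hp
      rw [mem_filter]
      rcases hp with ⟨⟨a, b, c⟩, e⟩ | ⟨a, b, c⟩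
      · exact ⟨a, e, b⟩
      · exact ⟨a, lt_of_lt_of_le b (hmax p0 hp0), c⟩
    · rw [disjoint_left]
      intro p hp hp'
      rw [mem_filter] at hp hp'
      have := hmin p hp.1
      omega
  have h4 : (Sw.filter (fun p => ¬ p.1 < p1.1)).card ≤ ℓ ^ d := by
    rw [← cells_length ℓ θ w.1, ← List.toFinset_card_of_nodup (cells_nodup ℓ θ w.1)]
    apply card_le_card_of_injOn (fun p => p.2)
    · intro p hp
      rw [mem_coe, mem_filter, hSw, mem_filter] at hp
      rw [mem_coe, List.mem_toFinset, mem_cells hℓ]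
      exact hp.1.2.1
    · intro p hp p' hp' h
      rw [mem_coe, mem_filter] at hp hp'
      have e1 := hmax p hp.1
      have e2 := hmax p' hp'.1
      exact Prod.ext (by omega) h
  have h5 := card_filter_add_card_filter_not (s := Sw) (fun p => p.1 < p1.1)
  have h6 : nw ℓ θ τ ξ S w = Sw.card := by rw [hSw]; rfl
  rw [h6]
  have h7 : (q + 1) * τ = q * τ + τ := by ring
  omega

/-- The cube enlarged by one in all directions. -/
noncomputable def big (ℓ θ : ℕ) (k : Cell d) : Finset (Cell d) :=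
  Fintype.piFinset (fun i => Finset.Ico (k i * ℓ - θ - 1) (k i * ℓ - θ - 1 + (ℓ + 2)))

theorem card_bigc (ℓ θ : ℕ) (k : Cell d) : (big ℓ θ k).card = (ℓ + 2) ^ d := by
  unfold big
  rw [Fintype.card_piFinset]
  have h : ∀ i, (Finset.Ico (k i * (ℓ : ℤ) - θ - 1) (k i * ℓ - θ - 1 + (ℓ + 2))).card = ℓ + 2 := by
    intro i
    rw [Int.card_Ico]
    omega
  simp only [h, prod_const, card_univ, Fintype.card_fin]

theorem mem_big {ℓ θ : ℕ} {k v : Cell d} (h : NearB (cells ℓ θ k) v) : v ∈ big ℓ θ k := by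
  obtain ⟨u, hu, huv⟩ := h
  unfold big
  rw [Fintype.mem_piFinset]
  intro i
  unfold cells at hu
  rw [mem_toList, Fintype.mem_piFinset] at hu
  have h1 := hu i
  rw [mem_Ico] at h1 ⊢
  have h2 := huv i
  rw [abs_le] at h2
  omega

theorem xs_le (hℓ : 0 < ℓ) (hξ : 0 < ξ) (w : Cell d × ℕ) :
    (xs ℓ θ τ ξ S w).card ≤ ξ + (ℓ + 2) ^ d := by
  classical
  obtain ⟨Sw, hSw⟩ : ∃ Sw, Sw = xs ℓ θ τ ξ S w := ⟨_, rfl⟩
  rw [← hSw]
  rcases Sw.eq_empty_or_nonempty with hemp | hne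
  · rw [hemp, card_empty]
    exact Nat.zero_le _
  unfold xs at hSw
  obtain ⟨p1, hp1, hmax⟩ := exists_max_image Sw (fun p => p.1) hne
  obtain ⟨p0, hp0, hmin⟩ := exists_min_image Sw (fun p => p.1) hne
  have hp1' := hp1
  have hp0' := hp0
  rw [hSw, mem_filter] at hp1' hp0'
  obtain ⟨-, hq⟩ := win_split (hmax p0 hp0) hp0'.2.2 hp1'.2.2
  obtain ⟨q, hqd⟩ : ∃ q, q = cntx ℓ θ S w.1 p0.1 / ξ := ⟨_, rfl⟩
  have h1 : cntx ℓ θ S w.1 p1.1 < (q + 1) * ξ := by
    rw [hqd, hq, mul_comm]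
    exact Nat.lt_mul_div_succ _ hξ
  have h2 : q * ξ ≤ cntx ℓ θ S w.1 p0.1 := by
    rw [hqd]
    exact Nat.div_mul_le_self _ _
  have h3 : (Sw.filter (fun p => p.1 < p1.1)).card + cntx ℓ θ S w.1 p0.1 ≤
      cntx ℓ θ S w.1 p1.1 := by
    unfold cntx
    rw [← card_union_of_disjoint]
    · apply card_le_card
      intro p hp
      rw [mem_union, mem_filter, mem_filter, hSw, mem_filter] at hp
      rw [mem_filter]
      rcases hp with ⟨⟨a, b, c⟩, e⟩ | ⟨a, b, c⟩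
      · exact ⟨a, e, b⟩
      · exact ⟨a, lt_of_lt_of_le b (hmax p0 hp0), c⟩
    · rw [disjoint_left]
      intro p hp hp'
      rw [mem_filter] at hp hp'
      have := hmin p hp.1
      omega
  have h4 : (Sw.filter (fun p => ¬ p.1 < p1.1)).card ≤ (ℓ + 2) ^ d := by
    rw [← card_bigc ℓ θ w.1]
    apply card_le_card_of_injOn (fun p => p.2)
    · intro p hp
      rw [mem_coe, mem_filter, hSw, mem_filter] at hp
      exact mem_coe.2 (mem_big ((mem_ob hℓ).1 hp.1.2.1).2)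
    · intro p hp p' hp' h
      rw [mem_coe, mem_filter] at hp hp'
      have e1 := hmax p hp.1
      have e2 := hmax p' hp'.1
      exact Prod.ext (by omega) h
  have h5 := card_filter_add_card_filter_not (s := Sw) (fun p => p.1 < p1.1)
  have h7 : (q + 1) * ξ = q * ξ + ξ := by ring
  omega

theorem sum_div {κ : Type} (K : Finset κ) (f : κ → ℕ) {c : ℕ} (hc : 0 < c) :
    ∑ k ∈ K, f k / c ≤ (∑ k ∈ K, f k) / c := by
  rw [Nat.le_div_iff_mul_le hc, sum_mul]
  exact sum_le_sum fun k _ => Nat.div_mul_le_self _ _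

theorem late_card {T : ℕ} (hS : ∀ p ∈ S, p.1 < T) (hτ : 0 < τ) (hξ : 0 < ξ) :
    ((wins ℓ θ τ ξ S).filter (fun w => w.2 ≠ 0)).card ≤
      S.card / τ + (∑ p ∈ S, (ob ℓ θ p.2).card) / ξ := by
  classical
  obtain ⟨K, hK⟩ : ∃ K, K = S.image (fun p => blk ℓ θ p.2) := ⟨_, rfl⟩
  have hm : ∀ w ∈ (wins ℓ θ τ ξ S).filter (fun w => w.2 ≠ 0), w.1 ∈ K := by
    intro w hw
    rw [mem_filter] at hw
    have h1 := hw.1
    unfold wins at h1
    rw [mem_image] at h1
    obtain ⟨p, hp, rfl⟩ := h1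
    rw [hK]
    exact mem_image_of_mem _ hp
  rw [card_eq_sum_card_fiberwise hm]
  have h1 : ∀ k ∈ K, (((wins ℓ θ τ ξ S).filter (fun w => w.2 ≠ 0)).filter
      (fun w => w.1 = k)).card ≤ cnt ℓ θ S k T / τ + cntx ℓ θ S k T / ξ := by
    intro k _
    obtain ⟨Z, hZ⟩ : ∃ Z, Z = cnt ℓ θ S k T / τ + cntx ℓ θ S k T / ξ := ⟨_, rfl⟩
    rw [← hZ]
    have hI : (Icc 1 Z).card = Z := by
      rw [Nat.card_Icc, Nat.add_sub_cancel]
    refine le_trans (card_le_card_of_injOn (t := Icc 1 Z) (fun w => w.2) ?_ ?_) hI.le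
    · intro w hw
      rw [mem_coe, mem_filter, mem_filter] at hw
      obtain ⟨⟨h1, h2⟩, h3⟩ := hw
      unfold wins at h1
      rw [mem_image] at h1
      obtain ⟨p, hp, rfl⟩ := h1
      simp only at h2 h3
      rw [mem_coe, mem_Icc]
      refine ⟨by simp only; omega, ?_⟩
      simp only
      rw [h3, hZ]
      exact win_mono ℓ θ τ ξ S k (hS p hp).le
    · intro w hw w' hw' h
      rw [mem_coe, mem_filter] at hw hw'
      exact Prod.ext (hw.2.trans hw'.2.symm) h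
  refine (sum_le_sum h1).trans ?_
  rw [sum_add_distrib]
  apply Nat.add_le_add
  · refine (sum_div K _ hτ).trans (Nat.div_le_div_right ?_)
    have hm2 : ∀ p ∈ S, blk ℓ θ p.2 ∈ K := fun p hp => by rw [hK]; exact mem_image_of_mem _ hp
    rw [card_eq_sum_card_fiberwise hm2]
    apply sum_le_sum
    intro k _
    unfold cnt
    apply card_le_card
    intro p hp
    rw [mem_filter] at hp ⊢
    exact ⟨hp.1, hp.2.2⟩
  · refine (sum_div K _ hξ).trans (Nat.div_le_div_right ?_)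
    unfold cntx
    simp only [card_filter]
    rw [sum_comm]
    apply sum_le_sum
    intro p _
    rw [← card_filter]
    apply card_le_card
    intro k hk
    rw [mem_filter] at hk
    exact hk.2.2

variable {ι ω α Γ : Type}

theorem early_near {M : Machine d ι ω α Γ} {x : ι → α} {T : ℕ} (hS : IsAct M x T S)
    (hℓ : 0 < ℓ) {w : Cell d × ℕ} (hw : w ∈ wins ℓ θ τ ξ S) (hw0 : w.2 = 0)
    (hx : xs ℓ θ τ ξ S w = ∅) : NearB (cells ℓ θ w.1) 0 := by
  by_contra hcon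
  unfold wins at hw
  rw [mem_image] at hw
  obtain ⟨p, hp, rfl⟩ := hw
  simp only at hw0 hx hcon
  obtain ⟨k, hk⟩ : ∃ k, k = blk ℓ θ p.2 := ⟨_, rfl⟩
  rw [← hk] at hw0 hx hcon
  have hpT := (hS p).1 hp
  have key : ∀ s ≤ p.1, ∀ u, NearB (cells ℓ θ k) u → M.conf x s u = M.blank := by
    intro s
    induction s with
    | zero =>
      intro _ u hu
      change M.init u = M.blank
      unfold Machine.init
      rw [if_neg]
      rintro rfl
      exact hcon hu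
    | succ s ih =>
      intro hs u hu
      have ih' := ih (by omega)
      have hna : ¬ M.Active x s u := by
        intro hact
        by_cases huc : u ∈ cells ℓ θ k
        · obtain ⟨u', h1, h2⟩ := active_near hact
          exact h2 (ih' u' ⟨u, huc, h1⟩)
        · have h1 : (s, u) ∈ S := (hS (s, u)).2 ⟨by omega, hact⟩
          have h2 : (s, u) ∈ xs ℓ θ τ ξ S (k, win ℓ θ τ ξ S k p.1) := by
            unfold xs
            rw [mem_filter]
            refine ⟨h1, (mem_ob hℓ).2 ⟨huc, hu⟩, ?_⟩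
            have h3 := win_mono ℓ θ τ ξ S k (show s ≤ p.1 by omega)
            simp only at h3 ⊢
            omega
          rw [hx] at h2
          exact absurd h2 (notMem_empty _)
      unfold Machine.Active at hna
      push Not at hna
      rw [hna.1]
      exact ih' u hu
  obtain ⟨u', h1, h2⟩ := active_near hpT.2
  exact h2 (key p.1 le_rfl u' ⟨p.2, (mem_cells hℓ).2 hk.symm, h1⟩)

theorem early_card {M : Machine d ι ω α Γ} {x : ι → α} {T : ℕ} (hS : IsAct M x T S)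
    (hℓ : 0 < ℓ) : ((wins ℓ θ τ ξ S).filter (fun w => w.2 = 0)).card ≤
      3 ^ d + ∑ w ∈ wins ℓ θ τ ξ S, (xs ℓ θ τ ξ S w).card := by
  classical
  have h1 : (wins ℓ θ τ ξ S).filter (fun w => w.2 = 0) ⊆
      (((nb 0).image (blk ℓ θ)).image (fun k => (k, 0))) ∪
        (wins ℓ θ τ ξ S).filter (fun w => 1 ≤ (xs ℓ θ τ ξ S w).card) := by
    intro w hw
    rw [mem_filter] at hw
    rw [mem_union, mem_filter]
    by_cases hx : xs ℓ θ τ ξ S w = ∅
    · left
      obtain ⟨u, h2, h3⟩ := early_near hS hℓ hw.1 hw.2 hx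
      rw [mem_image]
      refine ⟨w.1, mem_image.2 ⟨u, mem_nb.2 h3.symm, (mem_cells hℓ).1 h2⟩, ?_⟩
      exact Prod.ext rfl hw.2.symm
    · right
      exact ⟨hw.1, card_pos.2 (nonempty_iff_ne_empty.2 hx)⟩
  refine (card_le_card h1).trans ((card_union_le _ _).trans (Nat.add_le_add ?_ ?_))
  · refine card_image_le.trans (card_image_le.trans ?_)
    rw [card_nb]
  · rw [card_filter]
    apply sum_le_sum
    intro w _
    split_ifs with h
    · exact h
    · exact Nat.zero_le _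

end run

end Pool.Agent.H363D.Xi
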